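import Mathlib

/-!
# The blowing-up lemma for the Hamming distance, online

For a nonempty set `A` of words of length `n` over a finite alphabet with `q` letters there is a
map `τ` from all words to words in `A`, such that the `j`-th letter of `τ x` depends only on the
first `j` letters of `x`, and the Hamming distance of `x` and `τ x` exceeds `s` for at most
`q^(2n) exp (-s²/n) / |A|` words.
-/

set_option autoImplicit false

namespace Pool.Agent.R378.Blow

open Finset

/-- the constant `(1 + e^λ)² / (4 e^λ)` -/
noncomputable def K (l : ℝ) : ℝ := (1 + Real.exp l) ^ 2 / (4 * Real.exp l)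

theorem K_pos (l : ℝ) : 0 < K l := by
  unfold K
  have := Real.exp_pos l
  positivity

theorem K_le (l : ℝ) : K l ≤ Real.exp (l ^ 2 / 4) := by
  have h1 : K l = Real.cosh (l / 2) ^ 2 := by
    unfold K
    rw [Real.cosh_eq]
    have h2 : Real.exp l = Real.exp (l / 2) ^ 2 := by
      rw [← Real.exp_nat_mul]
      congr 1
      push_cast
      ring
    have h3 : Real.exp (-(l / 2)) = (Real.exp (l / 2))⁻¹ := Real.exp_neg _
    rw [h2, h3]
    have h4 : Real.exp (l / 2) ≠ 0 := (Real.exp_pos _).ne'
    field_simp
    ring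
  rw [h1]
  have h5 := Real.cosh_le_exp_half_sq (l / 2)
  have h6 : 0 ≤ Real.cosh (l / 2) := (Real.cosh_pos _).le
  calc Real.cosh (l / 2) ^ 2 ≤ Real.exp ((l / 2) ^ 2 / 2) ^ 2 := pow_le_pow_left₀ h6 h5 2
    _ = Real.exp (l ^ 2 / 4) := by
        rw [← Real.exp_nat_mul]
        congr 1
        push_cast
        ring

/-- the elementary inequality behind the induction -/
theorem min_le_lin {v e : ℝ} (hv0 : 0 < v) (hv1 : v ≤ 1) (_he : 1 ≤ e) :
    min (1 / v) e ≤ 1 + e - e * v := by
  rcases le_or_gt (e * v) 1 with h | h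
  · exact (min_le_right _ _).trans (by linarith)
  · refine (min_le_left _ _).trans ?_
    rw [div_le_iff₀ hv0]
    nlinarith

/-- from the exponential moment to the tail -/
theorem tail {ι : Type} [Fintype ι] (n : ℕ) (hn : 0 < n) (q : ℝ) (hq : 0 < q) (g : ι → ℕ)
    (A a s : ℝ) (hs : 0 ≤ s) (hA : q ^ n * Real.exp (-a) ≤ A)
    (h : (∑ x, Real.exp (2 * s / n * g x)) * A ≤ (q ^ 2 * K (2 * s / n)) ^ n) :
    (Nat.card {x // s < g x} : ℝ) ≤ q ^ n * Real.exp (a - s ^ 2 / n) := by
  classical
  have hn0 : (0:ℝ) < n := by exact_mod_cast hn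
  set l : ℝ := 2 * s / n with hl
  have hl0 : 0 ≤ l := by positivity
  have hA0 : 0 < A := lt_of_lt_of_le (by positivity) hA
  rw [Nat.card_eq_fintype_card, Fintype.card_subtype]
  set B : ℝ := (((univ.filter (fun x : ι => s < g x)).card : ℕ) : ℝ) with hB
  have hB0 : 0 ≤ B := by positivity
  have h1 : B * Real.exp (l * s) ≤ ∑ x, Real.exp (l * g x) := by
    rw [hB, ← nsmul_eq_mul, ← Finset.sum_const]
    refine (Finset.sum_le_sum fun x hx => ?_).trans
      (Finset.sum_le_sum_of_subset_of_nonneg (Finset.filter_subset _ _) fun x _ _ =>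
        (Real.exp_pos _).le)
    have h2 := (mem_filter.1 hx).2
    exact Real.exp_le_exp.2 (mul_le_mul_of_nonneg_left h2.le hl0)
  have h2 : B * A * Real.exp (l * s) ≤ (q ^ 2) ^ n * Real.exp (l ^ 2 * n / 4) := by
    calc B * A * Real.exp (l * s) = B * Real.exp (l * s) * A := by ring
      _ ≤ (∑ x, Real.exp (l * g x)) * A := mul_le_mul_of_nonneg_right h1 hA0.le
      _ ≤ (q ^ 2 * K l) ^ n := h
      _ = (q ^ 2) ^ n * K l ^ n := mul_pow _ _ _
      _ ≤ (q ^ 2) ^ n * Real.exp (l ^ 2 / 4) ^ n := by
          apply mul_le_mul_of_nonneg_left _ (by positivity)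
          exact pow_le_pow_left₀ (K_pos l).le (K_le l) n
      _ = _ := by
          rw [← Real.exp_nat_mul]
          congr 2
          ring
  have h3 : Real.exp (-(s ^ 2 / n)) = Real.exp (l ^ 2 * n / 4) * Real.exp (-(l * s)) := by
    rw [← Real.exp_add]
    congr 1
    rw [hl]
    field_simp
    ring
  have h4 : Real.exp (l * s) * Real.exp (-(l * s)) = 1 := by
    rw [← Real.exp_add]
    simp
  have h5 := mul_le_mul_of_nonneg_right h2 (Real.exp_pos (-(l * s))).le
  rw [mul_assoc, h4, mul_one, mul_assoc, ← h3] at h5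
  have h6 : B * (q ^ n * Real.exp (-a)) ≤ (q ^ 2) ^ n * Real.exp (-(s ^ 2 / n)) :=
    (mul_le_mul_of_nonneg_left hA hB0).trans h5
  have h7 : (q ^ 2) ^ n * Real.exp (-(s ^ 2 / n)) =
      q ^ n * Real.exp (a - s ^ 2 / n) * (q ^ n * Real.exp (-a)) := by
    have h8 : Real.exp (a - s ^ 2 / n) * Real.exp (-a) = Real.exp (-(s ^ 2 / n)) := by
      rw [← Real.exp_add]
      congr 1
      ring
    rw [← h8]
    ring
  rw [h7] at h6
  exact le_of_mul_le_mul_right h6 (by positivity)

variable {α : Type} [Fintype α] [DecidableEq α]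

omit [DecidableEq α] in
theorem sum_cons' {n : ℕ} (f : (Fin (n + 1) → α) → ℝ) :
    ∑ x, f x = ∑ a : α, ∑ y : Fin n → α, f (Fin.cons a y) := by
  rw [← Equiv.sum_comp (Fin.consEquiv (fun _ => α)), Fintype.sum_prod_type]
  rfl

omit [Fintype α] in
theorem ham_cons {n : ℕ} (a b : α) (x y : Fin n → α) :
    hammingDist (Fin.cons a x : Fin (n + 1) → α) (Fin.cons b y) =
      (if a = b then 0 else 1) + hammingDist x y := by
  unfold hammingDist
  rw [Finset.card_filter, Finset.card_filter, Fin.sum_univ_succ]
  simp only [Fin.cons_zero, Fin.cons_succ]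
  by_cases h : a = b <;> simp [h]

/-- the `j`-th letter of `τ x` depends only on the first letters of `x`, up to the `j`-th -/
def Causal {n : ℕ} (τ : (Fin n → α) → Fin n → α) : Prop :=
  ∀ x x' j, (∀ i, i ≤ j → x i = x' i) → τ x j = τ x' j

/-- **Exponential moment of the distance to a set**, with an online choice of the near point. -/
theorem moment [Nonempty α] (l : ℝ) (hl : 0 ≤ l) : ∀ (n : ℕ) (A : Finset (Fin n → α)),
    A.Nonempty → ∃ τ : (Fin n → α) → Fin n → α, Causal τ ∧ (∀ x, τ x ∈ A) ∧
      (∑ x, Real.exp (l * hammingDist x (τ x))) * A.card ≤ ((Fintype.card α : ℝ) ^ 2 * K l) ^ n := by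
  classical
  intro n
  induction n with
  | zero =>
    intro A hA
    obtain ⟨a, ha⟩ := hA
    refine ⟨fun x => a, fun _ _ _ _ => rfl, fun _ => ha, ?_⟩
    have h1 : A.card ≤ 1 := by
      have := Finset.card_le_univ A
      simpa using this
    have h2 : (A.card : ℝ) ≤ 1 := by exact_mod_cast h1
    have h3 : ∀ x : Fin 0 → α, hammingDist x a = 0 := fun x => by
      have : x = a := Subsingleton.elim _ _
      rw [this]; simp
    simpa [h3] using h2
  | succ n ih =>
    intro A hA
    set e := Real.exp l with he
    have he1 : 1 ≤ e := Real.one_le_exp hl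
    have he0 : 0 < e := by linarith
    set sec : α → Finset (Fin n → α) := fun a => univ.filter (fun y => (Fin.cons a y : Fin (n+1) → α) ∈ A)
      with hsec
    have hcard : A.card = ∑ a, (sec a).card := by
      have h1 : (A.card : ℝ) = ∑ x, if x ∈ A then (1:ℝ) else 0 := by
        simp
      have h2 : ((∑ a, (sec a).card : ℕ) : ℝ) = ∑ x, if x ∈ A then (1:ℝ) else 0 := by
        rw [sum_cons']
        push_cast
        refine Finset.sum_congr rfl fun a _ => ?_
        rw [hsec]
        simp only
        rw [Finset.card_filter]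
        push_cast
        rfl
      exact_mod_cast h1.trans h2.symm
    obtain ⟨b, _, hb⟩ := Finset.exists_max_image (univ : Finset α) (fun a => (sec a).card)
      univ_nonempty
    have hbne : (sec b).Nonempty := by
      rw [← Finset.card_pos]
      by_contra hcon
      have h1 : ∀ a, (sec a).card = 0 := fun a => by
        have := hb a (mem_univ a)
        omega
      have h2 : A.card = 0 := by
        rw [hcard]
        exact Finset.sum_eq_zero fun a _ => h1 a
      have := hA.card_pos
      omega
    set T : ℝ := ((Fintype.card α : ℝ) ^ 2 * K l) ^ n with hT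
    have hT0 : 0 < T := by
      have := K_pos l
      have h3 : (0:ℝ) < Fintype.card α := by exact_mod_cast Fintype.card_pos
      positivity
    obtain ⟨tb, htb1, htb2, htb3⟩ := ih (sec b) hbne
    set M : ℝ := ((sec b).card : ℝ) with hM
    have hM0 : 0 < M := by
      rw [hM]
      exact_mod_cast hbne.card_pos
    have hg : ∀ a, ∃ (t : α) (τ : (Fin n → α) → Fin n → α), Causal τ ∧
        (∀ y, (Fin.cons t (τ y) : Fin (n+1) → α) ∈ A) ∧
        ∑ y, Real.exp (l * hammingDist (Fin.cons a y : Fin (n+1) → α) (Fin.cons t (τ y))) ≤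
          T / M * (1 + e - e * ((sec a).card / M)) := by
      intro a
      have hB2 : ∑ y, Real.exp (l * hammingDist (Fin.cons a y : Fin (n+1) → α) (Fin.cons b (tb y)))
          ≤ T / M * e := by
        have h1 : ∑ y, Real.exp (l * hammingDist (Fin.cons a y : Fin (n+1) → α)
            (Fin.cons b (tb y))) ≤ e * ∑ y, Real.exp (l * hammingDist y (tb y)) := by
          rw [Finset.mul_sum]
          refine Finset.sum_le_sum fun y _ => ?_
          rw [he, ← Real.exp_add]
          apply Real.exp_le_exp.2
          rw [ham_cons]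
          split_ifs
          · push_cast
            nlinarith
          · push_cast
            nlinarith
        refine h1.trans ?_
        have h2 : ∑ y, Real.exp (l * hammingDist y (tb y)) ≤ T / M := by
          rw [le_div_iff₀ hM0]
          exact htb3
        calc e * ∑ y, Real.exp (l * hammingDist y (tb y)) ≤ e * (T / M) :=
              mul_le_mul_of_nonneg_left h2 he0.le
          _ = T / M * e := by ring
      have hBA : ∀ y, (Fin.cons b (tb y) : Fin (n+1) → α) ∈ A := fun y => (mem_filter.1 (htb2 y)).2
      rcases Finset.eq_empty_or_nonempty (sec a) with hea | hne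
      · refine ⟨b, tb, htb1, hBA, hB2.trans ?_⟩
        rw [hea]
        simp only [Finset.card_empty, Nat.cast_zero, zero_div, mul_zero, sub_zero]
        apply mul_le_mul_of_nonneg_left _ (by positivity)
        linarith
      · obtain ⟨ta, hta1, hta2, hta3⟩ := ih (sec a) hne
        have hca0 : (0:ℝ) < (sec a).card := by
          have := hne.card_pos
          exact_mod_cast this
        have hA1 : ∀ y, (Fin.cons a (ta y) : Fin (n+1) → α) ∈ A := fun y =>
          (mem_filter.1 (hta2 y)).2
        have hA2 : ∑ y, Real.exp (l * hammingDist (Fin.cons a y : Fin (n+1) → α)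
            (Fin.cons a (ta y))) ≤ T / M * (1 / ((sec a).card / M)) := by
          have h1 : T / M * (1 / ((sec a).card / M)) = T / (sec a).card := by
            field_simp
          rw [h1, le_div_iff₀ hca0]
          refine le_trans (le_of_eq ?_) hta3
          congr 1
          refine Finset.sum_congr rfl fun y _ => ?_
          rw [ham_cons, if_pos rfl, zero_add]
        have hv1 : ((sec a).card : ℝ) / M ≤ 1 := by
          rw [div_le_one hM0, hM]
          exact_mod_cast hb a (mem_univ a)
        have hmin := min_le_lin (v := ((sec a).card : ℝ) / M) (by positivity) hv1 he1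
        rcases le_total (1 / (((sec a).card : ℝ) / M)) e with h | h
        · rw [min_eq_left h] at hmin
          exact ⟨a, ta, hta1, hA1, hA2.trans (mul_le_mul_of_nonneg_left hmin (by positivity))⟩
        · rw [min_eq_right h] at hmin
          exact ⟨b, tb, htb1, hBA, hB2.trans (mul_le_mul_of_nonneg_left hmin (by positivity))⟩
    choose t τ hg1 hg2 hg3 using hg
    refine ⟨fun x => Fin.cons (t (x 0)) (τ (x 0) (Fin.tail x)), ?_, fun x => hg2 _ _, ?_⟩
    · intro x x' j
      refine Fin.cases ?_ (fun j => ?_) j
      · intro h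
        simp only [Fin.cons_zero]
        rw [h 0 le_rfl]
      · intro h
        simp only [Fin.cons_succ]
        rw [h 0 (Fin.zero_le _)]
        exact hg1 (x' 0) _ _ j fun i hi => h i.succ (Fin.succ_le_succ_iff.2 hi)
    · rw [sum_cons']
      have h1 : ∑ a : α, ∑ y : Fin n → α,
          Real.exp (l * hammingDist (Fin.cons a y : Fin (n+1) → α)
            (Fin.cons (t ((Fin.cons a y : Fin (n+1) → α) 0))
              (τ ((Fin.cons a y : Fin (n+1) → α) 0) (Fin.tail (Fin.cons a y : Fin (n+1) → α))))) ≤
          ∑ a : α, T / M * (1 + e - e * ((sec a).card / M)) := by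
        refine Finset.sum_le_sum fun a _ => ?_
        simp only [Fin.cons_zero, Fin.tail_cons]
        exact hg3 a
      set q : ℝ := (Fintype.card α : ℝ) with hq
      set V : ℝ := (A.card : ℝ) / M with hV
      have h2 : ∑ a : α, T / M * (1 + e - e * ((sec a).card / M)) = T / M * (q * (1 + e) - e * V) := by
        rw [← Finset.mul_sum, Finset.sum_sub_distrib, Finset.sum_const, Finset.card_univ,
          nsmul_eq_mul, ← Finset.mul_sum, ← Finset.sum_div, hV, hcard]
        push_cast
        rfl
      have h3 : (A.card : ℝ) = M * V := by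
        rw [hV]
        field_simp
      have h4 : K l = (1 + e) ^ 2 / (4 * e) := rfl
      calc _ ≤ (T / M * (q * (1 + e) - e * V)) * (A.card : ℝ) := by
            rw [← h2]
            exact mul_le_mul_of_nonneg_right h1 (by positivity)
        _ = T * (V * (q * (1 + e) - e * V)) := by
            rw [h3]
            field_simp
        _ ≤ T * (q ^ 2 * K l) := by
            apply mul_le_mul_of_nonneg_left _ hT0.le
            rw [h4, show q ^ 2 * ((1 + e) ^ 2 / (4 * e)) = (q ^ 2 * (1 + e) ^ 2) / (4 * e) by ring,
              le_div_iff₀ (by positivity)]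
            nlinarith [sq_nonneg (q * (1 + e) - 2 * e * V)]
        _ = (q ^ 2 * K l) ^ (n + 1) := by
            rw [hT]
            exact (pow_succ _ _).symm

/-- **The online blowing-up lemma.** -/
theorem few_far [Nonempty α] (n : ℕ) (P : (Fin n → α) → Prop) (a s : ℝ) (hs : 0 ≤ s)
    (hP : (Fintype.card α : ℝ) ^ n * Real.exp (-a) ≤ (Nat.card {x // P x} : ℝ)) :
    ∃ τ : (Fin n → α) → Fin n → α, Causal τ ∧ (∀ x, P (τ x)) ∧
      (Nat.card {x : Fin n → α // s < hammingDist x (τ x)} : ℝ) ≤
        (Fintype.card α : ℝ) ^ n * Real.exp (a - s ^ 2 / n) := by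
  classical
  rw [Nat.card_eq_fintype_card, Fintype.card_subtype] at hP
  have hq : (0:ℝ) < Fintype.card α := by exact_mod_cast Fintype.card_pos
  set A := univ.filter (fun x => P x) with hA
  have hApos : (0:ℝ) < A.card := lt_of_lt_of_le (by positivity) hP
  have hAne : A.Nonempty := Finset.card_pos.1 (by exact_mod_cast hApos)
  rcases Nat.eq_zero_or_pos n with rfl | hn
  · obtain ⟨x0, hx0⟩ := hAne
    refine ⟨fun _ => x0, fun _ _ _ _ => rfl, fun _ => (mem_filter.1 hx0).2, ?_⟩
    have h1 : Nat.card {x : Fin 0 → α // s < hammingDist x x0} = 0 := by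
      rw [Nat.card_eq_fintype_card, Fintype.card_eq_zero_iff]
      refine ⟨fun x => ?_⟩
      have h2 := x.2
      have h3 : x.1 = x0 := Subsingleton.elim _ _
      rw [h3, hammingDist_self, Nat.cast_zero] at h2
      linarith
    rw [h1]
    push_cast
    positivity
  · have hn0 : (0:ℝ) < n := by exact_mod_cast hn
    obtain ⟨τ, h1, h2, h3⟩ := moment (α := α) (2 * s / n) (by positivity) n A hAne
    exact ⟨τ, h1, fun x => (mem_filter.1 (h2 x)).2,
      tail n hn _ hq (fun x => hammingDist x (τ x)) _ a s hs hP h3⟩

end Pool.Agent.R378.Blow
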