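import Pool.Agent.R378.Blow

/-!
# The random-turn game with purchases

Before each of the `n` signs is chosen a fair coin decides whether the adversary or the player
chooses it; the player may buy turns of the adversary.  If a set `F` of signings is large, the
player can always reach `F`, and he buys only few turns with high probability.
-/

set_option autoImplicit false

namespace Pool.Agent.R378.Game

open Finset Pool.Agent.R378.Blow

/-- A strategy of the player in the random-turn game: `buy j c ε` tells whether he buys the turn `j`
(if it belongs to the adversary) and `choose j c ε` is the sign which he chooses at his own turns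
and at the turns he has bought. Both depend only on the coins `c_i`, `i ≤ j`, and on the signs
`ε_i`, `i < j`. -/
structure Strategy (n : ℕ) where
  buy : Fin n → (Fin n → Bool) → (Fin n → ℤˣ) → Bool
  choose : Fin n → (Fin n → Bool) → (Fin n → ℤˣ) → ℤˣ
  causal : ∀ j c c' ε ε', (∀ i, i ≤ j → c i = c' i) → (∀ i, i < j → ε i = ε' i) →
    buy j c ε = buy j c' ε' ∧ choose j c ε = choose j c' ε'

/-- `P c` is the signing which results if the coins are `c` (`c j = true` if the turn `j` belongs to
the adversary) and the player uses the strategy `S`; the signs of the adversary depend in an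
arbitrary way on the coins and the signs so far. -/
def IsPlay {n : ℕ} (S : Strategy n) (P : (Fin n → Bool) → Fin n → ℤˣ) : Prop :=
  (∀ c c' j, (∀ i, i ≤ j → c i = c' i) → P c j = P c' j) ∧
  ∀ c j, (c j = false ∨ S.buy j c (P c) = true) → P c j = S.choose j c (P c)

/-- the number of the turns which the player buys -/
def cost {n : ℕ} (S : Strategy n) (P : (Fin n → Bool) → Fin n → ℤˣ) (c : Fin n → Bool) : ℕ :=
  (univ.filter (fun j => c j = true ∧ S.buy j c (P c) = true)).card

theorem lin_aux {v e : ℝ} (hv0 : 0 < v) (hv1 : v ≤ 1) (h : 1 ≤ e * v) :
    1 / v ≤ 1 + e - e * v := by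
  rw [div_le_iff₀ hv0]
  nlinarith

theorem moment_game (l : ℝ) (hl : 0 ≤ l) : ∀ (n : ℕ) (F : (Fin n → ℤˣ) → Prop),
    0 < Nat.card {ε // F ε} → ∃ S : Strategy n, ∀ P, IsPlay S P → (∀ c, F (P c)) ∧
      (∑ c, Real.exp (l * cost S P c)) * (Nat.card {ε // F ε} : ℝ) ≤ (2 ^ 2 * K l) ^ n := by
  classical
  intro n
  induction n with
  | zero =>
    intro F hF
    refine ⟨⟨fun j => j.elim0, fun j => j.elim0, fun j => j.elim0⟩, fun P _ => ⟨fun c => ?_, ?_⟩⟩
    · obtain ⟨⟨ε, hε⟩⟩ := (Nat.card_pos_iff.1 hF).1
      have : P c = ε := Subsingleton.elim _ _
      rw [this]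
      exact hε
    · have h1 : Nat.card {ε : Fin 0 → ℤˣ // F ε} ≤ 1 := by
        rw [Nat.card_eq_fintype_card]
        refine (Fintype.card_subtype_le _).trans ?_
        simp
      have h2 : ((Nat.card {ε : Fin 0 → ℤˣ // F ε} : ℕ) : ℝ) ≤ 1 := by exact_mod_cast h1
      simpa [cost] using h2
  | succ n ih =>
    intro F hF
    set e := Real.exp l with he
    have he1 : 1 ≤ e := Real.one_le_exp hl
    have he0 : 0 < e := by linarith
    set N : ℤˣ → ℕ := fun s => Nat.card {ε : Fin n → ℤˣ // F (Fin.cons s ε)} with hN
    have hsum : Nat.card {ε // F ε} = N 1 + N (-1) := by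
      have h1 : (Nat.card {ε // F ε} : ℝ) = ∑ x : Fin (n + 1) → ℤˣ, if F x then (1:ℝ) else 0 := by
        rw [Nat.card_eq_fintype_card, Fintype.card_subtype, Finset.card_filter]
        push_cast
        rfl
      have h2 : ∀ s, (N s : ℝ) = ∑ y : Fin n → ℤˣ, if F (Fin.cons s y) then (1:ℝ) else 0 := by
        intro s
        rw [hN]
        simp only
        rw [Nat.card_eq_fintype_card, Fintype.card_subtype, Finset.card_filter]
        push_cast
        rfl
      rw [Blow.sum_cons'] at h1
      have hu : (Finset.univ : Finset ℤˣ) = {1, -1} := by decide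
      rw [hu, Finset.sum_pair (by decide), ← h2, ← h2] at h1
      exact_mod_cast h1
    obtain ⟨b, hb⟩ : ∃ b : ℤˣ, N (-b) ≤ N b := by
      rcases le_total (N (-1)) (N 1) with h | h
      · exact ⟨1, h⟩
      · exact ⟨-1, by simpa using h⟩
    have hsum' : Nat.card {ε // F ε} = N b + N (-b) := by
      rcases Int.units_eq_one_or b with h | h
      · rw [h]; exact hsum
      · rw [h, hsum, neg_neg]; omega
    have hNb : 0 < N b := by omega
    have hor : ∀ s : ℤˣ, s = b ∨ s = -b := by
      intro s
      rcases Int.units_eq_one_or s with h | h <;> rcases Int.units_eq_one_or b with h' | h' <;>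
        simp [h, h']
    -- strategies for the sections
    have hSt : ∀ s, ∃ S : Strategy n, 0 < N s → ∀ P, IsPlay S P → (∀ c, F (Fin.cons s (P c))) ∧
        (∑ c, Real.exp (l * cost S P c)) * (N s : ℝ) ≤ (2 ^ 2 * K l) ^ n := by
      intro s
      by_cases hs : 0 < N s
      · obtain ⟨S, hS⟩ := ih (fun ε => F (Fin.cons s ε)) hs
        exact ⟨S, fun _ => hS⟩
      · exact ⟨⟨fun _ _ _ => true, fun _ _ _ => 1, fun _ _ _ _ _ _ _ => ⟨rfl, rfl⟩⟩,
          fun h => absurd h hs⟩
    choose St hSt using hSt
    set T : ℝ := (2 ^ 2 * K l) ^ n with hT
    have hT0 : 0 < T := by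
      have := K_pos l
      positivity
    set M : ℝ := (N b : ℝ) with hM
    have hM0 : 0 < M := by rw [hM]; exact_mod_cast hNb
    set v : ℝ := (N (-b) : ℝ) / M with hv
    have hv0 : 0 ≤ v := by positivity
    have hv1 : v ≤ 1 := by
      rw [hv, div_le_one hM0, hM]
      exact_mod_cast hb
    -- the decision at the first turn
    set d : Bool := decide (e * v < 1) with hd
    refine ⟨⟨fun j c ε => Fin.cases (motive := fun _ => Bool) d
        (fun i => (St (ε 0)).buy i (Fin.tail c) (Fin.tail ε)) j,
      fun j c ε => Fin.cases (motive := fun _ => ℤˣ) b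
        (fun i => (St (ε 0)).choose i (Fin.tail c) (Fin.tail ε)) j, ?_⟩, ?_⟩
    · intro j c c' ε ε' hc hε
      refine Fin.cases ?_ (fun j => ?_) j hc hε
      · intro _ _; exact ⟨rfl, rfl⟩
      · intro hc hε
        simp only [Fin.cases_succ]
        rw [hε 0 (Fin.succ_pos j)]
        exact (St (ε' 0)).causal j _ _ _ _
          (fun i hi => hc i.succ (Fin.succ_le_succ_iff.2 hi))
          (fun i hi => hε i.succ (Fin.succ_lt_succ_iff.2 hi))
    · intro P hP
      obtain ⟨hP1, hP2⟩ := hP
      -- the sign at the first turn
      have hs0 : ∀ (c0 : Bool), ∃ s : ℤˣ, ∀ c' : Fin n → Bool, P (Fin.cons c0 c') 0 = s := by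
        intro c0
        refine ⟨P (Fin.cons c0 fun _ => true) 0, fun c' => hP1 _ _ _ fun i hi => ?_⟩
        have : i = 0 := Fin.le_zero_iff.1 hi
        subst this
        simp
      choose s hs using hs0
      have hplay : ∀ c0 : Bool, IsPlay (St (s c0)) (fun c' => Fin.tail (P (Fin.cons c0 c'))) := by
        intro c0
        refine ⟨fun c c' j h => ?_, fun c j h => ?_⟩
        · refine hP1 _ _ j.succ fun i => ?_
          refine Fin.cases ?_ (fun i => ?_) i
          · intro _; simp
          · intro hi
            simp only [Fin.cons_succ]
            exact h i (Fin.succ_le_succ_iff.1 hi)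
        · have h1 := hP2 (Fin.cons c0 c) j.succ
          simp only [Fin.cons_succ, Fin.cases_succ, Fin.tail_cons, hs c0 c] at h1
          exact h1 h
      have hsb : s false = b := by
        have h1 := hP2 (Fin.cons false fun _ => true) 0 (Or.inl (by simp))
        rw [hs false] at h1
        simpa using h1
      have hst : d = true → s true = b := by
        intro hdt
        have h1 := hP2 (Fin.cons true fun _ => true) 0 (Or.inr (by simpa using hdt))
        rw [hs true] at h1
        simpa using h1
      have hdf : d = false → 1 ≤ e * v := by
        intro h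
        rw [hd, decide_eq_false_iff_not, not_lt] at h
        exact h
      have hdt : d = true → e * v < 1 := by
        intro h
        rw [hd, decide_eq_true_iff] at h
        exact h
      have hvpos : d = false → 0 < v := by
        intro h
        have := hdf h
        by_contra hcon
        have h0 : v = 0 := le_antisymm (not_lt.1 hcon) hv0
        rw [h0] at this
        norm_num at this
      have hNs : ∀ c0, 0 < N (s c0) := by
        intro c0
        cases c0 with
        | false => rw [hsb]; exact hNb
        | true =>
          cases hdc : d with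
          | true => rw [hst hdc]; exact hNb
          | false =>
            rcases hor (s true) with h | h
            · rw [h]; exact hNb
            · rw [h]
              have h1 := hvpos hdc
              rw [hv] at h1
              have h2 : (0:ℝ) < N (-b) := by
                by_contra hcon
                have h3 : (N (-b) : ℝ) = 0 := le_antisymm (not_lt.1 hcon) (by positivity)
                rw [h3] at h1
                simp at h1
              exact_mod_cast h2
      constructor
      · intro c
        have h1 := (hSt (s (c 0)) (hNs _) _ (hplay (c 0))).1 (Fin.tail c)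
        simp only [Fin.cons_self_tail] at h1
        have h2 := hs (c 0) (Fin.tail c)
        rw [Fin.cons_self_tail] at h2
        rw [← h2, Fin.cons_self_tail] at h1
        exact h1
      · -- the exponential moment
        set S0 : Strategy (n + 1) := ⟨fun j c ε => Fin.cases (motive := fun _ => Bool) d
          (fun i => (St (ε 0)).buy i (Fin.tail c) (Fin.tail ε)) j,
          fun j c ε => Fin.cases (motive := fun _ => ℤˣ) b
          (fun i => (St (ε 0)).choose i (Fin.tail c) (Fin.tail ε)) j, _⟩ with hS0
        have hcost : ∀ (c0 : Bool) (c' : Fin n → Bool), cost S0 P (Fin.cons c0 c') =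
            (if c0 = true ∧ d = true then 1 else 0) +
              cost (St (s c0)) (fun c' => Fin.tail (P (Fin.cons c0 c'))) c' := by
          intro c0 c'
          unfold cost
          rw [Finset.card_filter, Finset.card_filter, Fin.sum_univ_succ]
          congr 1
          refine Finset.sum_congr rfl fun i _ => ?_
          simp only [hS0, Fin.cons_succ, Fin.cases_succ, Fin.tail_cons, hs c0 c']
        have hle : ∀ c0, ∑ c', Real.exp (l * cost (St (s c0))
            (fun c' => Fin.tail (P (Fin.cons c0 c'))) c') ≤ T / N (s c0) := by
          intro c0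
          have h1 := (hSt (s c0) (hNs _) _ (hplay c0)).2
          have h2 : (0:ℝ) < N (s c0) := by exact_mod_cast hNs c0
          rw [le_div_iff₀ h2]
          exact h1
        have hF0 : ∑ c' : Fin n → Bool, Real.exp (l * cost S0 P (Fin.cons false c')) ≤ T / M := by
          have h1 := hle false
          rw [hsb, ← hM] at h1
          refine le_trans (le_of_eq ?_) h1
          refine Finset.sum_congr rfl fun c' _ => ?_
          rw [hcost, hsb]
          simp
        have hT1 : ∑ c' : Fin n → Bool, Real.exp (l * cost S0 P (Fin.cons true c')) ≤
            T / M * (1 + e - e * v) := by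
          cases hdc : d with
          | true =>
            have h1 := hle true
            rw [hst hdc, ← hM] at h1
            have h2 : ∑ c' : Fin n → Bool, Real.exp (l * cost S0 P (Fin.cons true c')) =
                e * ∑ c', Real.exp (l * cost (St (s true))
                  (fun c' => Fin.tail (P (Fin.cons true c'))) c') := by
              rw [Finset.mul_sum]
              refine Finset.sum_congr rfl fun c' _ => ?_
              rw [hcost, if_pos ⟨rfl, hdc⟩, he, ← Real.exp_add]
              congr 1
              push_cast
              ring
            rw [h2, hst hdc]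
            have h3 := hdt hdc
            calc e * _ ≤ e * (T / M) := mul_le_mul_of_nonneg_left h1 he0.le
              _ = T / M * e := by ring
              _ ≤ T / M * (1 + e - e * v) := by
                  apply mul_le_mul_of_nonneg_left _ (by positivity)
                  linarith
          | false =>
            have h1 := hle true
            have h2 : ∑ c' : Fin n → Bool, Real.exp (l * cost S0 P (Fin.cons true c')) =
                ∑ c', Real.exp (l * cost (St (s true))
                  (fun c' => Fin.tail (P (Fin.cons true c'))) c') := by
              refine Finset.sum_congr rfl fun c' _ => ?_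
              rw [hcost, if_neg (by rintro ⟨_, h⟩; rw [hdc] at h; exact absurd h (by decide))]
              simp
            rw [h2]
            refine h1.trans ?_
            have hvp := hvpos hdc
            have h3 := lin_aux hvp hv1 (hdf hdc)
            have h4 : T / (N (s true) : ℝ) ≤ T / M * (1 / v) := by
              have h5 : M * v ≤ N (s true) := by
                have h6 : M * v = N (-b) := by
                  rw [hv]; field_simp
                rcases hor (s true) with h | h
                · rw [h, ← hM]; nlinarith
                · rw [h, h6]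
              have h7 : T / M * (1 / v) = T / (M * v) := by
                field_simp
              rw [h7]
              exact div_le_div_of_nonneg_left hT0.le (by positivity) h5
            exact h4.trans (mul_le_mul_of_nonneg_left h3 (by positivity))
        have hcard : (Nat.card {ε // F ε} : ℝ) = M * (1 + v) := by
          rw [hsum']
          push_cast
          rw [← hM, hv]
          field_simp
        have h4 : K l = (1 + e) ^ 2 / (4 * e) := rfl
        rw [Blow.sum_cons', Fintype.sum_bool, hcard]
        calc _ ≤ (T / M * (1 + e - e * v) + T / M) * (M * (1 + v)) :=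
              mul_le_mul_of_nonneg_right (add_le_add hT1 hF0) (by positivity)
          _ = T * ((1 + v) * (2 + e - e * v)) := by
              field_simp
              ring
          _ ≤ T * (2 ^ 2 * K l) := by
              apply mul_le_mul_of_nonneg_left _ hT0.le
              rw [h4, show (2:ℝ) ^ 2 * ((1 + e) ^ 2 / (4 * e)) = (1 + e) ^ 2 / e by
                field_simp; norm_num, le_div_iff₀ he0]
              nlinarith [sq_nonneg (1 - e * v)]
          _ = (2 ^ 2 * K l) ^ (n + 1) := by
              rw [hT]
              exact (pow_succ _ _).symm

/-- **The random-turn game.** -/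
theorem few_costly (n : ℕ) (F : (Fin n → ℤˣ) → Prop) (a s : ℝ) (hs : 0 ≤ s)
    (hF : 2 ^ n * Real.exp (-a) ≤ (Nat.card {ε // F ε} : ℝ)) :
    ∃ S : Strategy n, ∀ P, IsPlay S P → (∀ c, F (P c)) ∧
      (Nat.card {c : Fin n → Bool // s < cost S P c} : ℝ) ≤ 2 ^ n * Real.exp (a - s ^ 2 / n) := by
  classical
  have hpos : (0:ℝ) < Nat.card {ε // F ε} := lt_of_lt_of_le (by positivity) hF
  have hpos' : 0 < Nat.card {ε // F ε} := by exact_mod_cast hpos
  rcases Nat.eq_zero_or_pos n with rfl | hn
  · obtain ⟨S, hS⟩ := moment_game 0 le_rfl 0 F hpos'
    refine ⟨S, fun P hP => ⟨(hS P hP).1, ?_⟩⟩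
    have h1 : Nat.card {c : Fin 0 → Bool // s < cost S P c} = 0 := by
      rw [Nat.card_eq_fintype_card, Fintype.card_eq_zero_iff]
      refine ⟨fun x => ?_⟩
      have h2 := x.2
      have h3 : cost S P x.1 = 0 := by
        unfold cost
        rw [Finset.card_eq_zero]
        exact Subsingleton.elim _ _
      rw [h3, Nat.cast_zero] at h2
      linarith
    rw [h1]
    push_cast
    positivity
  · have hn0 : (0:ℝ) < n := by exact_mod_cast hn
    obtain ⟨S, hS⟩ := moment_game (2 * s / n) (by positivity) n F hpos'
    refine ⟨S, fun P hP => ⟨(hS P hP).1, ?_⟩⟩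
    exact tail n hn 2 (by norm_num) (fun c => cost S P c) _ a s hs hF (hS P hP).2

/-- The play in which the adversary always chooses the sign `1`. -/
theorem exists_play {n : ℕ} (S : Strategy n) : ∃ P, IsPlay S P ∧
    ∀ c j, c j = true → S.buy j c (P c) = false → P c j = 1 := by
  classical
  have h : ∀ (c : Fin n → Bool) (m : ℕ), m ≤ n → ∃ ε : Fin n → ℤˣ, ∀ j : Fin n, (j : ℕ) < m →
      ε j = if c j = false ∨ S.buy j c ε = true then S.choose j c ε else 1 := by
    intro c m
    induction m with
    | zero => intro _; exact ⟨fun _ => 1, fun j hj => absurd hj (Nat.not_lt_zero _)⟩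
    | succ m ih =>
      intro hm
      obtain ⟨ε, hε⟩ := ih (by omega)
      have hmn : m < n := by omega
      set w : ℤˣ := if c ⟨m, hmn⟩ = false ∨ S.buy ⟨m, hmn⟩ c ε = true then S.choose ⟨m, hmn⟩ c ε
        else 1 with hw
      refine ⟨Function.update ε ⟨m, hmn⟩ w, fun j hj => ?_⟩
      have hloc : S.buy j c (Function.update ε ⟨m, hmn⟩ w) = S.buy j c ε ∧
          S.choose j c (Function.update ε ⟨m, hmn⟩ w) = S.choose j c ε := by
        apply S.causal
        · intro i _; rfl
        · intro i hi
          rw [Function.update_of_ne]
          intro h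
          rw [h] at hi
          have : m < (j : ℕ) := hi
          omega
      rw [hloc.1, hloc.2]
      by_cases hjm : j = ⟨m, hmn⟩
      · subst hjm
        rw [Function.update_self]
      · have hj2 : (j : ℕ) < m := by
          have : (j : ℕ) ≠ m := fun h => hjm (Fin.ext h)
          omega
        rw [Function.update_of_ne hjm]
        exact hε j hj2
  choose P hP using fun c => h c n le_rfl
  have hP' : ∀ c j, P c j = if c j = false ∨ S.buy j c (P c) = true then S.choose j c (P c)
      else 1 := fun c j => hP c j j.isLt
  refine ⟨P, ⟨?_, ?_⟩, ?_⟩
  · intro c c' j hcc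
    have hind : ∀ m : ℕ, ∀ i : Fin n, (i : ℕ) = m → i ≤ j → P c i = P c' i := by
      intro m
      induction m using Nat.strong_induction_on with
      | _ m ih =>
        intro i him hij
        have h1 := S.causal i c c' (P c) (P c') (fun k hk => hcc k (hk.trans hij)) (fun k hk => by
          have hk' : (k : ℕ) < m := by rw [← him]; exact hk
          exact ih k hk' k rfl (hk.le.trans hij))
        rw [hP' c i, hP' c' i, h1.1, h1.2, hcc i hij]
    exact hind j j rfl le_rfl
  · intro c j h1
    rw [hP' c j, if_pos h1]
  · intro c j h1 h2
    rw [hP' c j, if_neg]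
    rintro (h3 | h3)
    · rw [h1] at h3; exact absurd h3 (by decide)
    · rw [h2] at h3; exact absurd h3 (by decide)

end Pool.Agent.R378.Game
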