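import Pool.Agent.R378.Halo
import Pool.Agent.H21R2.HCrit

/-!
# Halo products: the hyperlinear case
-/

set_option autoImplicit false

namespace Pool.Agent.R378.Halo

open Pool.Agent.H21R2 Pool.Agent.R654.Halo Matrix
open scoped Pointwise

universe u

section Data

variable (H : GraphHalo.{u}) {G : Type u} [Group G] (S : Set G)

open Classical in
/-- the combinatorial data used for halo products -/
theorem halo_data (hG : IsSofic G) (A : Finset (HaloProduct H S))
    (hA : (1 : HaloProduct H S) ∈ A) (δ : ℝ) (hδ : 0 < δ) :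
    ∃ n : ℕ, 1 ≤ n ∧ ∃ (σ : G → Equiv.Perm (Fin n)) (Δ : SimpleGraph (ULift.{u} (Fin n)))
      (e : Fin n → HaloProduct H S → H.obj Δ) (bad : Finset (Fin n)),
      (bad.card : ℝ) ≤ δ * n ∧ σ 1 = 1 ∧ (∀ x, e x 1 = 1) ∧
      (∀ a ∈ A, ∀ b ∈ A, a * b ∈ A → ∀ x, x ∉ bad → σ b.right x ∉ bad →
        σ a.right (σ b.right x) ∉ bad →
        σ (a * b).right x = σ a.right (σ b.right x) ∧
        e (σ a.right (σ b.right x)) (a * b) =
          e (σ a.right (σ b.right x)) a * e (σ b.right x) b) ∧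
      (∀ a ∈ A, a.right ≠ 1 → ∀ x, x ∉ bad → σ a.right x ≠ x) ∧
      (∀ a ∈ A, a.right = 1 → a ≠ 1 → ∀ x, x ∉ bad → e x a ≠ 1) := by
  obtain ⟨F, rep, hrep1, hrep⟩ := exists_rep H S A hA
  set R : Finset G := A.image fun a => a.right with hR
  set C0 : Finset G := insert 1 (F ∪ R ∪ R * F) with hC0
  set C : Finset G := C0 ∪ C0⁻¹ with hC
  have h1 : (1 : G) ∈ C := Finset.mem_union_left _ (Finset.mem_insert_self _ _)
  have hinv : ∀ c ∈ C, c⁻¹ ∈ C := by
    intro c hc
    rcases Finset.mem_union.mp hc with h | h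
    · exact Finset.mem_union_right _ (Finset.inv_mem_inv h)
    · exact Finset.mem_union_left _ (by simpa using Finset.inv_mem_inv h)
  have hFC : F ⊆ C := fun f hf => Finset.mem_union_left _ (Finset.mem_insert_of_mem
    (Finset.mem_union_left _ (Finset.mem_union_left _ hf)))
  have hgC : ∀ a ∈ A, a.right ∈ C := fun a ha => Finset.mem_union_left _
    (Finset.mem_insert_of_mem (Finset.mem_union_left _ (Finset.mem_union_right _
      (Finset.mem_image_of_mem _ ha))))
  have hgF : ∀ a ∈ A, ∀ f ∈ F, a.right * f ∈ C := fun a ha f hf => Finset.mem_union_left _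
    (Finset.mem_insert_of_mem (Finset.mem_union_right _
      (Finset.mul_mem_mul (Finset.mem_image_of_mem _ ha) hf)))
  have hCE : C ⊆ C ^ 4 := by
    simpa using Finset.pow_subset_pow_right h1 (show 1 ≤ 4 by norm_num)
  set N : ℝ := ((C ^ 4).card : ℝ) * (C ^ 4).card + (C ^ 4).card with hN
  have hN0 : 0 ≤ N := by positivity
  obtain ⟨n, hn, σ, hσ1, hσm, hσd⟩ := hG (C ^ 8) (Finset.one_mem_pow h1) (δ / (N + 1))
    (by positivity)
  have hE8 : C ^ 4 ⊆ C ^ 8 := Finset.pow_subset_pow_right h1 (by norm_num)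
  have hE88 : ∀ u ∈ C ^ 4, ∀ v ∈ C ^ 4, u * v ∈ C ^ 8 := by
    intro u hu v hv
    have := Finset.mul_mem_mul hu hv
    rwa [← pow_add] at this
  have hbad := bad_card hn σ (C ^ 4)
    (fun u hu v hv => (hσm u (hE8 hu) v (hE8 hv) (hE88 u hu v hv)).le)
    (fun u hu hu1 => hσd u (hE8 hu) hu1)
  have hn' : (0 : ℝ) < n := by exact_mod_cast hn
  have hgood : ∀ x, x ∉ (Finset.univ.filter fun x => ¬ GoodAt σ (C ^ 4) x) →
      GoodAt σ (C ^ 4) x := by
    intro x hx
    by_contra h
    exact hx (Finset.mem_filter.mpr ⟨Finset.mem_univ _, h⟩)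
  refine ⟨n, hn, σ, gr.{u} S σ (C ^ 2), fun x a => ev H S h1 hinv hσ1 F hFC x (rep a),
    Finset.univ.filter fun x => ¬ GoodAt σ (C ^ 4) x, ?_, hσ1, ?_, ?_, ?_, ?_⟩
  · refine hbad.trans ?_
    have : N * (δ / (N + 1) * n) = (N / (N + 1)) * (δ * n) := by
      field_simp
    rw [this]
    have hle : N / (N + 1) ≤ 1 := by
      rw [div_le_one (by positivity)]
      linarith
    have hpos : 0 ≤ δ * n := by positivity
    nlinarith
  · intro x
    show ev H S h1 hinv hσ1 F hFC x (rep 1) = 1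
    rw [hrep1]
    exact ev_one H S h1 hinv hσ1 F hFC _
  · intro a ha b hb hab x c1 c2 c3
    have hmul : H.map (SimpleGraph.Embedding.induce (F : Set G)) (rep (a * b)) =
        H.map (SimpleGraph.Embedding.induce (F : Set G)) (rep a) *
          H.map (leftMul S a.right)
            (H.map (SimpleGraph.Embedding.induce (F : Set G)) (rep b)) := by
      rw [hrep _ hab, hrep _ ha, hrep _ hb, SemidirectProduct.mul_left]
      rfl
    have g1 := hgood _ c1
    have g2 := hgood _ c2
    have g3 := hgood _ c3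
    exact ⟨g1.mul a.right (hCE (hgC a ha)) b.right (hCE (hgC b hb)),
      ev_mul H S h1 hinv hσ1 F hFC a.right (hgC a ha) (hgF a ha) hmul g2 g3⟩
  · intro a ha hr x hx
    exact (hgood _ hx).move _ (hCE (hgC a ha)) hr
  · intro a ha hr ha1 x hx
    refine ev_ne_one H S h1 hinv hσ1 F hFC (hgood x hx) ?_
    intro h0
    apply ha1
    have hl : a.left = 1 := by rw [← hrep a ha, h0, map_one]
    exact SemidirectProduct.ext hl hr

end Data

section Blocks

variable {n m : ℕ}

/-- block permutation matrices -/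
noncomputable def blk (τ : Equiv.Perm (Fin n)) (θ : Fin n → unitaryGroup (Fin m) ℂ) :
    Matrix (Fin n × Fin m) (Fin n × Fin m) ℂ :=
  fun p q => if p.1 = τ q.1 then (θ p.1).1 p.2 q.2 else 0

theorem blk_star_mul (τ : Equiv.Perm (Fin n)) (θ : Fin n → unitaryGroup (Fin m) ℂ) :
    star (blk τ θ) * blk τ θ = 1 := by
  ext q q'
  rw [mul_apply, Fintype.sum_prod_type]
  have h1 : ∀ y : Fin n, ∑ v : Fin m, (star (blk τ θ)) q (y, v) * (blk τ θ) (y, v) q' =
      if y = τ q.1 then (if y = τ q'.1 then ∑ v : Fin m, star ((θ y).1 v q.2) * (θ y).1 v q'.2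
        else 0) else 0 := by
    intro y
    by_cases hy : y = τ q.1
    · by_cases hy' : y = τ q'.1
      · rw [if_pos hy, if_pos hy']
        refine Finset.sum_congr rfl fun v _ => ?_
        rw [star_apply, blk, blk, if_pos hy, if_pos hy']
      · rw [if_pos hy, if_neg hy']
        refine Finset.sum_eq_zero fun v _ => ?_
        rw [blk, if_neg hy', mul_zero]
    · rw [if_neg hy]
      refine Finset.sum_eq_zero fun v _ => ?_
      rw [star_apply, blk, if_neg hy, star_zero, zero_mul]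
  simp_rw [h1]
  rw [Finset.sum_ite_eq' Finset.univ (τ q.1), if_pos (Finset.mem_univ _)]
  by_cases hq : q.1 = q'.1
  · rw [if_pos (by rw [hq])]
    have h2 : star (θ (τ q.1)).1 * (θ (τ q.1)).1 = 1 := UnitaryGroup.star_mul_self _
    have h3 := congrFun (congrFun h2 q.2) q'.2
    rw [mul_apply] at h3
    rw [show (∑ v : Fin m, star ((θ (τ q.1)).1 v q.2) * (θ (τ q.1)).1 v q'.2)
      = ∑ v : Fin m, (star (θ (τ q.1)).1) q.2 v * (θ (τ q.1)).1 v q'.2 from
        Finset.sum_congr rfl fun v _ => by rw [star_apply], h3]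
    by_cases hq2 : q.2 = q'.2
    · rw [hq2, one_apply_eq, show q = q' from Prod.ext hq hq2, one_apply_eq]
    · rw [one_apply_ne hq2, one_apply_ne]
      intro h
      exact hq2 (congrArg Prod.snd h)
  · rw [if_neg (fun h => hq (τ.injective h)), one_apply_ne]
    intro h
    exact hq (congrArg Prod.fst h)

/-- the unitary of a block permutation -/
noncomputable def blkU (τ : Equiv.Perm (Fin n)) (θ : Fin n → unitaryGroup (Fin m) ℂ) :
    unitaryGroup (Fin n × Fin m) ℂ :=
  ⟨blk τ θ, mem_unitaryGroup_iff'.2 (blk_star_mul τ θ)⟩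

theorem blk_one : blk (1 : Equiv.Perm (Fin n)) (fun _ => (1 : unitaryGroup (Fin m) ℂ)) = 1 := by
  ext p q
  rw [blk]
  by_cases h : p.1 = q.1
  · rw [if_pos (by simpa using h)]
    by_cases h2 : p.2 = q.2
    · rw [show p = q from Prod.ext h h2, one_apply_eq]
      exact one_apply_eq _
    · rw [one_apply_ne (fun h' => h2 (congrArg Prod.snd h'))]
      exact one_apply_ne h2
  · rw [if_neg (by simpa using h), one_apply_ne (fun h' => h (congrArg Prod.fst h'))]

theorem blk_mul (τ τ' : Equiv.Perm (Fin n)) (θ θ' : Fin n → unitaryGroup (Fin m) ℂ) :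
    blk τ θ * blk τ' θ' = blk (τ * τ') (fun y => θ y * θ' (τ⁻¹ y)) := by
  ext p q
  rw [mul_apply, Fintype.sum_prod_type]
  have h1 : ∀ z : Fin n, ∑ t : Fin m, (blk τ θ) p (z, t) * (blk τ' θ') (z, t) q =
      if z = τ' q.1 then (if p.1 = τ z then ∑ t : Fin m, (θ p.1).1 p.2 t * (θ' z).1 t q.2
        else 0) else 0 := by
    intro z
    by_cases hz : z = τ' q.1
    · by_cases hz' : p.1 = τ z
      · rw [if_pos hz, if_pos hz']
        refine Finset.sum_congr rfl fun v _ => ?_
        rw [blk, blk, if_pos hz, if_pos hz']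
      · rw [if_pos hz, if_neg hz']
        refine Finset.sum_eq_zero fun v _ => ?_
        rw [blk, if_neg hz', zero_mul]
    · rw [if_neg hz]
      refine Finset.sum_eq_zero fun v _ => ?_
      rw [blk, blk, if_neg hz, mul_zero]
  simp_rw [h1]
  rw [Finset.sum_ite_eq' Finset.univ (τ' q.1), if_pos (Finset.mem_univ _), blk]
  by_cases hp : p.1 = τ (τ' q.1)
  · rw [if_pos hp, if_pos (by simpa using hp)]
    show _ = ((θ p.1).1 * (θ' (τ⁻¹ p.1)).1) p.2 q.2
    rw [mul_apply, hp]
    simp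
  · rw [if_neg hp, if_neg (by simpa using hp)]

/-- the squared norm of the columns over `x` -/
noncomputable def cb (M : Matrix (Fin n × Fin m) (Fin n × Fin m) ℂ) (x : Fin n) : ℝ :=
  ∑ w : Fin m, ∑ y : Fin n, ∑ v : Fin m, ‖M (y, v) (x, w)‖ ^ 2

theorem fro2_eq_cb (M : Matrix (Fin n × Fin m) (Fin n × Fin m) ℂ) :
    fro2 M = ∑ x, cb M x := by
  rw [fro2, Finset.sum_comm, Fintype.sum_prod_type]
  refine Finset.sum_congr rfl fun x _ => Finset.sum_congr rfl fun w _ => ?_
  rw [Fintype.sum_prod_type]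

theorem fro2_unitary (U : unitaryGroup (Fin m) ℂ) : fro2 U.1 = m := by
  have := fro2_unitary_mul U (1 : Matrix (Fin m) (Fin m) ℂ)
  rw [mul_one] at this
  rw [this]
  have h : (fro2 (1 : Matrix (Fin m) (Fin m) ℂ) : ℂ) = (m : ℂ) := by
    rw [fro2_eq_trace]
    simp
  exact_mod_cast h

theorem cb_eq {τ τ' : Equiv.Perm (Fin n)} {θ θ' : Fin n → unitaryGroup (Fin m) ℂ} {x : Fin n}
    (h : τ x = τ' x) :
    cb (blk τ θ - blk τ' θ') x = fro2 ((θ (τ x)).1 - (θ' (τ x)).1) := by
  rw [cb, fro2, Finset.sum_comm]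
  have h1 : ∀ y, ∑ w : Fin m, ∑ v : Fin m, ‖(blk τ θ - blk τ' θ') (y, v) (x, w)‖ ^ 2 =
      if y = τ x then ∑ w : Fin m, ∑ v : Fin m, ‖((θ y).1 - (θ' y).1) v w‖ ^ 2 else 0 := by
    intro y
    by_cases hy : y = τ x
    · rw [if_pos hy]
      refine Finset.sum_congr rfl fun w _ => Finset.sum_congr rfl fun v _ => ?_
      rw [Matrix.sub_apply, Matrix.sub_apply, blk, blk, if_pos hy, if_pos (hy.trans h)]
    · rw [if_neg hy]
      refine Finset.sum_eq_zero fun w _ => Finset.sum_eq_zero fun v _ => ?_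
      rw [Matrix.sub_apply, blk, blk, if_neg hy, if_neg (fun h' => hy (h'.trans h.symm))]
      simp
  simp_rw [h1]
  rw [Finset.sum_ite_eq' Finset.univ (τ x), if_pos (Finset.mem_univ _), Finset.sum_comm]

theorem cb_ne {τ τ' : Equiv.Perm (Fin n)} {θ θ' : Fin n → unitaryGroup (Fin m) ℂ} {x : Fin n}
    (h : τ x ≠ τ' x) :
    cb (blk τ θ - blk τ' θ') x = 2 * m := by
  rw [cb, Finset.sum_comm]
  have h1 : ∀ y, ∑ w : Fin m, ∑ v : Fin m, ‖(blk τ θ - blk τ' θ') (y, v) (x, w)‖ ^ 2 =
      (if y = τ x then (m : ℝ) else 0) + (if y = τ' x then (m : ℝ) else 0) := by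
    intro y
    by_cases hy : y = τ x
    · have hy' : y ≠ τ' x := fun h' => h (hy.symm.trans h')
      rw [if_pos hy, if_neg hy', add_zero, ← fro2_unitary (θ y), fro2, Finset.sum_comm]
      refine Finset.sum_congr rfl fun w _ => Finset.sum_congr rfl fun v _ => ?_
      rw [Matrix.sub_apply, blk, blk, if_pos hy, if_neg hy', sub_zero]
    · by_cases hy' : y = τ' x
      · rw [if_neg hy, if_pos hy', zero_add, ← fro2_unitary (θ' y), fro2, Finset.sum_comm]
        refine Finset.sum_congr rfl fun w _ => Finset.sum_congr rfl fun v _ => ?_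
        rw [Matrix.sub_apply, blk, blk, if_neg hy, if_pos hy', zero_sub, norm_neg]
      · rw [if_neg hy, if_neg hy', add_zero]
        refine Finset.sum_eq_zero fun w _ => Finset.sum_eq_zero fun v _ => ?_
        rw [Matrix.sub_apply, blk, blk, if_neg hy, if_neg hy']
        simp
  simp_rw [h1]
  rw [Finset.sum_add_distrib, Finset.sum_ite_eq' Finset.univ (τ x),
    Finset.sum_ite_eq' Finset.univ (τ' x), if_pos (Finset.mem_univ _),
    if_pos (Finset.mem_univ _)]
  ring

theorem fro2_sub_unitary_le (U V : unitaryGroup (Fin m) ℂ) : fro2 (U.1 - V.1) ≤ 4 * m := by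
  have := fro2_add_le_two U.1 (-V.1)
  rw [fro2_neg, fro2_unitary, fro2_unitary, ← sub_eq_add_neg] at this
  linarith

theorem cb_le (τ τ' : Equiv.Perm (Fin n)) (θ θ' : Fin n → unitaryGroup (Fin m) ℂ) (x : Fin n) :
    cb (blk τ θ - blk τ' θ') x ≤ 4 * m := by
  by_cases h : τ x = τ' x
  · rw [cb_eq h]
    exact fro2_sub_unitary_le _ _
  · rw [cb_ne h]
    have : (0 : ℝ) ≤ m := Nat.cast_nonneg _
    linarith

end Blocks

section Transport

variable {X Y : Type*} [Fintype X] [DecidableEq X] [Fintype Y] [DecidableEq Y]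

/-- reindexing a unitary matrix -/
def trU (e : X ≃ Y) (U : unitaryGroup X ℂ) : unitaryGroup Y ℂ :=
  ⟨U.1.submatrix e.symm e.symm, by
    rw [mem_unitaryGroup_iff']
    have h : star U.1 * U.1 = 1 := UnitaryGroup.star_mul_self U
    have h2 : star (U.1.submatrix e.symm e.symm) = (star U.1).submatrix e.symm e.symm := rfl
    rw [h2, submatrix_mul_equiv, h, submatrix_one_equiv]⟩

omit [DecidableEq X] [DecidableEq Y] in
theorem fro2_submatrix_equiv (e : X ≃ Y) (M : Matrix X X ℂ) :
    fro2 (M.submatrix e.symm e.symm) = fro2 M := by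
  rw [fro2, fro2, ← Equiv.sum_comp e]
  refine Finset.sum_congr rfl fun i _ => ?_
  rw [← Equiv.sum_comp e]
  refine Finset.sum_congr rfl fun j _ => ?_
  rw [submatrix_apply, Equiv.symm_apply_apply, Equiv.symm_apply_apply]

theorem hyperlinear_of_fintype {P : Type*} [Group P]
    (h : ∀ A : Finset P, (1 : P) ∈ A → ∀ g ∈ A, g ≠ 1 → ∀ ε : ℝ, 0 < ε →
      ∃ (n m : ℕ) (φ : P → unitaryGroup (Fin n × Fin m) ℂ),
        φ 1 = 1 ∧ 0 < fro2 ((φ g).1 - 1) ∧
        ∀ a ∈ A, ∀ b ∈ A, a * b ∈ A →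
          fro2 ((φ (a * b)).1 - (φ a).1 * (φ b).1) ≤ ε * fro2 ((φ g).1 - 1)) :
    IsHyperlinear P := by
  apply hyperlinear_of_criterion
  intro A hA g hg hg1 ε hε
  obtain ⟨n, m, φ, p1, p2, p3⟩ := h A hA g hg hg1 (ε ^ 2) (by positivity)
  set e : Fin n × Fin m ≃ Fin (n * m) := finProdFinEquiv with he
  have hg' : fro2 ((trU e (φ g)).1 - 1) = fro2 ((φ g).1 - 1) := by
    rw [← fro2_submatrix_equiv e ((φ g).1 - 1)]
    congr 1
    rw [show ((φ g).1 - 1).submatrix e.symm e.symm =
      (φ g).1.submatrix e.symm e.symm - (1 : Matrix _ _ ℂ).submatrix e.symm e.symm from rfl,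
      submatrix_one_equiv]
    rfl
  refine ⟨n * m, fun a => trU e (φ a), 1, isHermitian_one, ?_, ?_, ?_, ?_⟩
  · apply Subtype.ext
    show (φ 1).1.submatrix e.symm e.symm = 1
    rw [p1]
    exact submatrix_one_equiv _
  · rw [mul_one, hs_eq, hg']
    exact Real.sqrt_pos.2 p2
  · intro a _
    rw [mul_one, one_mul, sub_self, hs_eq, hs_eq]
    have : fro2 (0 : Matrix (Fin (n * m)) (Fin (n * m)) ℂ) = 0 := by simp [fro2]
    rw [this, Real.sqrt_zero]
    positivity
  · intro a ha b hb hab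
    rw [mul_one, mul_one, hs_eq, hs_eq, hg']
    have h1 : fro2 ((trU e (φ (a * b))).1 - (trU e (φ a)).1 * (trU e (φ b)).1) =
        fro2 ((φ (a * b)).1 - (φ a).1 * (φ b).1) := by
      rw [← fro2_submatrix_equiv e ((φ (a * b)).1 - (φ a).1 * (φ b).1)]
      congr 1
      show (φ (a * b)).1.submatrix e.symm e.symm -
        (φ a).1.submatrix e.symm e.symm * (φ b).1.submatrix e.symm e.symm = _
      rw [submatrix_mul_equiv]
      rfl
    rw [h1]
    refine (Real.sqrt_le_sqrt (p3 a ha b hb hab)).trans ?_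
    rw [Real.sqrt_mul (by positivity), Real.sqrt_sq hε.le]

end Transport

section MainH

variable (H : GraphHalo.{u}) {G : Type u} [Group G] (S : Set G)

theorem fro2_le_of_hsNorm {m : ℕ} (hm : 1 ≤ m) (X : Matrix (Fin m) (Fin m) ℂ) {ε : ℝ}
    (h : hsNorm X < ε) : fro2 X ≤ ε ^ 2 * m := by
  have hm' : (0 : ℝ) < m := by exact_mod_cast hm
  unfold hsNorm at h
  rw [← fro2_eq_trace, Complex.ofReal_re] at h
  have h0 : 0 ≤ fro2 X / m := div_nonneg (fro2_nonneg _) hm'.le
  have h1 : fro2 X / m < ε ^ 2 := by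
    rw [← Real.sqrt_lt_sqrt_iff h0, Real.sqrt_sq ((Real.sqrt_nonneg _).trans h.le)]
    exact h
  rw [div_lt_iff₀ hm'] at h1
  exact h1.le

theorem le_fro2_of_hsNorm {m : ℕ} (hm : 1 ≤ m) (X : Matrix (Fin m) (Fin m) ℂ)
    (h : 1 ≤ hsNorm X) : (m : ℝ) ≤ fro2 X := by
  have hm' : (0 : ℝ) < m := by exact_mod_cast hm
  unfold hsNorm at h
  rw [← fro2_eq_trace, Complex.ofReal_re, Real.one_le_sqrt, one_le_div hm'] at h
  exact h

open Classical in
theorem sum_ite_perm {n : ℕ} (τ : Equiv.Perm (Fin n)) (bad : Finset (Fin n)) (c : ℝ) :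
    ∑ x, (if τ x ∈ bad then c else 0) = bad.card * c := by
  rw [Equiv.sum_comp τ (fun y => if y ∈ bad then c else 0), Finset.sum_ite_mem,
    Finset.univ_inter, Finset.sum_const, nsmul_eq_mul]

open Classical in
theorem hyperlinear_halo
    (hH : ∀ (n : ℕ) (Δ : SimpleGraph (ULift.{u} (Fin n))), IsHyperlinear (H.obj Δ))
    (hG : IsSofic G) : IsHyperlinear (HaloProduct H S) := by
  apply hyperlinear_of_fintype
  intro A hA g hg hg1 ε hε
  obtain ⟨n, hn, σ, Δ, e, bad, hbad, hσ1, he1, hmul, hmove, hne⟩ :=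
    halo_data H S hG A hA (min (ε / 48) (1 / 2)) (by positivity)
  have hn' : (0 : ℝ) < n := by exact_mod_cast hn
  have hbad1 : (bad.card : ℝ) ≤ ε / 48 * n :=
    hbad.trans (mul_le_mul_of_nonneg_right (min_le_left _ _) hn'.le)
  have hbad2 : (bad.card : ℝ) ≤ 1 / 2 * n :=
    hbad.trans (mul_le_mul_of_nonneg_right (min_le_right _ _) hn'.le)
  set M : Finset (H.obj Δ) := insert 1 ((Finset.univ ×ˢ A).image
    fun p : Fin n × HaloProduct H S => e p.1 p.2) with hM
  have h1M : (1 : H.obj Δ) ∈ M := Finset.mem_insert_self _ _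
  have heM : ∀ x, ∀ a ∈ A, e x a ∈ M := fun x a ha => Finset.mem_insert_of_mem
    (Finset.mem_image.mpr ⟨(x, a), Finset.mem_product.mpr ⟨Finset.mem_univ _, ha⟩, rfl⟩)
  have hMM : ∀ k ∈ M, k ∈ M * M := fun k hk => by
    simpa using Finset.mul_mem_mul hk h1M
  obtain ⟨m, hm, θ, hθ1, hθm, hθd⟩ := hH n Δ (M * M) (hMM 1 h1M) (Real.sqrt ε / 2)
    (by positivity)
  have hm' : (0 : ℝ) < m := by exact_mod_cast hm
  have hlow : (n : ℝ) * m / 2 ≤ fro2 (blk (σ g.right) (fun y => θ (e y g)) -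
      blk (1 : Equiv.Perm (Fin n)) (fun _ => (1 : unitaryGroup (Fin m) ℂ))) := by
    rw [fro2_eq_cb]
    have h1 : ∀ x, (m : ℝ) - (if (1 : Equiv.Perm (Fin n)) x ∈ bad then (m : ℝ) else 0) ≤
        cb (blk (σ g.right) (fun y => θ (e y g)) -
          blk (1 : Equiv.Perm (Fin n)) (fun _ => (1 : unitaryGroup (Fin m) ℂ))) x := by
      intro x
      by_cases hx : x ∈ bad
      · have hx' : (1 : Equiv.Perm (Fin n)) x ∈ bad := hx
        rw [if_pos hx', sub_self]
        unfold cb
        positivity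
      · have hx' : ¬ (1 : Equiv.Perm (Fin n)) x ∈ bad := hx
        rw [if_neg hx', sub_zero]
        by_cases hr : g.right = 1
        · have ht : σ g.right x = (1 : Equiv.Perm (Fin n)) x := by rw [hr, hσ1]
          rw [cb_eq ht, ht]
          exact le_fro2_of_hsNorm hm _ (hθd (e x g) (hMM _ (heM x g hg)) (hne g hg hr hg1 x hx))
        · have ht : σ g.right x ≠ (1 : Equiv.Perm (Fin n)) x := hmove g hg hr x hx
          rw [cb_ne ht]
          linarith
    have h2 := Finset.sum_le_sum (fun x (_ : x ∈ Finset.univ) => h1 x)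
    rw [Finset.sum_sub_distrib, sum_ite_perm, Finset.sum_const, Finset.card_univ,
      Fintype.card_fin, nsmul_eq_mul] at h2
    refine le_trans ?_ h2
    have : (bad.card : ℝ) * m ≤ 1 / 2 * n * m := mul_le_mul_of_nonneg_right hbad2 hm'.le
    linarith
  have hlow2 : (n : ℝ) * m / 2 ≤
      fro2 ((blkU (σ g.right) (fun y => θ (e y g))).1 - 1) := by
    refine hlow.trans (le_of_eq ?_)
    rw [blk_one]
    rfl
  refine ⟨n, m, fun a => blkU (σ a.right) (fun y => θ (e y a)), ?_, ?_, ?_⟩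
  · apply Subtype.ext
    show blk (σ (1 : HaloProduct H S).right) (fun y => θ (e y 1)) = 1
    have : (fun y => θ (e y 1)) = fun _ => (1 : unitaryGroup (Fin m) ℂ) := by
      funext y
      rw [he1, hθ1]
    rw [this, SemidirectProduct.one_right, hσ1, blk_one]
  · exact lt_of_lt_of_le (by positivity) hlow2
  · intro a ha b hb hab
    have hs : ∀ x, cb (blk (σ (a * b).right) (fun y => θ (e y (a * b))) -
        blk (σ a.right * σ b.right) (fun y => θ (e y a) * θ (e ((σ a.right)⁻¹ y) b))) x ≤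
        ε / 4 * m + (if (1 : Equiv.Perm (Fin n)) x ∈ bad then 4 * (m : ℝ) else 0)
          + (if σ b.right x ∈ bad then 4 * (m : ℝ) else 0)
          + (if (σ a.right * σ b.right) x ∈ bad then 4 * (m : ℝ) else 0) := by
      intro x
      have hpos : 0 ≤ ε / 4 * m := by positivity
      have hcle := cb_le (σ (a * b).right) (σ a.right * σ b.right) (fun y => θ (e y (a * b)))
        (fun y => θ (e y a) * θ (e ((σ a.right)⁻¹ y) b)) x
      have hi : ∀ (P : Prop) [Decidable P], 0 ≤ (if P then 4 * (m : ℝ) else 0) := by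
        intro P _
        split_ifs <;> positivity
      by_cases c1 : x ∈ bad
      · rw [if_pos (show (1 : Equiv.Perm (Fin n)) x ∈ bad by simpa using c1)]
        have := hi (σ b.right x ∈ bad)
        have := hi ((σ a.right * σ b.right) x ∈ bad)
        linarith
      by_cases c2 : σ b.right x ∈ bad
      · rw [if_pos c2]
        have := hi ((1 : Equiv.Perm (Fin n)) x ∈ bad)
        have := hi ((σ a.right * σ b.right) x ∈ bad)
        linarith
      by_cases c3 : (σ a.right * σ b.right) x ∈ bad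
      · rw [if_pos c3]
        have := hi ((1 : Equiv.Perm (Fin n)) x ∈ bad)
        have := hi (σ b.right x ∈ bad)
        linarith
      obtain ⟨e1, e2⟩ := hmul a ha b hb hab x c1 c2 c3
      have ht : σ (a * b).right x = (σ a.right * σ b.right) x := e1
      rw [cb_eq ht, if_neg (show ¬ (1 : Equiv.Perm (Fin n)) x ∈ bad by simpa using c1),
        if_neg c2, if_neg c3, add_zero, add_zero, add_zero, e1]
      have h3 : (σ a.right)⁻¹ (σ a.right (σ b.right x)) = σ b.right x := by simp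
      rw [h3, e2]
      have hk := heM (σ a.right (σ b.right x)) a ha
      have hl := heM (σ b.right x) b hb
      have h4 := fro2_le_of_hsNorm hm _ (hθm _ (hMM _ hk) _ (hMM _ hl)
        (Finset.mul_mem_mul hk hl))
      refine h4.trans (le_of_eq ?_)
      rw [div_pow, Real.sq_sqrt hε.le]
      ring
    show fro2 (blk (σ (a * b).right) (fun y => θ (e y (a * b))) -
        blk (σ a.right) (fun y => θ (e y a)) * blk (σ b.right) (fun y => θ (e y b))) ≤ _
    rw [blk_mul, fro2_eq_cb]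
    refine (Finset.sum_le_sum (fun x (_ : x ∈ Finset.univ) => hs x)).trans ?_
    rw [Finset.sum_add_distrib, Finset.sum_add_distrib, Finset.sum_add_distrib, sum_ite_perm,
      sum_ite_perm, sum_ite_perm, Finset.sum_const, Finset.card_univ, Fintype.card_fin,
      nsmul_eq_mul]
    refine le_trans ?_ (mul_le_mul_of_nonneg_left hlow2 hε.le)
    have : (bad.card : ℝ) * m ≤ ε / 48 * n * m := mul_le_mul_of_nonneg_right hbad1 hm'.le
    linarith

end MainH

end Pool.Agent.R378.Halo
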