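import Pool.Agent.R378.HHalo

/-!
# Halo products of hyperlinear halos over sofic groups are hyperlinear
-/

set_option autoImplicit false

namespace Pool.Agent.R378.HyperlinearHaloStmt

open Pool.Agent.H21R2 Pool.Agent.R654.Halo

universe u

/-- Let `H` be a graph halo whose groups at finite graphs are hyperlinear.  Then for each sofic
group `G` and each subset `S` of `G` the halo product `H(Cay(G, S)) ⋊ G` is hyperlinear. -/
theorem result (H : GraphHalo.{u})
    (hH : ∀ (n : ℕ) (Δ : SimpleGraph (ULift.{u} (Fin n))), IsHyperlinear (H.obj Δ))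
    (G : Type u) [Group G] (hG : IsSofic G) (S : Set G) : IsHyperlinear (HaloProduct H S) :=
  Pool.Agent.R378.Halo.hyperlinear_halo H S hH hG

end Pool.Agent.R378.HyperlinearHaloStmt
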