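import Mathlib

/-!
# Sums of random signs: the first absolute moment, and the block example
-/

set_option autoImplicit false

namespace Pool.Agent.R378.Khin

open Finset

/-- the sum of the signs with indices in `B` -/
def S {n : ℕ} (B : Finset (Fin n)) (x : Fin n → ℤˣ) : ℝ := ∑ i ∈ B, ((x i : ℤ) : ℝ)

theorem unit_sq (u : ℤˣ) : ((u : ℤ) : ℝ) ^ 2 = 1 := by
  rcases Int.units_eq_one_or u with h | h <;> simp [h]

theorem card_cube (n : ℕ) : (Fintype.card (Fin n → ℤˣ) : ℝ) = 2 ^ n := by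
  simp

/-- flipping one sign -/
def flip {n : ℕ} (j : Fin n) : (Fin n → ℤˣ) ≃ (Fin n → ℤˣ) where
  toFun x := Function.update x j (-x j)
  invFun x := Function.update x j (-x j)
  left_inv x := by
    ext i
    by_cases h : i = j
    · subst h; simp
    · simp [h]
  right_inv x := by
    ext i
    by_cases h : i = j
    · subst h; simp
    · simp [h]

theorem S_flip {n : ℕ} {B : Finset (Fin n)} {j : Fin n} (hj : j ∉ B) (x : Fin n → ℤˣ) :
    S B (flip j x) = S B x := by
  unfold S
  refine Finset.sum_congr rfl fun i hi => ?_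
  have : i ≠ j := fun h => hj (h ▸ hi)
  simp [flip, this]

/-- odd terms vanish -/
theorem sum_odd {n : ℕ} {B : Finset (Fin n)} {j : Fin n} (hj : j ∉ B) (f : ℝ → ℝ) :
    ∑ x : Fin n → ℤˣ, f (S B x) * ((x j : ℤ) : ℝ) = 0 := by
  have h := Equiv.sum_comp (flip j) (fun x : Fin n → ℤˣ => f (S B x) * ((x j : ℤ) : ℝ))
  simp only [S_flip hj] at h
  have h2 : ∀ x : Fin n → ℤˣ, (((flip j x) j : ℤˣ) : ℤ) = -((x j : ℤˣ) : ℤ) := by
    intro x
    simp [flip]
  simp only [h2] at h
  push_cast at h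
  simp only [mul_neg, Finset.sum_neg_distrib] at h
  linarith

theorem moments {n : ℕ} (B : Finset (Fin n)) :
    ∑ x : Fin n → ℤˣ, S B x ^ 2 = 2 ^ n * B.card ∧
    ∑ x : Fin n → ℤˣ, S B x ^ 4 = 2 ^ n * (3 * (B.card : ℝ) ^ 2 - 2 * B.card) := by
  classical
  induction B using Finset.induction_on with
  | empty => simp [S]
  | insert j B hj ih =>
    obtain ⟨ih2, ih4⟩ := ih
    have hS : ∀ x : Fin n → ℤˣ, S (insert j B) x = ((x j : ℤ) : ℝ) + S B x := by
      intro x
      unfold S
      rw [Finset.sum_insert hj]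
    have h1 : ∑ x : Fin n → ℤˣ, (1:ℝ) = 2 ^ n := by
      rw [Finset.sum_const, Finset.card_univ, nsmul_eq_mul, mul_one, card_cube]
    have e2 : ∀ x : Fin n → ℤˣ, S (insert j B) x ^ 2 =
        S B x ^ 2 + 1 + 2 * (S B x * ((x j : ℤ) : ℝ)) := by
      intro x
      have := unit_sq (x j)
      rw [hS]
      linear_combination this
    have e4 : ∀ x : Fin n → ℤˣ, S (insert j B) x ^ 4 =
        S B x ^ 4 + 6 * S B x ^ 2 + 1 + 4 * (S B x ^ 3 * ((x j : ℤ) : ℝ)) +
          4 * (S B x * ((x j : ℤ) : ℝ)) := by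
      intro x
      have := unit_sq (x j)
      rw [hS]
      linear_combination (6 * S B x ^ 2 + 4 * S B x * ((x j : ℤ) : ℝ) + ((x j : ℤ) : ℝ) ^ 2 + 1) * this
    have o1 := sum_odd hj (fun s => s)
    have o3 := sum_odd hj (fun s => s ^ 3)

    rw [Finset.card_insert_of_notMem hj]
    constructor
    · simp only [e2]
      rw [Finset.sum_add_distrib, Finset.sum_add_distrib, ← Finset.mul_sum, ih2, h1, o1]
      push_cast
      ring
    · simp only [e4]
      rw [Finset.sum_add_distrib, Finset.sum_add_distrib, Finset.sum_add_distrib,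
        Finset.sum_add_distrib, ← Finset.mul_sum, ← Finset.mul_sum, ← Finset.mul_sum, ih2, ih4,
        h1, o1, o3]
      push_cast
      ring

/-- **Khintchine's inequality** for the first moment. -/
theorem khintchine {n : ℕ} (B : Finset (Fin n)) :
    2 ^ n * Real.sqrt (B.card / 3) ≤ ∑ x : Fin n → ℤˣ, |S B x| := by
  classical
  rcases Nat.eq_zero_or_pos B.card with h0 | hpos
  · rw [h0]
    simp only [Nat.cast_zero, zero_div, Real.sqrt_zero, mul_zero]
    positivity
  · have hm : (0:ℝ) < B.card := by exact_mod_cast hpos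
    set m : ℝ := (B.card : ℝ) with hmdef
    set a : ℝ := Real.sqrt (3 * m) with ha
    have ha0 : 0 < a := Real.sqrt_pos.2 (by positivity)
    have ha2 : a ^ 2 = 3 * m := Real.sq_sqrt (by positivity)
    -- `|s| ≥ 3 s²/(2a) - s⁴/(2a³)`
    have hpt : ∀ s : ℝ, 3 / (2 * a) * s ^ 2 - 1 / (2 * a ^ 3) * s ^ 4 ≤ |s| := by
      intro s
      have h1 : s ^ 2 = |s| ^ 2 := (sq_abs s).symm
      have h2 : s ^ 4 = |s| ^ 4 := by
        have : s ^ 4 = (s ^ 2) ^ 2 := by ring
        rw [this, h1]; ring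
      rw [h1, h2]
      set t := |s| with ht
      have ht0 : 0 ≤ t := abs_nonneg s
      have h3 : 3 / (2 * a) * t ^ 2 - 1 / (2 * a ^ 3) * t ^ 4 =
          t - t * (t - a) ^ 2 * (t + 2 * a) / (2 * a ^ 3) := by
        field_simp
        ring
      rw [h3]
      have h4 : 0 ≤ t * (t - a) ^ 2 * (t + 2 * a) / (2 * a ^ 3) := by positivity
      linarith
    have h5 : ∑ x : Fin n → ℤˣ, (3 / (2 * a) * S B x ^ 2 - 1 / (2 * a ^ 3) * S B x ^ 4) ≤
        ∑ x : Fin n → ℤˣ, |S B x| := Finset.sum_le_sum fun x _ => hpt _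
    rw [Finset.sum_sub_distrib, ← Finset.mul_sum, ← Finset.mul_sum, (moments B).1,
      (moments B).2, ← hmdef] at h5
    refine le_trans ?_ h5
    have h6 : Real.sqrt (m / 3) = m / a := by
      rw [Real.sqrt_eq_iff_mul_self_eq (by positivity) (by positivity)]
      rw [div_mul_div_comm, ← sq a, ha2]
      field_simp
    rw [h6]
    have h7 : 3 / (2 * a) * (2 ^ n * m) - 1 / (2 * a ^ 3) * (2 ^ n * (3 * m ^ 2 - 2 * m)) =
        2 ^ n * (m / a + m / a ^ 3) := by
      have h8 : a ^ 3 = a * (3 * m) := by rw [← ha2]; ring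
      rw [h8]
      field_simp
      ring
    rw [h7]
    apply mul_le_mul_of_nonneg_left _ (by positivity)
    have : 0 ≤ m / a ^ 3 := by positivity
    linarith

end Pool.Agent.R378.Khin
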