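import Mathlib

/-!
# Exponentials with frequencies near finitely many points are dominated by vectors of a Hilbert space
-/

set_option autoImplicit false

namespace Pool.Agent.R378.NF

open Finset

lemma fourier_add_arg (n : ℤ) (x y : UnitAddCircle) :
    (fourier n (x + y) : ℂ) = fourier n x * fourier n y := by
  rw [fourier_apply, fourier_apply, fourier_apply, zsmul_add, AddCircle.toCircle_add, Circle.coe_mul]

lemma norm_fourier (n : ℤ) (x : UnitAddCircle) : ‖(fourier n x : ℂ)‖ = 1 := by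
  rw [fourier_apply]
  exact Circle.norm_coe _

lemma exists_real (x : UnitAddCircle) : ∃ t : ℝ, (t : UnitAddCircle) = x ∧ |t| = ‖x‖ := by
  obtain ⟨y, rfl⟩ := QuotientAddGroup.mk_surjective x
  refine ⟨y - round y, ?_, ?_⟩
  · have : ((round y : ℝ) : UnitAddCircle) = 0 := by
      rw [AddCircle.coe_eq_zero_iff]
      exact ⟨round y, by simp⟩
    rw [AddCircle.coe_sub, this, sub_zero]
  · exact (UnitAddCircle.norm_eq).symm

/-- the vectors -/
noncomputable def vec (n : ℕ) (S : Finset UnitAddCircle) (R : ℕ) (h : ℕ) :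
    EuclideanSpace ℂ (S × Fin R) :=
  WithLp.toLp 2 (fun p => ((Real.sqrt (Real.exp 1 / ((p.2 : ℕ).factorial : ℝ)) *
    (2 * Real.pi * h / n) ^ (p.2 : ℕ) : ℝ) : ℂ) * fourier (h : ℤ) (p.1 : UnitAddCircle))

lemma sum_fact (R : ℕ) : ∑ r : Fin R, 1 / (((r : ℕ).factorial : ℕ) : ℝ) ≤ Real.exp 1 := by
  rw [Fin.sum_univ_eq_sum_range (fun r => 1 / ((r.factorial : ℕ) : ℝ)) R]
  have h := Real.sum_le_exp_of_nonneg (x := 1) (by norm_num) R
  refine le_trans (le_of_eq ?_) h
  exact Finset.sum_congr rfl fun r _ => by rw [one_pow]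

lemma norm_vec (n : ℕ) (S : Finset UnitAddCircle) (R h : ℕ) (hh : 2 * Real.pi * h ≤ n) :
    ‖vec n S R h‖ ^ 2 ≤ Real.exp 1 ^ 2 * S.card := by
  rw [EuclideanSpace.norm_sq_eq]
  have h0 : 0 ≤ 2 * Real.pi * h / n := by positivity
  have h1 : 2 * Real.pi * h / n ≤ 1 := div_le_one_of_le₀ hh (by positivity)
  have h2 : ∀ p : S × Fin R, ‖(vec n S R h).ofLp p‖ ^ 2 ≤
      Real.exp 1 * (1 / (((p.2 : ℕ).factorial : ℕ) : ℝ)) := by
    intro p
    show ‖((Real.sqrt (Real.exp 1 / ((p.2 : ℕ).factorial : ℝ)) *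
      (2 * Real.pi * h / n) ^ (p.2 : ℕ) : ℝ) : ℂ) * fourier (h : ℤ) (p.1 : UnitAddCircle)‖ ^ 2 ≤ _
    rw [norm_mul, norm_fourier, mul_one, Complex.norm_real, Real.norm_eq_abs, sq_abs, mul_pow,
      Real.sq_sqrt (by positivity)]
    have h3 : ((2 * Real.pi * h / n) ^ (p.2 : ℕ)) ^ 2 ≤ 1 := by
      rw [← pow_mul]
      exact pow_le_one₀ h0 h1
    calc Real.exp 1 / ((p.2 : ℕ).factorial : ℝ) * ((2 * Real.pi * h / n) ^ (p.2 : ℕ)) ^ 2
        ≤ Real.exp 1 / ((p.2 : ℕ).factorial : ℝ) * 1 :=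
          mul_le_mul_of_nonneg_left h3 (by positivity)
      _ = _ := by ring
  refine (Finset.sum_le_sum fun p _ => h2 p).trans ?_
  rw [Fintype.sum_prod_type]
  show ∑ _x : S, ∑ r : Fin R, Real.exp 1 * (1 / (((r : ℕ).factorial : ℕ) : ℝ)) ≤ _
  rw [Finset.sum_const, Finset.card_univ, Fintype.card_coe, nsmul_eq_mul, ← Finset.mul_sum]
  have h4 := sum_fact R
  have h5 : 0 < Real.exp 1 := Real.exp_pos 1
  calc (S.card : ℝ) * (Real.exp 1 * ∑ r : Fin R, 1 / (((r : ℕ).factorial : ℕ) : ℝ))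
      ≤ S.card * (Real.exp 1 * Real.exp 1) := by gcongr
    _ = _ := by ring

/-- **domination** -/
theorem dom (n L R : ℕ) (hR : 0 < R) (hn : 0 < n) (hL : 2 * Real.pi * L ≤ n)
    (S : Finset UnitAddCircle) (y : UnitAddCircle) (hy : y ∈ S) (α : UnitAddCircle)
    (hα : dist α y ≤ 1 / n) (v : ℕ → ℂ) (hv : ∀ h, ‖v h‖ ≤ 1) :
    ‖∑ h ∈ range L, v h * fourier (h : ℤ) α‖ ≤
      ‖∑ h ∈ range L, v h • vec n S R h‖ + L * ((R.succ : ℝ) * ((R.factorial : ℝ) * R)⁻¹) := by
  classical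
  obtain ⟨t, ht, ht2⟩ := exists_real (α - y)
  rw [← dist_eq_norm] at ht2
  have hn0 : (0:ℝ) < n := by exact_mod_cast hn
  set s : ℝ := n * t with hs
  have hs1 : |s| ≤ 1 := by
    rw [hs, abs_mul, abs_of_pos hn0, ht2]
    calc (n:ℝ) * dist α y ≤ n * (1 / n) := mul_le_mul_of_nonneg_left hα hn0.le
      _ = 1 := by field_simp
  set u : ℕ → ℝ := fun h => 2 * Real.pi * h / n with hu
  have hu0 : ∀ h, 0 ≤ u h := fun h => by rw [hu]; positivity
  have hu1 : ∀ h ∈ range L, u h ≤ 1 := by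
    intro h hh
    rw [mem_range] at hh
    apply div_le_one_of_le₀ _ hn0.le
    refine le_trans ?_ hL
    have : (h:ℝ) ≤ L := by exact_mod_cast hh.le
    gcongr
  -- the exponential
  have hexp : ∀ h : ℕ, (fourier (h : ℤ) α : ℂ) =
      fourier (h : ℤ) y * Complex.exp (Complex.I * s * u h) := by
    intro h
    have h1 : α = y + (t : UnitAddCircle) := by rw [ht]; abel
    rw [h1, fourier_add_arg]
    congr 1
    rw [fourier_coe_apply]
    congr 1
    rw [hs, hu]
    push_cast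
    have : (n:ℂ) ≠ 0 := by exact_mod_cast hn0.ne'
    field_simp
  set T : Fin R → ℂ := fun r => ∑ h ∈ range L, v h * ((u h : ℂ) ^ (r : ℕ) * fourier (h : ℤ) y) with hT
  have hmain : ‖∑ h ∈ range L, v h * fourier (h : ℤ) α -
      ∑ r : Fin R, (Complex.I * s) ^ (r : ℕ) / ((r : ℕ).factorial : ℂ) * T r‖ ≤
      L * ((R.succ : ℝ) * ((R.factorial : ℝ) * R)⁻¹) := by
    have h1 : ∑ r : Fin R, (Complex.I * s) ^ (r : ℕ) / ((r : ℕ).factorial : ℂ) * T r =
        ∑ h ∈ range L, v h * (fourier (h : ℤ) y *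
          ∑ r ∈ range R, (Complex.I * s * u h) ^ r / (r.factorial : ℂ)) := by
      rw [hT]
      simp_rw [Finset.mul_sum]
      rw [Finset.sum_comm]
      refine Finset.sum_congr rfl fun h _ => ?_
      rw [← Fin.sum_univ_eq_sum_range
        (fun r => v h * (fourier (h : ℤ) y * ((Complex.I * s * u h) ^ r / (r.factorial : ℂ)))) R]
      refine Finset.sum_congr rfl fun r _ => ?_
      rw [mul_pow (Complex.I * s) (u h : ℂ)]
      ring
    rw [h1, ← Finset.sum_sub_distrib]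
    refine (norm_sum_le _ _).trans ?_
    calc ∑ h ∈ range L, ‖v h * fourier (h : ℤ) α - v h * (fourier (h : ℤ) y *
          ∑ r ∈ range R, (Complex.I * s * u h) ^ r / (r.factorial : ℂ))‖
        ≤ ∑ _h ∈ range L, ((R.succ : ℝ) * ((R.factorial : ℝ) * R)⁻¹) := by
          refine Finset.sum_le_sum fun h hh => ?_
          rw [hexp h, ← mul_sub, ← mul_sub, norm_mul, norm_mul, norm_fourier, one_mul]
          have hx : ‖Complex.I * s * u h‖ ≤ 1 := by
            rw [norm_mul, norm_mul, Complex.norm_I, one_mul, Complex.norm_real, Complex.norm_real,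
              Real.norm_eq_abs, Real.norm_eq_abs, abs_of_nonneg (hu0 h)]
            calc |s| * u h ≤ 1 * 1 := mul_le_mul hs1 (hu1 h hh) (hu0 h) zero_le_one
              _ = 1 := one_mul 1
          have h2 := Complex.exp_bound hx hR
          calc ‖v h‖ * ‖Complex.exp (Complex.I * s * u h) -
                ∑ r ∈ range R, (Complex.I * s * u h) ^ r / (r.factorial : ℂ)‖
              ≤ 1 * (‖Complex.I * s * u h‖ ^ R * ((R.succ : ℝ) * ((R.factorial : ℝ) * R)⁻¹)) :=
                mul_le_mul (hv h) h2 (norm_nonneg _) zero_le_one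
            _ ≤ 1 * (1 * ((R.succ : ℝ) * ((R.factorial : ℝ) * R)⁻¹)) := by
                gcongr
                exact pow_le_one₀ (norm_nonneg _) hx
            _ = _ := by ring
      _ = _ := by rw [Finset.sum_const, card_range, nsmul_eq_mul]
  have hsec : ‖∑ r : Fin R, (Complex.I * s) ^ (r : ℕ) / ((r : ℕ).factorial : ℂ) * T r‖ ≤
      ‖∑ h ∈ range L, v h • vec n S R h‖ := by
    have hcomp : ∀ r : Fin R, (∑ h ∈ range L, v h • vec n S R h).ofLp (⟨y, hy⟩, r) =
        (Real.sqrt (Real.exp 1 / ((r : ℕ).factorial : ℝ)) : ℂ) * T r := by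
      intro r
      have h1 : (∑ h ∈ range L, v h • vec n S R h).ofLp (⟨y, hy⟩, r) =
          ∑ h ∈ range L, v h * (vec n S R h).ofLp (⟨y, hy⟩, r) := by
        rw [WithLp.ofLp_sum, Finset.sum_apply]
        rfl
      rw [h1, hT, Finset.mul_sum]
      refine Finset.sum_congr rfl fun h _ => ?_
      show v h * (((Real.sqrt (Real.exp 1 / ((r : ℕ).factorial : ℝ)) *
        (2 * Real.pi * h / n) ^ (r : ℕ) : ℝ) : ℂ) * fourier (h : ℤ) y) = _
      rw [hu]
      push_cast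
      ring
    have h1 : ‖∑ r : Fin R, (Complex.I * s) ^ (r : ℕ) / ((r : ℕ).factorial : ℂ) * T r‖ ≤
        ∑ r : Fin R, 1 / ((r : ℕ).factorial : ℝ) * ‖T r‖ := by
      refine (norm_sum_le _ _).trans (Finset.sum_le_sum fun r _ => ?_)
      rw [norm_mul, norm_div, norm_pow, norm_mul, Complex.norm_I, one_mul, Complex.norm_real,
        Real.norm_eq_abs, Complex.norm_natCast]
      gcongr
      exact pow_le_one₀ (abs_nonneg _) hs1
    refine h1.trans ?_
    have h2 : (∑ r : Fin R, 1 / ((r : ℕ).factorial : ℝ) * ‖T r‖) ^ 2 ≤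
        (∑ r : Fin R, 1 / ((r : ℕ).factorial : ℝ)) *
          ∑ r : Fin R, 1 / ((r : ℕ).factorial : ℝ) * ‖T r‖ ^ 2 := by
      apply Finset.sum_sq_le_sum_mul_sum_of_sq_le_mul
      · intro r _; positivity
      · intro r _; positivity
      · intro r _; exact le_of_eq (by ring)
    have h3 : ‖∑ h ∈ range L, v h • vec n S R h‖ ^ 2 ≥
        Real.exp 1 * ∑ r : Fin R, 1 / ((r : ℕ).factorial : ℝ) * ‖T r‖ ^ 2 := by
      rw [EuclideanSpace.norm_sq_eq, Fintype.sum_prod_type, Finset.mul_sum]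
      have h4 : ∑ r : Fin R, ‖(∑ h ∈ range L, v h • vec n S R h).ofLp (⟨y, hy⟩, r)‖ ^ 2 ≤
          ∑ x : S, ∑ r : Fin R, ‖(∑ h ∈ range L, v h • vec n S R h).ofLp (x, r)‖ ^ 2 :=
        Finset.single_le_sum
          (f := fun x : S => ∑ r : Fin R, ‖(∑ h ∈ range L, v h • vec n S R h).ofLp (x, r)‖ ^ 2)
          (fun _ _ => Finset.sum_nonneg fun _ _ => by positivity) (mem_univ (⟨y, hy⟩ : S))
      refine le_trans (le_of_eq ?_) h4
      refine Finset.sum_congr rfl fun r _ => ?_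
      rw [hcomp, norm_mul, mul_pow, Complex.norm_real, Real.norm_eq_abs, sq_abs,
        Real.sq_sqrt (by positivity)]
      ring
    have h5 := sum_fact R
    have h6 : 0 ≤ ∑ r : Fin R, 1 / ((r : ℕ).factorial : ℝ) * ‖T r‖ ^ 2 :=
      Finset.sum_nonneg fun _ _ => by positivity
    have h7 : (∑ r : Fin R, 1 / ((r : ℕ).factorial : ℝ) * ‖T r‖) ^ 2 ≤
        ‖∑ h ∈ range L, v h • vec n S R h‖ ^ 2 :=
      h2.trans ((mul_le_mul_of_nonneg_right h5 h6).trans h3)
    exact (abs_le_of_sq_le_sq' h7 (norm_nonneg _)).2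
  have h8 := norm_add_le (∑ h ∈ range L, v h * fourier (h : ℤ) α -
      ∑ r : Fin R, (Complex.I * s) ^ (r : ℕ) / ((r : ℕ).factorial : ℂ) * T r)
      (∑ r : Fin R, (Complex.I * s) ^ (r : ℕ) / ((r : ℕ).factorial : ℂ) * T r)
  rw [sub_add_cancel] at h8
  linarith

end Pool.Agent.R378.NF
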