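import Pool.Agent.R378.NF1
import Pool.Agent.Y326.Fact
import Pool.Agent.Y326.Chw2
import Pool.Agent.H446R3.SK.Mob

/-!
# Möbius sums in short windows with frequencies in a thin subset of the circle
-/

set_option autoImplicit false

namespace Pool.Agent.R378.NF

open Finset Filter Pool.Agent.Y326
open Pool.Agent.TH833.BL (S H H_le le_H one_le_log)

/-- the set of frequencies is covered by at most `κ n` arcs of radius `1 / n` -/
def Thin1 (K : Set UnitAddCircle) (κ : ℝ) (n : ℕ) : Prop :=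
  ∃ S : Finset UnitAddCircle, (S.card : ℝ) ≤ κ * n ∧ ∀ α ∈ K, ∃ y ∈ S, dist α y ≤ 1 / n

/-- the exponentials with frequencies in `K` -/
def fam (K : Set UnitAddCircle) : Set (ℕ → ℂ) :=
  {a | ∃ α ∈ K, ∃ c : ℂ, ‖c‖ ≤ 1 ∧ a = fun h : ℕ => c * fourier (h : ℤ) α}

lemma fam_shift {K : Set UnitAddCircle} : ∀ a ∈ fam K, (fun n => a (n + 1)) ∈ fam K := by
  rintro a ⟨α, hα, c, hc, rfl⟩
  refine ⟨α, hα, c * fourier 1 α, ?_, ?_⟩
  · rw [norm_mul, norm_fourier, mul_one]; exact hc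
  · funext n
    rw [mul_assoc]
    congr 1
    push_cast
    rw [add_comm (n : ℤ) 1, fourier_add]

lemma fam_le {K : Set UnitAddCircle} : ∀ a ∈ fam K, ∀ n, ‖a n‖ ≤ 1 := by
  rintro a ⟨α, hα, c, hc, rfl⟩ n
  show ‖c * fourier (n : ℤ) α‖ ≤ 1
  rw [norm_mul, norm_fourier, mul_one]
  exact hc

lemma exists_R (η : ℝ) (hη : 0 < η) : ∃ R : ℕ, 0 < R ∧
    ((R.succ : ℝ) * ((R.factorial : ℝ) * R)⁻¹) ≤ η := by
  obtain ⟨R, hR⟩ := exists_nat_ge (2 / η)
  refine ⟨R + 1, by omega, ?_⟩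
  have h1 : ((R + 1 : ℕ) : ℝ) ≤ ((R + 1).factorial : ℕ) := by exact_mod_cast Nat.self_le_factorial _
  have h2 : (0:ℝ) < ((R + 1 : ℕ) : ℝ) := by positivity
  have h3 : (((R + 1).succ : ℕ) : ℝ) ≤ 2 * ((R + 1 : ℕ) : ℝ) := by push_cast; linarith
  have h4 : 2 ≤ η * ((R + 1 : ℕ) : ℝ) := by
    rw [div_le_iff₀ hη] at hR
    push_cast
    nlinarith
  rw [← div_eq_mul_inv, div_le_iff₀ (by positivity)]
  have h5 : η * ((R + 1 : ℕ) : ℝ) * ((R + 1 : ℕ) : ℝ) ≤ η * (((R + 1).factorial : ℕ) * ((R + 1 : ℕ) : ℝ)) := by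
    rw [mul_assoc]
    gcongr
  have h6 : 2 * ((R + 1 : ℕ) : ℝ) ≤ η * ((R + 1 : ℕ) : ℝ) * ((R + 1 : ℕ) : ℝ) :=
    mul_le_mul_of_nonneg_right h4 h2.le
  linarith

theorem fac_fam (K : Set UnitAddCircle) (κ η : ℝ) (n : ℕ) (hn : 7 ≤ n) (hη : 0 < η)
    (hκ0 : 0 ≤ κ) (hκ : 104 * κ ≤ η ^ 2) (h : Thin1 K κ n) : Fac (X := ℂ) (fam K) (n / 7) η := by
  obtain ⟨Sf, hS, hcov⟩ := h
  obtain ⟨R, hR0, hR⟩ := exists_R η hη
  have hL : (7:ℝ) * ((n / 7 : ℕ) : ℝ) ≤ n := by exact_mod_cast Nat.mul_div_le n 7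
  have hL1 : 1 ≤ n / 7 := by omega
  have hL2 : (n:ℝ) ≤ 14 * ((n / 7 : ℕ) : ℝ) := by
    have : n ≤ 14 * (n / 7) := by omega
    exact_mod_cast this
  have hpi : 2 * Real.pi ≤ 7 := by linarith [Real.pi_lt_d2]
  have hLpi : 2 * Real.pi * ((n / 7 : ℕ) : ℝ) ≤ n := le_trans (by gcongr) hL
  refine ⟨EuclideanSpace ℂ (Sf × Fin R), inferInstance, inferInstance, vec n Sf R, ?_, ?_⟩
  · have h1 : ∀ h ∈ range (n / 7), ‖vec n Sf R h‖ ^ 2 ≤ Real.exp 1 ^ 2 * Sf.card := by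
      intro h hh
      rw [mem_range] at hh
      apply norm_vec
      refine le_trans ?_ hLpi
      have : (h:ℝ) ≤ ((n / 7 : ℕ) : ℝ) := by exact_mod_cast hh.le
      gcongr
    refine (sum_le_sum h1).trans ?_
    rw [sum_const, card_range, nsmul_eq_mul]
    have he : Real.exp 1 ^ 2 ≤ 7.4 := by
      have h2 := Real.exp_one_lt_d9
      have h3 := Real.exp_pos 1
      nlinarith
    have h4 : (Sf.card : ℝ) ≤ κ * (14 * ((n / 7 : ℕ) : ℝ)) :=
      hS.trans (mul_le_mul_of_nonneg_left hL2 hκ0)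
    have h5 : (0:ℝ) ≤ ((n / 7 : ℕ) : ℝ) := by positivity
    calc ((n / 7 : ℕ) : ℝ) * (Real.exp 1 ^ 2 * Sf.card)
        ≤ ((n / 7 : ℕ) : ℝ) * (7.4 * (κ * (14 * ((n / 7 : ℕ) : ℝ)))) := by gcongr
      _ = (103.6 * κ) * ((n / 7 : ℕ) : ℝ) ^ 2 := by ring
      _ ≤ η ^ 2 * ((n / 7 : ℕ) : ℝ) ^ 2 := by
          apply mul_le_mul_of_nonneg_right _ (by positivity)
          linarith
      _ = _ := by ring
  · rintro a ⟨α, hα, c, hc, rfl⟩ v hv
    obtain ⟨y, hy, hd⟩ := hcov α hα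
    have h1 := dom n (n / 7) R hR0 (by omega) hLpi Sf y hy α hd v hv
    have h2 : ∑ h ∈ range (n / 7), v h • (c * fourier (h : ℤ) α) =
        c * ∑ h ∈ range (n / 7), v h * fourier (h : ℤ) α := by
      rw [mul_sum]
      exact sum_congr rfl fun h _ => by rw [smul_eq_mul]; ring
    rw [h2, norm_mul]
    calc ‖c‖ * ‖∑ h ∈ range (n / 7), v h * fourier (h : ℤ) α‖
        ≤ 1 * ‖∑ h ∈ range (n / 7), v h * fourier (h : ℤ) α‖ :=
          mul_le_mul_of_nonneg_right hc (norm_nonneg _)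
      _ ≤ _ := by
          rw [one_mul]
          refine h1.trans ?_
          have h5 : (0:ℝ) ≤ ((n / 7 : ℕ) : ℝ) := by positivity
          nlinarith

/-! ### Long sums -/

/-- the Möbius function with complex values -/
noncomputable def mm (j : ℕ) : ℂ := ((ArithmeticFunction.moebius j : ℤ) : ℂ)

lemma mm_le (j : ℕ) : ‖mm j‖ ≤ 1 := by
  unfold mm
  rw [Complex.norm_intCast]
  exact_mod_cast ArithmeticFunction.abs_moebius_le_one

lemma long_sum (ε : ℝ) (hε : 0 < ε) : ∃ N0 : ℕ, ∀ (x : ℕ) (α : UnitAddCircle),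
    ‖∑ j ∈ range x, mm j * fourier (j : ℤ) α‖ ≤ ε * x + N0 := by
  obtain ⟨N0, h0⟩ := Pool.Agent.H446R3.SK.dav_eps ε hε
  refine ⟨N0, fun x α => ?_⟩
  obtain ⟨t, rfl⟩ := QuotientAddGroup.mk_surjective α
  rcases le_or_gt N0 x with hx | hx
  · have h1 := h0 x hx t
    have h2 : ∑ j ∈ range x, mm j * fourier (j : ℤ) (t : UnitAddCircle) =
        ∑ j ∈ range x, Pool.Agent.H446R3.SK.mt t j := by
      refine sum_congr rfl fun j _ => ?_
      unfold Pool.Agent.H446R3.SK.mt mm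
      rw [fourier_coe_apply]
      push_cast
      rw [div_one]
    have h3 : ‖∑ j ∈ range x, mm j * fourier (j : ℤ) (t : UnitAddCircle)‖ ≤ ε * x := by
      rw [h2]; exact h1
    have : (0:ℝ) ≤ N0 := by positivity
    refine le_trans h3 ?_
    linarith
  · have h3 : ‖∑ j ∈ range x, mm j * fourier (j : ℤ) (t : UnitAddCircle)‖ ≤ x := by
      refine (norm_sum_le _ _).trans ?_
      calc ∑ j ∈ range x, ‖mm j * fourier (j : ℤ) (t : UnitAddCircle)‖ ≤ ∑ _j ∈ range x, (1:ℝ) := by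
            refine sum_le_sum fun j _ => ?_
            rw [norm_mul, norm_fourier, mul_one]
            exact mm_le j
        _ = x := by simp
    have h4 : (x:ℝ) ≤ N0 := by exact_mod_cast hx.le
    have h5 : 0 ≤ ε * x := by positivity
    refine le_trans h3 ?_
    linarith

/-- windows which are longer than their starting point -/
lemma early (ε : ℝ) (hε : 0 < ε) : ∃ H₀ : ℕ, ∀ H : ℕ, H₀ ≤ H → ∀ m : ℕ, m ≤ H → ∀ α : UnitAddCircle,
    ‖∑ j ∈ Ioc m (m + H), mm j * fourier (j : ℤ) α‖ ≤ ε * H := by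
  obtain ⟨N0, h0⟩ := long_sum (ε / 10) (by positivity)
  obtain ⟨H₁, h1⟩ := exists_nat_ge (4 * N0 / ε)
  refine ⟨max H₁ 1, fun H hH m hm α => ?_⟩
  have hH1 : (1:ℝ) ≤ H := by exact_mod_cast (le_max_right _ _).trans hH
  have hH2 : 4 * (N0:ℝ) ≤ ε * H := by
    have : 4 * N0 / ε ≤ H := h1.trans (by exact_mod_cast (le_max_left _ _).trans hH)
    rw [div_le_iff₀ hε] at this
    linarith
  have e : ∑ j ∈ Ioc m (m + H), mm j * (fourier (j : ℤ) α : ℂ) =
      ∑ j ∈ range (m + H + 1), mm j * fourier (j : ℤ) α - ∑ j ∈ range (m + 1), mm j * fourier (j : ℤ) α := by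
    rw [eq_sub_iff_add_eq, ← Finset.sum_range_add_sum_Ico _ (by omega : m + 1 ≤ m + H + 1), add_comm]
    congr 1
    apply sum_congr _ fun _ _ => rfl
    ext j
    simp only [mem_Ioc, mem_Ico]
    omega
  rw [e]
  refine (norm_sub_le _ _).trans ?_
  have h2 := h0 (m + H + 1) α
  have h3 := h0 (m + 1) α
  push_cast at h2 h3
  have hm' : (m:ℝ) ≤ H := by exact_mod_cast hm
  have h4 : ε / 10 * ((m:ℝ) + H + 1) + ε / 10 * ((m:ℝ) + 1) ≤ ε / 10 * (5 * H) := by
    rw [← mul_add]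
    apply mul_le_mul_of_nonneg_left _ (by positivity)
    linarith
  linarith

/-! ### The main theorem for characters -/

theorem char_main (ε : ℝ) (hε : 0 < ε) (n : ℕ) (hn : 7 ≤ n) :
    ∃ H₀ : ℕ, ∀ N H : ℕ, H₀ ≤ H → H ≤ N → ∀ K : Set UnitAddCircle, Thin1 K ((ε / 1024) ^ 2) n →
      ∀ α : ℕ → UnitAddCircle, (∀ m, α m ∈ K) →
      ∑ m ∈ Icc 1 N, (1 / (m : ℝ)) * ‖∑ j ∈ Ioc m (m + H), mm j * fourier (j : ℤ) (α m)‖ ≤
        ε * H * Real.log N := by
  set L := n / 7 with hLdef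
  have hL1 : 1 ≤ L := by omega
  have hL0 : (0:ℝ) < L := by exact_mod_cast hL1
  set f : ℕ → ℤ := fun n => ArithmeticFunction.moebius n with hf
  have hf1 : ∀ n, |f n| ≤ 1 := fun n => ArithmeticFunction.abs_moebius_le_one
  have hT : TwoPoint f := tao_mu
  obtain ⟨N₀, hN₀⟩ := short_fac (X := ℂ) hf1 hT L hL1 (ε / 100) (by positivity)
  obtain ⟨H₁, hH₁⟩ := early (ε / 4) (by positivity)
  obtain ⟨H₂, hH₂⟩ := exists_nat_ge (14 * L / ε)
  refine ⟨max (max N₀ H₁) (max H₂ 3), fun N H hH hHN K hK α hα => ?_⟩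
  have b1 : N₀ ≤ H := ((le_max_left _ _).trans (le_max_left _ _)).trans hH
  have b2 : H₁ ≤ H := ((le_max_right _ _).trans (le_max_left _ _)).trans hH
  have b3 : H₂ ≤ H := ((le_max_left _ _).trans (le_max_right _ _)).trans hH
  have b4 : 3 ≤ H := ((le_max_right _ _).trans (le_max_right _ _)).trans hH
  have hHr : (0:ℝ) < H := by exact_mod_cast (by omega : 0 < H)
  have hlogH : 1 ≤ Real.log H := one_le_log b4
  have hlogN : 1 ≤ Real.log N := one_le_log (b4.trans hHN)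
  have hlogHN : Real.log H ≤ Real.log N := Real.log_le_log hHr (by exact_mod_cast hHN)
  have b5 : 14 * (L:ℝ) ≤ ε * H := by
    have : 14 * (L:ℝ) / ε ≤ H := hH₂.trans (by exact_mod_cast b3)
    rw [div_le_iff₀ hε] at this
    linarith
  -- the family
  have hfac : Fac (X := ℂ) (fam K) L (ε / 100) := by
    apply fac_fam K ((ε / 1024) ^ 2) (ε / 100) n hn (by positivity) (by positivity) _ hK
    nlinarith [sq_nonneg ε]
  set A : ℕ → ℕ → ℂ := fun m h => fourier (m : ℤ) (α (m - 1)) * fourier (h : ℤ) (α (m - 1)) with hA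
  have hAf : ∀ m, A m ∈ fam K := fun m => ⟨α (m - 1), hα _, fourier (m : ℤ) (α (m - 1)),
    (norm_fourier _ _).le, rfl⟩
  have hA1 : ∀ m h, ‖A m h‖ ≤ 1 := fun m h => fam_le _ (hAf m) h
  set W : ℕ → ℝ := fun m => ‖∑ j ∈ Ioc m (m + H), mm j * fourier (j : ℤ) (α m)‖ with hW
  have hWw : ∀ m, W m = wv f A 0 H (m + 1) := by
    intro m
    show ‖∑ j ∈ Ioc m (m + H), mm j * fourier (j : ℤ) (α m)‖ =
      ‖∑ h ∈ range H, (((f (m + 1 + h) : ℤ) : ℂ) * ex (h * 0)) • A (m + 1) h‖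
    congr 1
    have e1 : Ioc m (m + H) = (range H).image (fun h => m + 1 + h) := by
      ext j
      simp only [mem_Ioc, mem_image, mem_range]
      constructor
      · intro hj; exact ⟨j - (m + 1), by omega, by omega⟩
      · rintro ⟨h, hh, rfl⟩; omega
    rw [e1, sum_image fun a _ b _ hab => by omega]
    refine sum_congr rfl fun h _ => ?_
    have e2 : ex ((h:ℝ) * 0) = 1 := by unfold ex; simp
    rw [e2, mul_one, smul_eq_mul]
    show mm (m + 1 + h) * fourier ((m + 1 + h : ℕ) : ℤ) (α m) =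
      mm (m + 1 + h) * (fourier ((m + 1 : ℕ) : ℤ) (α (m + 1 - 1)) * fourier (h : ℤ) (α (m + 1 - 1)))
    rw [Nat.add_sub_cancel, ← fourier_add]
    push_cast
    rfl
  have hW0 : ∀ m, 0 ≤ W m := fun m => norm_nonneg _
  -- split
  have hsplit : ∑ m ∈ Icc 1 N, (1 / (m : ℝ)) * W m =
      ∑ m ∈ Icc 1 H, (1 / (m : ℝ)) * W m + ∑ m ∈ Ioc H N, (1 / (m : ℝ)) * W m := by
    have e1 : Icc 1 N = Icc 1 H ∪ Ioc H N := by
      ext j; simp only [mem_union, mem_Icc, mem_Ioc]; omega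
    rw [e1, sum_union]
    rw [disjoint_left]
    intro j h1 h2
    rw [mem_Icc] at h1
    rw [mem_Ioc] at h2
    omega
  -- the first part
  have hp1 : ∑ m ∈ Icc 1 H, (1 / (m : ℝ)) * W m ≤ ε / 2 * H * Real.log N := by
    have h1 : ∀ m ∈ Icc 1 H, (1 / (m : ℝ)) * W m ≤ (1 / (m : ℝ)) * (ε / 4 * H) := by
      intro m hm
      rw [mem_Icc] at hm
      exact mul_le_mul_of_nonneg_left (hH₁ H b2 m hm.2 _) (by positivity)
    refine (sum_le_sum h1).trans ?_
    rw [← sum_mul]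
    have h2 : ∑ m ∈ Icc 1 H, 1 / (m : ℝ) ≤ 1 + Real.log H := H_le H
    calc (∑ m ∈ Icc 1 H, 1 / (m : ℝ)) * (ε / 4 * H) ≤ (2 * Real.log N) * (ε / 4 * H) := by
          apply mul_le_mul_of_nonneg_right _ (by positivity)
          linarith
      _ = _ := by ring
  -- the second part
  have hp2 : ∑ m ∈ Ioc H N, (1 / (m : ℝ)) * W m ≤ ε / 2 * H * Real.log N := by
    set D : ℕ → ℕ → ℕ → ℂ := fun j m h => A (m - j) (j + h) with hD
    have hDf : ∀ j m, D j m ∈ fam K := fun j m => shift_mem fam_shift (hAf (m - j)) j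
    have h1 : ∀ m ∈ Ioc H N, (L:ℝ) * ((1 / (m : ℝ)) * W m) ≤
        ∑ j ∈ range H, (1 / (m : ℝ)) * wv f (D j) 0 L (m + 1 + j) + (1 / (m:ℝ)) * (2 * L * L) := by
      intro m _
      rw [hWw m, ← mul_sum, ← mul_add]
      have h2 := comb_var hf1 A hA1 0 L H (m + 1)
      calc (L:ℝ) * ((1 / (m : ℝ)) * wv f A 0 H (m + 1)) =
            (1 / (m : ℝ)) * ((L:ℝ) * wv f A 0 H (m + 1)) := by ring
        _ ≤ (1 / (m : ℝ)) * (∑ j ∈ range H, wv f (D j) 0 L (m + 1 + j) + 2 * 1 * L * L) :=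
            mul_le_mul_of_nonneg_left h2 (by positivity)
        _ = _ := by ring
    have h2 : ∀ j ∈ range H, ∑ m ∈ Ioc H N, (1 / (m : ℝ)) * wv f (D j) 0 L (m + 1 + j) ≤
        2 * (5 * (ε / 100) * L * (2 * Real.log N)) := by
      intro j hj
      rw [mem_range] at hj
      have h3 : ∀ m ∈ Ioc H N, (1 / (m : ℝ)) * wv f (D j) 0 L (m + 1 + j) ≤
          2 * ((1 / ((m + 1 + j : ℕ) : ℝ)) * wv f (D j) 0 L (m + 1 + j)) := by
        intro m hm
        rw [mem_Ioc] at hm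
        rw [← mul_assoc]
        apply mul_le_mul_of_nonneg_right _ (wv_nonneg _ _ _ _ _)
        have h4 : ((m + 1 + j : ℕ) : ℝ) ≤ 2 * m := by exact_mod_cast (by omega : m + 1 + j ≤ 2 * m)
        have h5 : (0:ℝ) < m := by exact_mod_cast (by omega : 0 < m)
        have h6 : (0:ℝ) < ((m + 1 + j : ℕ) : ℝ) := by positivity
        rw [mul_one_div, div_le_div_iff₀ h5 h6]
        linarith
      refine (sum_le_sum h3).trans ?_
      rw [← mul_sum]
      apply mul_le_mul_of_nonneg_left _ (by norm_num)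
      have h4 : ∑ m ∈ Ioc H N, (1 / ((m + 1 + j : ℕ) : ℝ)) * wv f (D j) 0 L (m + 1 + j) ≤
          S (wv f (D j) 0 L) (N + H) := by
        unfold S
        rw [← sum_image (s := Ioc H N) (g := fun m => m + 1 + j)
          (f := fun i : ℕ => (1 / (i : ℝ)) * wv f (D j) 0 L i) (fun a _ b _ hab => by
            have : a + 1 + j = b + 1 + j := hab
            omega)]
        apply sum_le_sum_of_subset_of_nonneg
        · intro i hi
          rw [mem_image] at hi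
          obtain ⟨m, hm, rfl⟩ := hi
          rw [mem_Ioc] at hm
          rw [mem_Icc]
          omega
        · intro i _ _
          exact mul_nonneg (by positivity) (wv_nonneg _ _ _ _ _)
      have h5 := hN₀ (N + H) (b1.trans (by omega)) (fam K) hfac (D j) (hDf j) 0
      have h6 : Real.log ((N + H : ℕ) : ℝ) ≤ 2 * Real.log N := by
        have hN3 : (3:ℝ) ≤ N := by exact_mod_cast b4.trans hHN
        have h7 : ((N + H : ℕ) : ℝ) ≤ (N:ℝ) ^ 2 := by
          have : (H:ℝ) ≤ N := by exact_mod_cast hHN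
          push_cast
          nlinarith
        have h8 := Real.log_le_log (by positivity) h7
        rw [Real.log_pow] at h8
        exact_mod_cast h8
      refine h4.trans (h5.trans ?_)
      apply mul_le_mul_of_nonneg_left h6 (by positivity)
    have h3 : (L:ℝ) * ∑ m ∈ Ioc H N, (1 / (m : ℝ)) * W m ≤
        H * (2 * (5 * (ε / 100) * L * (2 * Real.log N))) + 2 * Real.log N * (2 * L * L) := by
      rw [mul_sum]
      refine (sum_le_sum h1).trans ?_
      rw [sum_add_distrib, sum_comm, ← sum_mul]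
      apply add_le_add
      · refine (sum_le_sum h2).trans ?_
        rw [sum_const, card_range, nsmul_eq_mul]
      · apply mul_le_mul_of_nonneg_right _ (by positivity)
        have h4 : ∑ m ∈ Ioc H N, 1 / (m : ℝ) ≤ ∑ m ∈ Icc 1 N, 1 / (m : ℝ) := by
          apply sum_le_sum_of_subset_of_nonneg
          · intro i hi
            rw [mem_Ioc] at hi
            rw [mem_Icc]
            omega
          · intro i _ _; positivity
        have h5 : ∑ m ∈ Icc 1 N, 1 / (m : ℝ) ≤ 1 + Real.log N := H_le N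
        linarith
    have h4 : (L:ℝ) * ∑ m ∈ Ioc H N, (1 / (m : ℝ)) * W m ≤ L * (ε / 2 * H * Real.log N) := by
      refine h3.trans ?_
      have h5 : H * (2 * (5 * (ε / 100) * L * (2 * Real.log N))) + 2 * Real.log N * (2 * L * L) =
          L * (Real.log N * (ε / 5 * H + 4 * L)) := by ring
      rw [h5]
      apply mul_le_mul_of_nonneg_left _ hL0.le
      have h6 : ε / 5 * H + 4 * L ≤ ε / 2 * H := by linarith
      calc Real.log N * (ε / 5 * H + 4 * L) ≤ Real.log N * (ε / 2 * H) := by gcongr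
        _ = _ := by ring
    exact le_of_mul_le_mul_left h4 hL0
  show ∑ m ∈ Icc 1 N, (1 / (m : ℝ)) * W m ≤ _
  rw [hsplit]
  linarith

end Pool.Agent.R378.NF
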