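import Pool.Agent.R378.NF2

/-!
# Closed sets of small measure are covered by few arcs
-/

set_option autoImplicit false

namespace Pool.Agent.R378.NF

open Finset Filter Topology MeasureTheory Metric

/-- separated finite subsets of sets of small measure are small -/
lemma sep_card (K : Set UnitAddCircle) (κ : ℝ) (n : ℕ) (hn : 1 ≤ n)
    (hK : volume (cthickening (1 / (2 * n)) K) ≤ ENNReal.ofReal κ) (hκ : 0 ≤ κ)
    (S : Finset UnitAddCircle) (hS : ∀ y ∈ S, y ∈ K)
    (hsep : ∀ y ∈ S, ∀ z ∈ S, y ≠ z → 1 / (n : ℝ) < dist y z) : (S.card : ℝ) ≤ κ * n := by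
  have hn0 : (0:ℝ) < n := by exact_mod_cast hn
  have hball : ∀ y : UnitAddCircle, volume (ball y (1 / (2 * n))) = ENNReal.ofReal (1 / n) := by
    intro y
    rw [← measure_congr (AddCircle.closedBall_ae_eq_ball), AddCircle.volume_closedBall]
    congr 1
    rw [min_eq_right]
    · field_simp
    · have : 2 * (1 / (2 * (n:ℝ))) = 1 / n := by field_simp
      rw [this, div_le_one hn0]
      exact_mod_cast hn
  have hdis : (S : Set UnitAddCircle).PairwiseDisjoint (fun y => ball y (1 / (2 * (n:ℝ)))) := by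
    intro y hy z hz hyz
    apply ball_disjoint_ball
    have := hsep y hy z hz hyz
    have e : 1 / (2 * (n:ℝ)) + 1 / (2 * n) = 1 / n := by field_simp; norm_num
    rw [e]
    exact this.le
  have hsub : (⋃ y ∈ S, ball y (1 / (2 * (n:ℝ)))) ⊆ cthickening (1 / (2 * n)) K := by
    intro x hx
    simp only [Set.mem_iUnion] at hx
    obtain ⟨y, hy, hx⟩ := hx
    exact mem_cthickening_of_dist_le x y _ K (hS y hy) (le_of_lt hx)
  have h1 : volume (⋃ y ∈ S, ball y (1 / (2 * (n:ℝ)))) = S.card * ENNReal.ofReal (1 / n) := by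
    rw [measure_biUnion_finset hdis (fun y _ => measurableSet_ball)]
    simp only [hball]
    rw [Finset.sum_const, nsmul_eq_mul]
  have h2 : (S.card : ENNReal) * ENNReal.ofReal (1 / n) ≤ ENNReal.ofReal κ := by
    rw [← h1]
    exact (measure_mono hsub).trans hK
  rw [← ENNReal.ofReal_natCast, ← ENNReal.ofReal_mul (Nat.cast_nonneg _),
    ENNReal.ofReal_le_ofReal_iff hκ, mul_one_div, div_le_iff₀ hn0] at h2
  exact h2

/-- closed sets of small measure are thin at all small scales -/
theorem thin_of_measure (K : Set UnitAddCircle) (hK : IsClosed K) (κ : ℝ)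
    (h : volume K < ENNReal.ofReal κ) : ∃ n₀ : ℕ, ∀ n : ℕ, n₀ ≤ n → Thin1 K κ n := by
  classical
  have hκ : 0 < κ := by
    by_contra hcon
    rw [ENNReal.ofReal_of_nonpos (not_lt.1 hcon)] at h
    exact absurd h (by simp)
  have h1 := (tendsto_measure_cthickening_of_isCompact (μ := volume) hK.isCompact).eventually_lt_const h
  obtain ⟨δ, hδ, h2⟩ := Metric.eventually_nhds_iff.1 h1
  obtain ⟨n₁, hn₁⟩ := exists_nat_gt (1 / δ)
  refine ⟨max n₁ 1, fun n hn => ?_⟩
  have hn1 : 1 ≤ n := (le_max_right _ _).trans hn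
  have hn0 : (0:ℝ) < n := by exact_mod_cast hn1
  have hnδ : 1 / δ < n := lt_of_lt_of_le hn₁ (by exact_mod_cast (le_max_left _ _).trans hn)
  have hr : 1 / (2 * (n:ℝ)) < δ := by
    rw [div_lt_iff₀ hδ] at hnδ
    rw [div_lt_iff₀ (by positivity)]
    nlinarith
  have hm : volume (cthickening (1 / (2 * (n:ℝ))) K) ≤ ENNReal.ofReal κ := by
    apply le_of_lt
    apply h2
    rw [Real.dist_eq, sub_zero, abs_of_pos (by positivity)]
    exact hr
  by_contra hcon
  have key : ∀ k : ℕ, ∃ S : Finset UnitAddCircle, S.card = k ∧ (∀ y ∈ S, y ∈ K) ∧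
      ∀ y ∈ S, ∀ z ∈ S, y ≠ z → 1 / (n : ℝ) < dist y z := by
    intro k
    induction k with
    | zero => exact ⟨∅, rfl, by simp, by simp⟩
    | succ k ih =>
      obtain ⟨S, hS1, hS2, hS3⟩ := ih
      have hc := sep_card K κ n hn1 hm hκ.le S hS2 hS3
      have h3 : ¬ ∀ α ∈ K, ∃ y ∈ S, dist α y ≤ 1 / n := fun h3 => hcon ⟨S, hc, h3⟩
      push Not at h3
      obtain ⟨α, hα, h4⟩ := h3
      have hαS : α ∉ S := by
        intro h5
        have := h4 α h5
        rw [dist_self] at this
        have : (0:ℝ) < 1 / n := by positivity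
        linarith
      refine ⟨insert α S, by rw [card_insert_of_notMem hαS, hS1], ?_, ?_⟩
      · intro y hy
        rw [mem_insert] at hy
        rcases hy with rfl | hy
        · exact hα
        · exact hS2 y hy
      · intro y hy z hz hyz
        rw [mem_insert] at hy hz
        rcases hy with rfl | hy <;> rcases hz with rfl | hz
        · exact absurd rfl hyz
        · exact h4 z hz
        · rw [dist_comm]; exact h4 y hy
        · exact hS3 y hy z hz hyz
  obtain ⟨k, hk⟩ := exists_nat_gt (κ * n)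
  obtain ⟨S, hS1, hS2, hS3⟩ := key k
  have hc := sep_card K κ n hn1 hm hκ.le S hS2 hS3
  rw [hS1] at hc
  linarith

end Pool.Agent.R378.NF
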