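import Pool.Agent.R378.NF3
import Pool.Agent.Results.MP_663568_nt.SmallFrequencySets

/-!
# Reduction of the window sums on a torus to characters
-/

set_option autoImplicit false

namespace Pool.Agent.R378.NF

open Finset Filter Topology MeasureTheory UnitAddTorus
open Pool.Agent.TH327.Dim (lin mF_rot evT evT_le muf muf_le)
open Pool.Agent.Results.MP_663568_nt.SmallFrequencySets (windowSup choose_near)

lemma harm_le (N : ℕ) : ∑ n ∈ Icc 1 N, 1 / (n : ℝ) ≤ 1 + Real.log N := Pool.Agent.TH833.BL.H_le N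

lemma Thin1.mono {K : Set UnitAddCircle} {κ κ' : ℝ} {n : ℕ} (h : Thin1 K κ n) (hκ : κ ≤ κ') : Thin1 K κ' n := by
  obtain ⟨S, hS, hc⟩ := h
  exact ⟨S, hS.trans (mul_le_mul_of_nonneg_right hκ (Nat.cast_nonneg _)), hc⟩

/-- the reduction to characters -/
theorem core {d : ℕ} (f : C(Fin d → UnitAddCircle, ℂ)) (ε : ℝ) (hε : 0 < ε) :
    ∃ (T : Finset (Fin d → ℤ)) (η : ℝ), 0 < η ∧ ∀ nn : (Fin d → ℤ) → ℕ, (∀ k, 7 ≤ nn k) →
      ∃ H₀ : ℕ, ∀ N H : ℕ, H₀ ≤ H → H ≤ N → ∀ E : Set (Fin d → UnitAddCircle),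
        (∀ k ∈ T, Thin1 (lin k '' E) η (nn k)) →
        ∑ m ∈ Icc 1 N, (1 / (m : ℝ)) * windowSup E f m H ≤ ε * H * Real.log N := by
  classical
  have hcl : f ∈ (Submodule.span ℂ (Set.range (mFourier (d := Fin d)))).topologicalClosure := by
    rw [span_mFourier_closure_eq_top]; trivial
  have hcl2 : f ∈ closure ((Submodule.span ℂ (Set.range (mFourier (d := Fin d))) :
      Submodule ℂ C(UnitAddTorus (Fin d), ℂ)) : Set C(UnitAddTorus (Fin d), ℂ)) := hcl
  obtain ⟨P, hP, hPd⟩ := Metric.mem_closure_iff.1 hcl2 (ε / 8) (by positivity)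
  rw [dist_eq_norm] at hPd
  obtain ⟨c, hc⟩ := (Finsupp.mem_span_range_iff_exists_finsupp).1 hP
  set T : Finset (Fin d → ℤ) := c.support with hT
  set M : ℝ := ∑ k ∈ T, ‖c k‖ + 1 with hM
  have hM0 : 0 < M := by
    have : 0 ≤ ∑ k ∈ T, ‖c k‖ := Finset.sum_nonneg fun _ _ => norm_nonneg _
    rw [hM]; linarith
  set ε' : ℝ := ε / (4 * M) with hε'
  have hε'0 : 0 < ε' := by positivity
  refine ⟨T, (ε' / 1024) ^ 2, by positivity, fun nn hnn => ?_⟩
  choose H1 hH1 using fun k : Fin d → ℤ => char_main ε' hε'0 (nn k) (hnn k)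
  refine ⟨max (T.sup H1) 3, fun N H hH hHN E hE => ?_⟩
  have b3 : 3 ≤ H := le_trans (le_max_right _ _) hH
  have hHr : (0 : ℝ) < H := by exact_mod_cast (by omega : 0 < H)
  have hNr : (3 : ℝ) ≤ N := by exact_mod_cast b3.trans hHN
  have hlog : 1 ≤ Real.log N := by
    rw [Real.le_log_iff_exp_le (by linarith)]
    linarith [Real.exp_one_lt_d9]
  rcases E.eq_empty_or_nonempty with hem | hne
  · subst hem
    have h0 : ∀ n, windowSup (∅ : Set (Fin d → UnitAddCircle)) f n H = 0 := fun n => Real.iSup_of_isEmpty _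
    simp only [h0, mul_zero, sum_const_zero]
    positivity
  choose ω hω1 hω2 using fun n => choose_near E f n H hne (ε / 8 * H) (by positivity)
  have hchar : ∀ k ∈ T, ∑ m ∈ Icc 1 N, (1 / (m : ℝ)) *
      ‖∑ j ∈ Ioc m (m + H), mm j * fourier (j : ℤ) (lin k (ω m).1)‖ ≤ ε' * H * Real.log N := by
    intro k hk
    exact hH1 k N H ((le_trans (Finset.le_sup hk) (le_max_left _ _)).trans hH) hHN (lin k '' E)
      (hE k hk) (fun m => lin k (ω m).1) (fun m => Set.mem_image_of_mem _ (hω1 m))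
  have hpt : ∀ m : ℕ, windowSup E f m H ≤ ∑ k ∈ T, ‖c k‖ *
      ‖∑ j ∈ Ioc m (m + H), mm j * fourier (j : ℤ) (lin k (ω m).1)‖ + ε / 4 * H := by
    intro m
    refine (hω2 m).trans ?_
    have e1 : ∑ j ∈ Ioc m (m + H), muf j * evT (ω m) j f =
        ∑ j ∈ Ioc m (m + H), muf j * evT (ω m) j P + ∑ j ∈ Ioc m (m + H), muf j * evT (ω m) j (f - P) := by
      rw [← sum_add_distrib]
      refine sum_congr rfl fun j _ => ?_
      rw [← mul_add, map_sub, add_sub_cancel]
    have e2 : ‖∑ j ∈ Ioc m (m + H), muf j * evT (ω m) j (f - P)‖ ≤ ε / 8 * H := by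
      refine (norm_sum_le _ _).trans ?_
      calc ∑ j ∈ Ioc m (m + H), ‖muf j * evT (ω m) j (f - P)‖ ≤ ∑ _j ∈ Ioc m (m + H), ε / 8 := by
            refine sum_le_sum fun j _ => ?_
            rw [norm_mul]
            calc ‖muf j‖ * ‖evT (ω m) j (f - P)‖ ≤ 1 * (ε / 8) :=
                  mul_le_mul (muf_le j) ((evT_le _ _ _).trans hPd.le) (norm_nonneg _) zero_le_one
              _ = ε / 8 := one_mul _
        _ = ε / 8 * H := by
            rw [sum_const, Nat.card_Ioc, nsmul_eq_mul, Nat.add_sub_cancel_left, mul_comm]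
    have e3 : ∑ j ∈ Ioc m (m + H), muf j * evT (ω m) j P =
        ∑ k ∈ T, c k * ((mFourier k (ω m).2 : ℂ) *
          ∑ j ∈ Ioc m (m + H), mm j * fourier (j : ℤ) (lin k (ω m).1)) := by
      have e4 : ∀ j, evT (ω m) j P = ∑ k ∈ T, c k * ((mFourier k (ω m).2 : ℂ) * fourier (j : ℤ) (lin k (ω m).1)) := by
        intro j
        rw [← hc, Finsupp.sum, map_sum]
        refine sum_congr rfl fun k _ => ?_
        rw [map_smul, smul_eq_mul]
        congr 1
        exact mF_rot k (ω m).1 (ω m).2 j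
      simp_rw [e4, mul_sum]
      rw [sum_comm]
      refine sum_congr rfl fun k _ => sum_congr rfl fun j _ => ?_
      show mm j * _ = _
      ring
    have e5 : ‖∑ j ∈ Ioc m (m + H), muf j * evT (ω m) j P‖ ≤ ∑ k ∈ T, ‖c k‖ *
        ‖∑ j ∈ Ioc m (m + H), mm j * fourier (j : ℤ) (lin k (ω m).1)‖ := by
      rw [e3]
      refine (norm_sum_le _ _).trans (sum_le_sum fun k _ => ?_)
      rw [norm_mul, norm_mul]
      have h1 : ‖(mFourier k (ω m).2 : ℂ)‖ ≤ 1 :=
        ((mFourier k).norm_coe_le_norm _).trans (le_of_eq mFourier_norm)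
      have h2 : ‖(mFourier k (ω m).2 : ℂ)‖ *
          ‖∑ j ∈ Ioc m (m + H), mm j * fourier (j : ℤ) (lin k (ω m).1)‖ ≤
          1 * ‖∑ j ∈ Ioc m (m + H), mm j * fourier (j : ℤ) (lin k (ω m).1)‖ :=
        mul_le_mul_of_nonneg_right h1 (norm_nonneg _)
      rw [one_mul] at h2
      exact mul_le_mul_of_nonneg_left h2 (norm_nonneg _)
    rw [e1]
    have e6 := norm_add_le (∑ j ∈ Ioc m (m + H), muf j * evT (ω m) j P)
      (∑ j ∈ Ioc m (m + H), muf j * evT (ω m) j (f - P))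
    linarith
  calc ∑ m ∈ Icc 1 N, (1 / (m : ℝ)) * windowSup E f m H
      ≤ ∑ m ∈ Icc 1 N, (1 / (m : ℝ)) * (∑ k ∈ T, ‖c k‖ *
        ‖∑ j ∈ Ioc m (m + H), mm j * fourier (j : ℤ) (lin k (ω m).1)‖ + ε / 4 * H) :=
        sum_le_sum fun m _ => mul_le_mul_of_nonneg_left (hpt m) (by positivity)
    _ = ∑ k ∈ T, ‖c k‖ * ∑ m ∈ Icc 1 N, (1 / (m : ℝ)) *
        ‖∑ j ∈ Ioc m (m + H), mm j * fourier (j : ℤ) (lin k (ω m).1)‖ +
        (∑ m ∈ Icc 1 N, (1 / (m : ℝ))) * (ε / 4 * H) := by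
        simp_rw [mul_add, sum_add_distrib, mul_sum]
        rw [sum_comm, sum_mul]
        congr 1
        refine sum_congr rfl fun k _ => sum_congr rfl fun m _ => ?_
        ring
    _ ≤ ∑ k ∈ T, ‖c k‖ * (ε' * H * Real.log N) + (1 + Real.log N) * (ε / 4 * H) := by
        apply add_le_add
        · exact sum_le_sum fun k hk => mul_le_mul_of_nonneg_left (hchar k hk) (norm_nonneg _)
        · exact mul_le_mul_of_nonneg_right (harm_le N) (by positivity)
    _ ≤ M * (ε' * H * Real.log N) + (2 * Real.log N) * (ε / 4 * H) := by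
        apply add_le_add
        · rw [← sum_mul]
          apply mul_le_mul_of_nonneg_right _ (by positivity)
          rw [hM]; linarith
        · apply mul_le_mul_of_nonneg_right _ (by positivity)
          linarith
    _ = (3 / 4) * (ε * H * Real.log N) := by
        rw [hε']
        field_simp
        ring
    _ ≤ ε * H * Real.log N := by
        have : 0 ≤ ε * H * Real.log N := by positivity
        linarith

/-- images of thin sets under characters -/
lemma thin_lin {d : ℕ} {E : Set (Fin d → UnitAddCircle)} {κ η : ℝ} {n M : ℕ} (k : Fin d → ℤ)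
    (hM : ∑ i, (k i).natAbs < M) (hn : M ≤ n) (hη : 0 ≤ η) (hκ : 2 * M * κ ≤ η)
    (S : Finset (Fin d → UnitAddCircle)) (hS : (S.card : ℝ) ≤ κ * n)
    (hcov : ∀ g ∈ E, ∃ y ∈ S, dist g y ≤ 1 / n) : Thin1 (lin k '' E) η (n / M) := by
  classical
  have hM1 : 1 ≤ M := by omega
  have hMr : (0:ℝ) < M := by exact_mod_cast hM1
  have hq1 : 1 ≤ n / M := (Nat.one_le_div_iff hM1).2 hn
  have hqr : (0:ℝ) < ((n / M : ℕ) : ℝ) := by exact_mod_cast hq1
  have hnr : (0:ℝ) < n := by exact_mod_cast (hM1.trans hn)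
  have hqM : (M:ℝ) * ((n / M : ℕ) : ℝ) ≤ n := by exact_mod_cast Nat.mul_div_le n M
  have hnq : (n:ℝ) ≤ 2 * M * ((n / M : ℕ) : ℝ) := by
    have h1 : n < M * (n / M + 1) := Nat.lt_mul_div_succ n hM1
    have h2 : M * (n / M + 1) ≤ 2 * M * (n / M) := by nlinarith
    exact_mod_cast h1.le.trans h2
  refine ⟨S.image (lin k), ?_, ?_⟩
  · have h1 : ((S.image (lin k)).card : ℝ) ≤ S.card := by exact_mod_cast card_image_le
    rcases le_or_gt 0 κ with h0 | h0
    · calc ((S.image (lin k)).card : ℝ) ≤ κ * n := h1.trans hS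
        _ ≤ κ * (2 * M * ((n / M : ℕ) : ℝ)) := mul_le_mul_of_nonneg_left hnq h0
        _ = (2 * M * κ) * ((n / M : ℕ) : ℝ) := by ring
        _ ≤ η * ((n / M : ℕ) : ℝ) := mul_le_mul_of_nonneg_right hκ hqr.le
    · calc ((S.image (lin k)).card : ℝ) ≤ κ * n := h1.trans hS
        _ ≤ 0 := mul_nonpos_of_nonpos_of_nonneg h0.le hnr.le
        _ ≤ η * ((n / M : ℕ) : ℝ) := by positivity
  · rintro _ ⟨g, hg, rfl⟩
    obtain ⟨y, hy, hd⟩ := hcov g hg
    refine ⟨lin k y, mem_image_of_mem _ hy, ?_⟩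
    rw [dist_eq_norm]
    have h2 : lin k g - lin k y = ∑ i, k i • (g i - y i) := by
      unfold lin
      rw [← sum_sub_distrib]
      exact sum_congr rfl fun i _ => by rw [zsmul_sub]
    rw [h2]
    have h3 : ∀ i, ‖g i - y i‖ ≤ 1 / (n : ℝ) := by
      intro i
      rw [← dist_eq_norm]
      exact (dist_le_pi_dist g y i).trans hd
    calc ‖∑ i, k i • (g i - y i)‖ ≤ ∑ i, ‖k i • (g i - y i)‖ := norm_sum_le _ _
      _ ≤ ∑ i, ((k i).natAbs : ℝ) * (1 / (n : ℝ)) := by
          refine sum_le_sum fun i _ => ?_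
          refine (norm_zsmul_le _ _).trans ?_
          rw [Int.norm_eq_abs, ← Int.cast_abs, Int.abs_eq_natAbs, Int.cast_natCast]
          exact mul_le_mul_of_nonneg_left (h3 i) (Nat.cast_nonneg _)
      _ = ((∑ i, (k i).natAbs : ℕ) : ℝ) * (1 / (n : ℝ)) := by rw [← sum_mul]; push_cast; rfl
      _ ≤ (M : ℝ) * (1 / (n : ℝ)) := by
          apply mul_le_mul_of_nonneg_right _ (by positivity)
          exact_mod_cast hM.le
      _ ≤ 1 / ((n / M : ℕ) : ℝ) := by
          rw [mul_one_div, div_le_div_iff₀ hnr hqr, one_mul]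
          exact hqM

end Pool.Agent.R378.NF
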