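import Pool.Agent.R378.VD

/-!
# The domination theorem
-/

set_option autoImplicit false

namespace Pool.Agent.R378.VD

open Finset MeasureTheory Metric Filter
open Pool.Agent.R378.NF (fourier_add_arg norm_fourier exists_real)

lemma pt_dist (M : ℕ) (hM : 1 ≤ M) (j k : ℕ) (hj : j < M) (hk : k < M) (hjk : j ≠ k) :
    1 / (M : ℝ) ≤ dist (pt M j) (pt M k) := by
  have hM0 : (0 : ℝ) < M := by exact_mod_cast hM
  have e : pt M j - pt M k = ((((j : ℝ) - k) / M : ℝ) : UnitAddCircle) := by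
    unfold pt
    rw [← AddCircle.coe_sub]
    congr 1
    ring
  rw [dist_eq_norm, e, UnitAddCircle.norm_eq]
  set r : ℤ := round (((j : ℝ) - k) / M) with hr
  have h1 : (((j : ℝ) - k) / M - r) = (((j : ℤ) - k - M * r : ℤ) : ℝ) / M := by
    push_cast
    field_simp
  rw [h1, abs_div, abs_of_pos hM0]
  apply div_le_div_of_nonneg_right _ hM0.le
  have h2 : (j : ℤ) - k - M * r ≠ 0 := by
    intro h
    have h3 : (j : ℤ) - k = M * r := by linarith
    have h4 : |(j : ℤ) - k| < M := by rw [abs_lt]; omega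
    rw [h3, abs_mul, Nat.abs_cast] at h4
    have h5 : r ≠ 0 := by
      rintro h6
      rw [h6, mul_zero] at h3
      omega
    have h6 : 1 ≤ |r| := Int.one_le_abs h5
    have h7 : (M : ℤ) ≤ M * |r| := le_mul_of_one_le_right (by positivity) h6
    omega
  have h3 : 1 ≤ |(j : ℤ) - k - M * r| := Int.one_le_abs h2
  exact_mod_cast h3

/-- the number of the points near a set of small measure -/
lemma count (K : Set UnitAddCircle) (κ δ : ℝ) (hκ : 0 ≤ κ) (M : ℕ) (hM : 1 ≤ M)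
    (hMδ : 1 / (2 * (M : ℝ)) ≤ δ) (hv : volume (cthickening (2 * δ) K) ≤ ENNReal.ofReal κ)
    (J : Finset ℕ) (hJ : ∀ j ∈ J, j < M ∧ ∃ y ∈ K, dist (pt M j) y ≤ δ) : (J.card : ℝ) ≤ κ * M := by
  have hM0 : (0:ℝ) < M := by exact_mod_cast hM
  have hball : ∀ y : UnitAddCircle, volume (ball y (1 / (2 * (M:ℝ)))) = ENNReal.ofReal (1 / M) := by
    intro y
    rw [← measure_congr (AddCircle.closedBall_ae_eq_ball), AddCircle.volume_closedBall]
    congr 1
    rw [min_eq_right]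
    · field_simp
    · have : 2 * (1 / (2 * (M:ℝ))) = 1 / M := by field_simp
      rw [this, div_le_one hM0]
      exact_mod_cast hM
  have hdis : (J : Set ℕ).PairwiseDisjoint (fun j => ball (pt M j) (1 / (2 * (M:ℝ)))) := by
    intro j hj k hk hjk
    apply ball_disjoint_ball
    have h1 := pt_dist M hM j k (hJ j hj).1 (hJ k hk).1 hjk
    have e : 1 / (2 * (M:ℝ)) + 1 / (2 * M) = 1 / M := by field_simp; norm_num
    rw [e]
    exact h1
  have hsub : (⋃ j ∈ J, ball (pt M j) (1 / (2 * (M:ℝ)))) ⊆ cthickening (2 * δ) K := by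
    intro x hx
    simp only [Set.mem_iUnion] at hx
    obtain ⟨j, hj, hx⟩ := hx
    obtain ⟨-, y, hy, hd⟩ := hJ j hj
    apply mem_cthickening_of_dist_le x y _ K hy
    rw [mem_ball] at hx
    have := dist_triangle x (pt M j) y
    linarith
  have h1 : volume (⋃ j ∈ J, ball (pt M j) (1 / (2 * (M:ℝ)))) = J.card * ENNReal.ofReal (1 / M) := by
    rw [measure_biUnion_finset hdis (fun y _ => measurableSet_ball)]
    simp only [hball]
    rw [Finset.sum_const, nsmul_eq_mul]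
  have h2 : (J.card : ENNReal) * ENNReal.ofReal (1 / M) ≤ ENNReal.ofReal κ := by
    rw [← h1]
    exact (measure_mono hsub).trans hv
  rw [← ENNReal.ofReal_natCast, ← ENNReal.ofReal_mul (Nat.cast_nonneg _),
    ENNReal.ofReal_le_ofReal_iff hκ, mul_one_div, div_le_iff₀ hM0] at h2
  exact h2

/-- **The domination theorem.** -/
theorem dominate (K : Set UnitAddCircle) (hK : IsClosed K) (κ : ℝ) (h : volume K < ENNReal.ofReal κ) :
    ∃ L₀ : ℕ, 1 ≤ L₀ ∧ ∀ L : ℕ, L₀ ≤ L → ∃ (M : ℕ) (c : ℕ → EuclideanSpace ℂ (Fin M)),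
      ∑ h ∈ range L, ‖c h‖ ^ 2 ≤ κ * L ^ 2 ∧ ∀ α ∈ K, ∀ v : ℕ → ℂ,
        ‖∑ h ∈ range L, v h * fourier (h : ℤ) α‖ ≤ ‖∑ h ∈ range L, v h • c h‖ := by
  classical
  have hκ : 0 < κ := by
    by_contra hcon
    rw [ENNReal.ofReal_of_nonpos (not_lt.1 hcon)] at h
    exact absurd h (by simp)
  obtain ⟨κ', hκ'0, hκ'1, hκ'2⟩ : ∃ κ' : ℝ, 0 ≤ κ' ∧ volume K < ENNReal.ofReal κ' ∧ κ' < κ := by
    obtain ⟨r, hr1, hr2⟩ := exists_between h
    have hr3 : r ≠ ⊤ := ne_top_of_lt hr2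
    refine ⟨r.toReal, ENNReal.toReal_nonneg, ?_, ?_⟩
    · rw [ENNReal.ofReal_toReal hr3]; exact hr1
    · exact (ENNReal.lt_ofReal_iff_toReal_lt hr3).1 hr2
  -- the width
  have h1 := (tendsto_measure_cthickening_of_isCompact (μ := volume) hK.isCompact).eventually_lt_const hκ'1
  obtain ⟨δ₁, hδ₁, h2⟩ := Metric.eventually_nhds_iff.1 h1
  set δ : ℝ := δ₁ / 4 with hδ
  have hδ0 : 0 < δ := by positivity
  have hv : volume (cthickening (2 * δ) K) ≤ ENNReal.ofReal κ' := by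
    apply le_of_lt
    apply h2
    rw [Real.dist_eq, sub_zero, abs_of_pos (by positivity)]
    rw [hδ]
    linarith
  -- the parameters
  set s : ℝ := min 1 ((κ - κ') / (2 + κ')) with hs
  have hs0 : 0 < s := lt_min one_pos (div_pos (by linarith) (by linarith))
  have hs1 : s ≤ 1 := min_le_left _ _
  have hs2 : (κ' + s) * (1 + s) ≤ κ := by
    have h3 : s ≤ (κ - κ') / (2 + κ') := min_le_right _ _
    rw [le_div_iff₀ (by linarith)] at h3
    nlinarith
  obtain ⟨l, hl⟩ := exists_nat_ge (max 1 (1 / (4 * δ ^ 2 * s)))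
  have hl1 : (1:ℝ) ≤ l := (le_max_left _ _).trans hl
  have hl2 : 1 / (4 * δ ^ 2 * s) ≤ l := (le_max_right _ _).trans hl
  have hl0 : 1 ≤ l := by exact_mod_cast hl1
  obtain ⟨L₀, hL₀⟩ := exists_nat_ge (max 1 (max (l / s) (1 / (2 * δ))))
  refine ⟨L₀, by exact_mod_cast (le_max_left _ _).trans hL₀, fun L hL => ?_⟩
  have hLr : (L₀ : ℝ) ≤ L := by exact_mod_cast hL
  have hL1 : (1:ℝ) ≤ L := ((le_max_left _ _).trans hL₀).trans hLr
  have hL2 : (l:ℝ) / s ≤ L := (((le_max_left _ _).trans (le_max_right _ _)).trans hL₀).trans hLr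
  have hL3 : 1 / (2 * δ) ≤ L := (((le_max_right _ _).trans (le_max_right _ _)).trans hL₀).trans hLr
  have hLn : 1 ≤ L := by exact_mod_cast hL1
  rw [div_le_iff₀ hs0] at hL2
  rw [div_le_iff₀ (by positivity)] at hL3
  set M : ℕ := L + l with hM
  have hM1 : 1 ≤ M := by omega
  have hMr : (M:ℝ) = L + l := by rw [hM]; push_cast; ring
  have hM0 : (0:ℝ) < M := by exact_mod_cast hM1
  have hMδ : 1 / (2 * (M : ℝ)) ≤ δ := by
    rw [div_le_iff₀ (by positivity), hMr]
    nlinarith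
  set w : ℕ → ℝ := fun j => if ∃ y ∈ K, dist (pt M j) y ≤ δ then 1 else s with hw
  have hw0 : ∀ j, 0 ≤ w j := by
    intro j
    simp only [hw]
    split_ifs
    · exact zero_le_one
    · exact hs0.le
  have hwD : ∀ α ∈ K, ∀ j, ‖D l (α - pt M j)‖ ^ 2 ≤ l ^ 2 * w j := by
    intro α hα j
    simp only [hw]
    split_ifs with hj
    · rw [mul_one]
      exact pow_le_pow_left₀ (norm_nonneg _) (D_le _ _) 2
    · push Not at hj
      have h3 := hj α hα
      have h4 := D_far l (α - pt M j) δ hδ0 (by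
        rw [← dist_eq_norm, dist_comm]
        exact h3.le)
      have h5 : ‖D l (α - pt M j)‖ ^ 2 ≤ (1 / (2 * δ)) ^ 2 := pow_le_pow_left₀ (norm_nonneg _) h4 2
      refine h5.trans ?_
      rw [div_le_iff₀ (by positivity)] at hl2
      rw [div_pow, one_pow, div_le_iff₀ (by positivity)]
      have h6 : (l:ℝ) * (4 * δ ^ 2 * s) ≤ l ^ 2 * (4 * δ ^ 2 * s) := by
        apply mul_le_mul_of_nonneg_right _ (by positivity)
        nlinarith
      calc (1:ℝ) ≤ l * (4 * δ ^ 2 * s) := hl2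
        _ ≤ l ^ 2 * (4 * δ ^ 2 * s) := h6
        _ = l ^ 2 * s * (2 * δ) ^ 2 := by ring
  have hwsum : ∑ j ∈ range M, w j ≤ (κ' + s) * M := by
    set J : Finset ℕ := (range M).filter (fun j => ∃ y ∈ K, dist (pt M j) y ≤ δ) with hJ
    have h3 : (J.card : ℝ) ≤ κ' * M := count K κ' δ hκ'0 M hM1 hMδ hv J (by
      intro j hj
      rw [hJ, mem_filter, mem_range] at hj
      exact hj)
    have h4 : ∀ j ∈ range M, w j ≤ (if ∃ y ∈ K, dist (pt M j) y ≤ δ then (1:ℝ) else 0) + s := by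
      intro j _
      simp only [hw]
      split_ifs <;> linarith
    refine (sum_le_sum h4).trans ?_
    rw [sum_add_distrib, ← sum_filter, sum_const, sum_const, card_range, nsmul_eq_mul, nsmul_eq_mul, mul_one]
    linarith
  refine ⟨M, fun h => WithLp.toLp 2 (fun j : Fin M => ((Real.sqrt (w j) : ℝ) : ℂ) * fourier (h : ℤ) (pt M j)),
    ?_, ?_⟩
  · have h3 : ∀ h ∈ range L, ‖(WithLp.toLp 2 (fun j : Fin M => ((Real.sqrt (w j) : ℝ) : ℂ) *
        (fourier (h : ℤ) (pt M j) : ℂ)) : EuclideanSpace ℂ (Fin M))‖ ^ 2 = ∑ j ∈ range M, w j := by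
      intro h _
      rw [EuclideanSpace.norm_sq_eq, ← Fin.sum_univ_eq_sum_range (fun j => w j) M]
      refine sum_congr rfl fun j _ => ?_
      show ‖((Real.sqrt (w j) : ℝ) : ℂ) * (fourier (h : ℤ) (pt M j) : ℂ)‖ ^ 2 = _
      rw [norm_mul, norm_fourier, mul_one, Complex.norm_real, Real.norm_eq_abs, sq_abs,
        Real.sq_sqrt (hw0 _)]
    rw [sum_congr rfl h3, sum_const, card_range, nsmul_eq_mul]
    have h4 : (M:ℝ) ≤ (1 + s) * L := by rw [hMr]; linarith
    calc (L:ℝ) * ∑ j ∈ range M, w j ≤ L * ((κ' + s) * M) := mul_le_mul_of_nonneg_left hwsum (by positivity)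
      _ ≤ L * ((κ' + s) * ((1 + s) * L)) := by gcongr
      _ = ((κ' + s) * (1 + s)) * L ^ 2 := by ring
      _ ≤ κ * L ^ 2 := mul_le_mul_of_nonneg_right hs2 (by positivity)
  · intro α hα v
    have h3 := vdc M L l hLn le_rfl v α
    have h4 : ∑ j ∈ range M, ‖∑ h ∈ range L, v h * fourier (h : ℤ) (pt M j)‖ ^ 2 *
        ‖D l (α - pt M j)‖ ^ 2 ≤ l ^ 2 * ∑ j ∈ range M, w j *
          ‖∑ h ∈ range L, v h * fourier (h : ℤ) (pt M j)‖ ^ 2 := by
      rw [mul_sum]
      refine sum_le_sum fun j _ => ?_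
      calc _ ≤ ‖∑ h ∈ range L, v h * fourier (h : ℤ) (pt M j)‖ ^ 2 * (l ^ 2 * w j) :=
            mul_le_mul_of_nonneg_left (hwD α hα j) (by positivity)
        _ = _ := by ring
    have h5 : ‖∑ h ∈ range L, v h * fourier (h : ℤ) α‖ ^ 2 ≤ ∑ j ∈ range M, w j *
          ‖∑ h ∈ range L, v h * fourier (h : ℤ) (pt M j)‖ ^ 2 := by
      have h6 : (M * l ^ 2 : ℝ) * ‖∑ h ∈ range L, v h * fourier (h : ℤ) α‖ ^ 2 ≤
          (M * l ^ 2 : ℝ) * ∑ j ∈ range M, w j *
          ‖∑ h ∈ range L, v h * fourier (h : ℤ) (pt M j)‖ ^ 2 := by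
        refine h3.trans ?_
        rw [mul_assoc]
        exact mul_le_mul_of_nonneg_left h4 (by positivity)
      exact le_of_mul_le_mul_left h6 (by positivity)
    have h6 : ‖∑ h ∈ range L, v h • (WithLp.toLp 2 (fun j : Fin M => ((Real.sqrt (w j) : ℝ) : ℂ) *
        (fourier (h : ℤ) (pt M j) : ℂ)) : EuclideanSpace ℂ (Fin M))‖ ^ 2 = ∑ j ∈ range M, w j *
          ‖∑ h ∈ range L, v h * fourier (h : ℤ) (pt M j)‖ ^ 2 := by
      rw [EuclideanSpace.norm_sq_eq, ← Fin.sum_univ_eq_sum_range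
        (fun j => w j * ‖∑ h ∈ range L, v h * fourier (h : ℤ) (pt M j)‖ ^ 2) M]
      refine sum_congr rfl fun j _ => ?_
      have h7 : (∑ h ∈ range L, v h • (WithLp.toLp 2 (fun j : Fin M => ((Real.sqrt (w j) : ℝ) : ℂ) *
        (fourier (h : ℤ) (pt M j) : ℂ)) : EuclideanSpace ℂ (Fin M))).ofLp j =
          ((Real.sqrt (w j) : ℝ) : ℂ) * ∑ h ∈ range L, v h * fourier (h : ℤ) (pt M j) := by
        rw [WithLp.ofLp_sum, Finset.sum_apply, mul_sum]
        refine sum_congr rfl fun h _ => ?_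
        show v h * (((Real.sqrt (w j) : ℝ) : ℂ) * (fourier (h : ℤ) (pt M j) : ℂ)) = _
        ring
      rw [h7, norm_mul, mul_pow, Complex.norm_real, Real.norm_eq_abs, sq_abs, Real.sq_sqrt (hw0 _)]
    rw [← h6] at h5
    exact (abs_le_of_sq_le_sq' h5 (norm_nonneg _)).2

end Pool.Agent.R378.VD
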