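import Pool.Agent.R378.NF2
import Pool.Agent.R378.VD2

/-!
# Liouville sums in short windows with frequencies in a closed set: the measure of the set as the constant
-/

set_option autoImplicit false

namespace Pool.Agent.R378.NL

open Finset Filter Topology MeasureTheory Pool.Agent.Y326
open Pool.Agent.TH833.BL (S H H_le le_H one_le_log)
open Pool.Agent.R378.NF (norm_fourier)

/-- the Liouville function -/
def mz (n : ℕ) : ℤ := (-1) ^ (ArithmeticFunction.cardFactors n)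

lemma mz_le (n : ℕ) : |mz n| ≤ 1 := by
  unfold mz
  rw [abs_pow, abs_neg, abs_one, one_pow]

/-- the Liouville function with complex values -/
noncomputable def mm (j : ℕ) : ℂ := ((mz j : ℤ) : ℂ)

lemma mm_le (j : ℕ) : ‖mm j‖ ≤ 1 := by
  unfold mm
  rw [Complex.norm_intCast]
  exact_mod_cast mz_le j

lemma tao_mz : TwoPoint mz := tao_lam

/-- the constant -/
noncomputable def rho : ℝ := 1

lemma rho_pos : 0 < rho := by unfold rho; norm_num

lemma mu_sq (κ : ℝ) (hκ : 0 < κ) : ∃ C : ℝ, 0 ≤ C ∧ ∀ N : ℕ,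
    S (fun n => (mz n : ℝ) * (mz n : ℝ)) N ≤ (rho + κ) * H N + C := by
  refine ⟨0, le_rfl, fun N => ?_⟩
  have h1 : S (fun n => (mz n : ℝ) * (mz n : ℝ)) N ≤ S (fun _ => (1 : ℝ)) N := by
    apply S_mono
    intro m
    have h3 : |(mz m : ℝ)| ≤ 1 := by exact_mod_cast mz_le m
    have h4 := abs_le.1 h3
    nlinarith
  rw [S_const, one_mul] at h1
  have hH : 0 ≤ H N := sum_nonneg fun _ _ => by positivity
  unfold rho
  nlinarith

lemma long_sum (ε : ℝ) (hε : 0 < ε) : ∃ N0 : ℕ, ∀ (x : ℕ) (α : UnitAddCircle),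
    ‖∑ j ∈ range x, mm j * fourier (j : ℤ) α‖ ≤ ε * x + N0 := by
  obtain ⟨N1, h1⟩ := Pool.Agent.TH823.MRS.lam_sup 1
  obtain ⟨N2, h2⟩ := eventually_atTop.1 ((Pool.Agent.TH833.BL.log_tendsto).eventually_ge_atTop (1 / ε))
  refine ⟨max N1 (max N2 3) + 1, fun x α => ?_⟩
  obtain ⟨t, rfl⟩ := QuotientAddGroup.mk_surjective α
  rcases le_or_gt (max N1 (max N2 3) + 1) x with hx | hx
  · obtain ⟨y, rfl⟩ : ∃ y, x = y + 1 := ⟨x - 1, by omega⟩
    have hy1 : N1 ≤ y := by
      have := le_max_left N1 (max N2 3)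
      omega
    have hy2 : N2 ≤ y := by
      have := (le_max_left N2 3).trans (le_max_right N1 (max N2 3))
      omega
    have h3 := h1 y hy1 t
    have h4 := h2 y hy2
    have hlog : 0 < Real.log y := lt_of_lt_of_le (by positivity) h4
    have h5 : (y : ℝ) / Real.log y ^ 1 ≤ ε * y := by
      rw [pow_one, div_le_iff₀ hlog]
      have h6 : 1 ≤ ε * Real.log y := by
        rw [div_le_iff₀ hε] at h4
        linarith
      have h7 : (0:ℝ) ≤ y := by positivity
      nlinarith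
    have h8 : ∑ j ∈ range (y + 1), mm j * fourier (j : ℤ) (t : UnitAddCircle) =
        mm 0 * fourier ((0 : ℕ) : ℤ) (t : UnitAddCircle) +
          ∑ n ∈ Icc 1 y, ((Pool.Agent.H376R2.MR.lam n : ℤ) : ℂ) * Pool.Agent.H807R2.Dav.ee ((n : ℝ) * t) := by
      rw [sum_range_succ', add_comm]
      congr 1
      have e1 : Icc 1 y = (range y).image (fun h => h + 1) := by
        ext j
        simp only [mem_Icc, mem_image, mem_range]
        constructor
        · intro hj; exact ⟨j - 1, by omega, by omega⟩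
        · rintro ⟨h, hh, rfl⟩; omega
      rw [e1, sum_image fun a _ b _ hab => by omega]
      refine sum_congr rfl fun h _ => ?_
      unfold mm mz Pool.Agent.H376R2.MR.lam
      congr 1
      rw [fourier_coe_apply]
      unfold Pool.Agent.H807R2.Dav.ee
      congr 1
      push_cast
      ring
    have h9 : ‖mm 0 * fourier ((0 : ℕ) : ℤ) (t : UnitAddCircle)‖ ≤ 1 := by
      rw [norm_mul, norm_fourier, mul_one]
      exact mm_le 0
    refine (le_of_eq (congrArg norm h8)).trans ((norm_add_le _ _).trans ?_)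
    have h10 : (1:ℝ) ≤ ((max N1 (max N2 3) + 1 : ℕ) : ℝ) := by exact_mod_cast Nat.le_add_left 1 _
    have h11 : ‖∑ n ∈ Icc 1 y, ((Pool.Agent.H376R2.MR.lam n : ℤ) : ℂ) *
        Pool.Agent.H807R2.Dav.ee ((n : ℝ) * t)‖ ≤ ε * y := h3.trans h5
    refine (add_le_add h9 h11).trans ?_
    have h12 : ((y + 1 : ℕ) : ℝ) = y + 1 := by push_cast; ring
    rw [h12]
    linarith
  · have h3 : ‖∑ j ∈ range x, mm j * fourier (j : ℤ) (t : UnitAddCircle)‖ ≤ x := by
      refine (norm_sum_le _ _).trans ?_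
      calc ∑ j ∈ range x, ‖mm j * fourier (j : ℤ) (t : UnitAddCircle)‖ ≤ ∑ _j ∈ range x, (1:ℝ) := by
            refine sum_le_sum fun j _ => ?_
            rw [norm_mul, norm_fourier, mul_one]
            exact mm_le j
        _ = x := by simp
    have h4 : (x:ℝ) ≤ ((max N1 (max N2 3) + 1 : ℕ) : ℝ) := by exact_mod_cast hx.le
    have h5 : 0 ≤ ε * x := by positivity
    refine le_trans h3 ?_
    linarith

/-- **the mean square** -/
theorem meansq_sharp (L : ℕ) (hL : 1 ≤ L) (κ : ℝ) (hκ : 0 < κ) :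
    ∃ N₀ : ℕ, 3 ≤ N₀ ∧ ∀ N : ℕ, N₀ ≤ N → ∀ (E : Type) [NormedAddCommGroup E] [InnerProductSpace ℂ E]
      (c : ℕ → E),
      S (fun n => ‖∑ h ∈ range L, ((mz (n + h) : ℤ) : ℂ) • c h‖ ^ 2) N ≤
        (rho + κ) * (∑ h ∈ range L, ‖c h‖ ^ 2) * Real.log N := by
  have hL0 : (0 : ℝ) < L := by exact_mod_cast hL
  obtain ⟨N₁, hN₁⟩ := gram (f := mz) mz_le tao_mz L (κ / (3 * L)) (by positivity)
  obtain ⟨C, hC, hsq⟩ := mu_sq (κ / 3) (by positivity)
  have hlog : Tendsto (fun N : ℕ => κ / 3 * Real.log (N : ℝ)) atTop atTop :=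
    (Pool.Agent.TH833.BL.log_tendsto).const_mul_atTop (by positivity)
  obtain ⟨N₂, hN₂⟩ := eventually_atTop.1 (hlog.eventually_ge_atTop (rho + κ / 3 + C + 3 * L))
  refine ⟨max (max N₁ N₂) 3, le_max_right _ _, fun N hN E _ _ c => ?_⟩
  have hl := one_le_log ((le_max_right _ _).trans hN)
  have hg := hN₁ N (((le_max_left _ _).trans (le_max_left _ _)).trans hN)
  have hbig := hN₂ N (((le_max_right _ _).trans (le_max_left _ _)).trans hN)
  have hrho := rho_pos
  have hdiag : ∀ h < L, S (fun n => (mz (n + h) : ℝ) * mz (n + h)) N ≤ (rho + 2 * κ / 3) * Real.log N := by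
    intro h hh
    have h1 := (abs_le.1 (S_shift (φ := fun n => (mz n : ℝ) * (mz n : ℝ)) (C := 1) (fun n => by
      rw [abs_mul]
      have h1 : |(mz n : ℝ)| ≤ 1 := by exact_mod_cast mz_le n
      calc _ ≤ 1 * 1 := mul_le_mul h1 h1 (abs_nonneg _) zero_le_one
        _ = 1 := one_mul 1) h N)).2
    have h2 := hsq N
    have h3 := H_le N
    have h4 : (h : ℝ) ≤ L := by exact_mod_cast hh.le
    have h5 : (rho + κ / 3) * H N ≤ (rho + κ / 3) * (1 + Real.log N) :=
      mul_le_mul_of_nonneg_left h3 (by positivity)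
    have h6 : (rho + 2 * κ / 3) * Real.log N = (rho + κ / 3) * Real.log N + κ / 3 * Real.log N := by ring
    rw [h6]
    linarith
  have hexp : ∀ n, ‖∑ h ∈ range L, ((mz (n + h) : ℤ) : ℂ) • c h‖ ^ 2 =
      ∑ h ∈ range L, ∑ h' ∈ range L, (inner ℂ (c h) (c h')).re * ((mz (n + h) : ℝ) * mz (n + h')) := by
    intro n
    have h1 : ((‖∑ h ∈ range L, ((mz (n + h) : ℤ) : ℂ) • c h‖ ^ 2 : ℝ) : ℂ) =
        inner ℂ (∑ h ∈ range L, ((mz (n + h) : ℤ) : ℂ) • c h) (∑ h ∈ range L, ((mz (n + h) : ℤ) : ℂ) • c h) := by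
      rw [inner_self_eq_norm_sq_to_K]
      push_cast
      rfl
    have h2 := congrArg Complex.re h1
    rw [Complex.ofReal_re] at h2
    rw [h2, sum_inner, Complex.re_sum]
    refine sum_congr rfl fun h _ => ?_
    rw [inner_sum, Complex.re_sum]
    refine sum_congr rfl fun h' _ => ?_
    rw [inner_smul_left, inner_smul_right]
    have e1 : (starRingEnd ℂ) ((mz (n + h) : ℤ) : ℂ) = (((mz (n + h) : ℝ)) : ℂ) := by
      rw [map_intCast]
      push_cast
      rfl
    have e2 : ((mz (n + h') : ℤ) : ℂ) = (((mz (n + h') : ℝ)) : ℂ) := by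
      push_cast
      rfl
    rw [e1, e2, ← mul_assoc, ← Complex.ofReal_mul, Complex.re_ofReal_mul]
    ring
  have e0 : (fun n => ‖∑ h ∈ range L, ((mz (n + h) : ℤ) : ℂ) • c h‖ ^ 2) =
      fun n => ∑ h ∈ range L, ∑ h' ∈ range L,
        (inner ℂ (c h) (c h')).re * ((mz (n + h) : ℝ) * mz (n + h')) := funext hexp
  rw [e0, S_sum]
  have hin : ∀ h h', |(inner ℂ (c h) (c h')).re| ≤ (‖c h‖ ^ 2 + ‖c h'‖ ^ 2) / 2 := by
    intro h h'
    refine (Complex.abs_re_le_norm _).trans ((norm_inner_le_norm _ _).trans ?_)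
    nlinarith [sq_nonneg (‖c h‖ - ‖c h'‖)]
  have hdg : ∀ h, (inner ℂ (c h) (c h)).re = ‖c h‖ ^ 2 := by
    intro h
    have := inner_self_eq_norm_sq (𝕜 := ℂ) (c h)
    simpa using this
  have hlog0 : (0 : ℝ) ≤ Real.log N := by linarith
  have hbound : ∀ h ∈ range L, S (fun n => ∑ h' ∈ range L,
        (inner ℂ (c h) (c h')).re * ((mz (n + h) : ℝ) * mz (n + h'))) N ≤
      ‖c h‖ ^ 2 * ((rho + 2 * κ / 3) * Real.log N) +
        ∑ h' ∈ range L, (‖c h‖ ^ 2 + ‖c h'‖ ^ 2) / 2 * (κ / (3 * L) * Real.log N) := by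
    intro h hh
    rw [S_sum]
    have h1 : ∀ h' ∈ range L, S (fun n => (inner ℂ (c h) (c h')).re * ((mz (n + h) : ℝ) * mz (n + h'))) N ≤
        (if h' = h then ‖c h‖ ^ 2 * ((rho + 2 * κ / 3) * Real.log N) else 0) +
          (‖c h‖ ^ 2 + ‖c h'‖ ^ 2) / 2 * (κ / (3 * L) * Real.log N) := by
      intro h' hh'
      rw [S_cmul]
      by_cases he : h' = h
      · rw [if_pos he, he, hdg]
        have h2 := mul_le_mul_of_nonneg_left (hdiag h (mem_range.1 hh)) (by positivity : 0 ≤ ‖c h‖ ^ 2)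
        have h4 : 0 ≤ (‖c h‖ ^ 2 + ‖c h‖ ^ 2) / 2 * (κ / (3 * L) * Real.log N) := by positivity
        linarith
      · rw [if_neg he, zero_add]
        refine (le_abs_self _).trans ?_
        rw [abs_mul]
        refine mul_le_mul (hin h h') ?_ (abs_nonneg _) (by positivity)
        exact hg h (mem_range.1 hh) h' (mem_range.1 hh') (fun e => he e.symm)
    refine (sum_le_sum h1).trans (le_of_eq ?_)
    rw [sum_add_distrib, sum_ite_eq' (range L) h, if_pos hh]
  refine (sum_le_sum hbound).trans ?_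
  set T := ∑ h ∈ range L, ‖c h‖ ^ 2 with hT'
  have hT0 : 0 ≤ T := sum_nonneg fun _ _ => by positivity
  have e1 : ∑ h ∈ range L, ∑ h' ∈ range L, (‖c h‖ ^ 2 + ‖c h'‖ ^ 2) / 2 * (κ / (3 * (L : ℝ)) * Real.log N) =
      κ / 3 * T * Real.log N := by
    have e2 : ∀ h ∈ range L, ∑ h' ∈ range L, (‖c h‖ ^ 2 + ‖c h'‖ ^ 2) / 2 * (κ / (3 * (L : ℝ)) * Real.log N) =
        (L * ‖c h‖ ^ 2 + T) / 2 * (κ / (3 * (L : ℝ)) * Real.log N) := by
      intro h _
      rw [← sum_mul, ← sum_div, sum_add_distrib, sum_const, card_range, nsmul_eq_mul]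
    rw [sum_congr rfl e2, ← sum_mul, ← sum_div, sum_add_distrib, ← mul_sum, sum_const, card_range,
      nsmul_eq_mul, ← hT']
    field_simp
    ring
  rw [sum_add_distrib, ← sum_mul, e1]
  refine le_of_eq ?_
  ring

/-- short windows -/
theorem short_sharp (L : ℕ) (hL : 1 ≤ L) (κ : ℝ) (hκ : 0 < κ) :
    ∃ N₀ : ℕ, ∀ N : ℕ, N₀ ≤ N → ∀ (M : ℕ) (c : ℕ → EuclideanSpace ℂ (Fin M)) (σ : ℝ),
      ∑ h ∈ range L, ‖c h‖ ^ 2 ≤ σ * L ^ 2 → ∀ A : ℕ → ℕ → ℂ,
      (∀ n, ∀ v : ℕ → ℂ, ‖∑ h ∈ range L, v h * A n h‖ ≤ ‖∑ h ∈ range L, v h • c h‖) →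
      S (wv mz A 0 L) N ≤ (1 + κ) * Real.sqrt ((rho + κ) * σ) * L * Real.log N := by
  obtain ⟨N₀, hN3, hN₀⟩ := meansq_sharp L hL κ hκ
  have hlog : Tendsto (fun N : ℕ => κ * Real.log (N : ℝ)) atTop atTop :=
    (Pool.Agent.TH833.BL.log_tendsto).const_mul_atTop (by positivity)
  obtain ⟨N₁, hN₁⟩ := eventually_atTop.1 (hlog.eventually_ge_atTop 1)
  refine ⟨max N₀ N₁, fun N hN M c σ hc A hA => ?_⟩
  have hl := one_le_log (hN3.trans ((le_max_left _ _).trans hN))
  have h1 := hN₀ N ((le_max_left _ _).trans hN) (EuclideanSpace ℂ (Fin M)) c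
  have hκl := hN₁ N ((le_max_right _ _).trans hN)
  have hrho := rho_pos
  set φ : ℕ → ℝ := fun n => ‖∑ h ∈ range L, ((mz (n + h) : ℤ) : ℂ) • c h‖ with hφ
  have h2 : ∀ n, wv mz A 0 L n ≤ φ n := by
    intro n
    refine le_trans (le_of_eq ?_) (hA n fun h => ((mz (n + h) : ℤ) : ℂ))
    show ‖∑ h ∈ range L, (((mz (n + h) : ℤ) : ℂ) * ex (h * 0)) • A n h‖ = _
    congr 1
    refine sum_congr rfl fun h _ => ?_
    have e2 : ex ((h:ℝ) * 0) = 1 := by unfold ex; simp
    rw [e2, mul_one, smul_eq_mul]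
  refine (S_mono h2 N).trans ?_
  have hH : H N ≤ (1 + κ) * Real.log N := by linarith [H_le N]
  have h5 : S (fun n => φ n ^ 2) N ≤ (rho + κ) * (σ * L ^ 2) * Real.log N := by
    refine h1.trans ?_
    gcongr
  have h6 : 0 ≤ S (fun n => φ n ^ 2) N := by
    unfold S
    exact sum_nonneg fun n _ => by positivity
  have hσ : 0 ≤ (rho + κ) * σ := by
    have h7 : 0 ≤ σ * L ^ 2 := le_trans (sum_nonneg fun _ _ => by positivity) hc
    have hL0 : (0 : ℝ) < L := by exact_mod_cast hL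
    have h8 : 0 ≤ σ := nonneg_of_mul_nonneg_left h7 (by positivity)
    positivity
  have h4 : S φ N ^ 2 ≤ ((1 + κ) * Real.sqrt ((rho + κ) * σ) * L * Real.log N) ^ 2 := by
    refine (S_cs φ N).trans ?_
    calc H N * S (fun n => φ n ^ 2) N ≤ ((1 + κ) * Real.log N) * ((rho + κ) * (σ * L ^ 2) * Real.log N) :=
          mul_le_mul hH h5 h6 (by positivity)
      _ = (1 + κ) * (((rho + κ) * σ) * (L * Real.log N) ^ 2) := by ring
      _ ≤ (1 + κ) ^ 2 * (((rho + κ) * σ) * (L * Real.log N) ^ 2) := by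
          apply mul_le_mul_of_nonneg_right _ (by positivity)
          nlinarith
      _ = (1 + κ) ^ 2 * (Real.sqrt ((rho + κ) * σ) ^ 2 * (L * Real.log N) ^ 2) := by
          rw [Real.sq_sqrt hσ]
      _ = _ := by ring
  exact (abs_le_of_sq_le_sq' h4 (by positivity)).2

/-- windows which are not much shorter than their starting point -/
lemma early' (T : ℕ) (ε : ℝ) (hε : 0 < ε) : ∃ H₀ : ℕ, ∀ H : ℕ, H₀ ≤ H → ∀ m : ℕ, m ≤ T * H → ∀ α : UnitAddCircle,
    ‖∑ j ∈ Ioc m (m + H), mm j * fourier (j : ℤ) α‖ ≤ ε * H := by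
  obtain ⟨N0, h0⟩ := long_sum (ε / (10 * (T + 1))) (by positivity)
  obtain ⟨H₁, h1⟩ := exists_nat_ge (4 * N0 / ε)
  refine ⟨max H₁ 1, fun H hH m hm α => ?_⟩
  have hH1 : (1:ℝ) ≤ H := by exact_mod_cast (le_max_right _ _).trans hH
  have hH2 : 4 * (N0:ℝ) ≤ ε * H := by
    have : 4 * N0 / ε ≤ H := h1.trans (by exact_mod_cast (le_max_left _ _).trans hH)
    rw [div_le_iff₀ hε] at this
    linarith
  have e : ∑ j ∈ Ioc m (m + H), mm j * (fourier (j : ℤ) α : ℂ) =
      ∑ j ∈ range (m + H + 1), mm j * fourier (j : ℤ) α - ∑ j ∈ range (m + 1), mm j * fourier (j : ℤ) α := by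
    rw [eq_sub_iff_add_eq, ← Finset.sum_range_add_sum_Ico _ (by omega : m + 1 ≤ m + H + 1), add_comm]
    congr 1
    apply sum_congr _ fun _ _ => rfl
    ext j
    simp only [mem_Ioc, mem_Ico]
    omega
  rw [e]
  refine (norm_sub_le _ _).trans ?_
  have h2 := h0 (m + H + 1) α
  have h3 := h0 (m + 1) α
  push_cast at h2 h3
  have hm' : (m:ℝ) ≤ T * H := by exact_mod_cast hm
  have h4 : ε / (10 * (T + 1)) * ((m:ℝ) + H + 1) + ε / (10 * (T + 1)) * ((m:ℝ) + 1) ≤
      ε / (10 * (T + 1)) * (5 * ((T + 1) * H)) := by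
    rw [← mul_add]
    apply mul_le_mul_of_nonneg_left _ (by positivity)
    have : (0:ℝ) ≤ T * H := by positivity
    nlinarith
  have h5 : ε / (10 * ((T : ℝ) + 1)) * (5 * ((T + 1) * H)) = ε * H / 2 := by
    field_simp
    norm_num
  linarith

/-- **Long windows.** -/
theorem char_sharp (K : Set UnitAddCircle) (hK : IsClosed K) (ε : ℝ) (hε : 0 < ε) :
    ∃ H₀ : ℕ, ∀ N H : ℕ, H₀ ≤ H → H ≤ N → ∀ α : ℕ → UnitAddCircle, (∀ m, α m ∈ K) →
      ∑ m ∈ Icc 1 N, (1 / (m : ℝ)) * ‖∑ j ∈ Ioc m (m + H), mm j * fourier (j : ℤ) (α m)‖ ≤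
        (Real.sqrt (rho * (volume K).toReal) + ε) * H * Real.log N := by
  have hrho := rho_pos
  set k : ℝ := (volume K).toReal with hk
  have hk0 : 0 ≤ k := ENNReal.toReal_nonneg
  -- the parameter
  obtain ⟨T, hT1, hT⟩ : ∃ T : ℕ, 1 ≤ T ∧ (1 + 1 / (T:ℝ)) ^ 3 * Real.sqrt ((rho + 1 / T) * (k + 1 / T)) ≤
      Real.sqrt (rho * k) + ε / 2 := by
    have h1 : Tendsto (fun n : ℕ => 1 / ((n : ℝ) + 1)) atTop (𝓝 0) := tendsto_one_div_add_atTop_nhds_zero_nat
    have h2 : Tendsto (fun n : ℕ => (1 + 1 / ((n : ℝ) + 1)) ^ 3 *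
        Real.sqrt ((rho + 1 / ((n : ℝ) + 1)) * (k + 1 / ((n : ℝ) + 1)))) atTop
        (𝓝 ((1 + 0) ^ 3 * Real.sqrt ((rho + 0) * (k + 0)))) :=
      ((h1.const_add 1).pow 3).mul ((Real.continuous_sqrt.tendsto _).comp
        ((h1.const_add rho).mul (h1.const_add k)))
    rw [add_zero, one_pow, one_mul, add_zero, add_zero] at h2
    obtain ⟨n, hn⟩ := (h2.eventually_lt_const (show Real.sqrt (rho * k) < Real.sqrt (rho * k) + ε / 2 by
      linarith)).exists
    refine ⟨n + 1, by omega, ?_⟩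
    push_cast
    exact hn.le
  have hT0 : (0:ℝ) < T := by exact_mod_cast hT1
  set κ : ℝ := 1 / (T:ℝ) with hκ
  have hκ0 : 0 < κ := by positivity
  obtain ⟨L, hL1, hdom⟩ := Pool.Agent.R378.VD.dominate K hK (k + κ) (by
    rw [ENNReal.lt_ofReal_iff_toReal_lt (measure_ne_top _ _)]
    linarith)
  obtain ⟨M, c, hc1, hc2⟩ := hdom L le_rfl
  have hL0 : (0:ℝ) < L := by exact_mod_cast hL1
  set θ : ℝ := (1 + κ) * Real.sqrt ((rho + κ) * (k + κ)) with hθ
  have hθ0 : 0 ≤ θ := by positivity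
  obtain ⟨N₀, hN₀⟩ := short_sharp L hL1 κ hκ0
  obtain ⟨H₁, hH₁⟩ := early' T (ε / 8) (by positivity)
  obtain ⟨H₂, hH₂⟩ := exists_nat_ge (16 * L / ε)
  have hlog : Tendsto (fun N : ℕ => κ * Real.log (N : ℝ)) atTop atTop :=
    (Pool.Agent.TH833.BL.log_tendsto).const_mul_atTop (by positivity)
  obtain ⟨H₃, hH₃⟩ := eventually_atTop.1 (hlog.eventually_ge_atTop (Real.log 2))
  refine ⟨max (max N₀ H₁) (max H₂ (max H₃ 3)), fun N H hH hHN α hα => ?_⟩
  have b1 : N₀ ≤ H := ((le_max_left _ _).trans (le_max_left _ _)).trans hH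
  have b2 : H₁ ≤ H := ((le_max_right _ _).trans (le_max_left _ _)).trans hH
  have b3 : H₂ ≤ H := ((le_max_left _ _).trans (le_max_right _ _)).trans hH
  have b4 : 3 ≤ H := (((le_max_right _ _).trans (le_max_right _ _)).trans (le_max_right _ _)).trans hH
  have b5' : H₃ ≤ H := (((le_max_left _ _).trans (le_max_right _ _)).trans (le_max_right _ _)).trans hH
  have hHr : (0:ℝ) < H := by exact_mod_cast (by omega : 0 < H)
  have hlogN : 1 ≤ Real.log N := one_le_log (b4.trans hHN)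
  have hN0 : (0:ℝ) < N := by exact_mod_cast (by omega : 0 < N)
  have b5 : 16 * (L:ℝ) ≤ ε * H := by
    have : 16 * (L:ℝ) / ε ≤ H := hH₂.trans (by exact_mod_cast b3)
    rw [div_le_iff₀ hε] at this
    linarith
  have hlog2 : Real.log ((N + H : ℕ) : ℝ) ≤ (1 + κ) * Real.log N := by
    have h1 := hH₃ N (b5'.trans hHN)
    have h7 : ((N + H : ℕ) : ℝ) ≤ 2 * N := by
      have : (H:ℝ) ≤ N := by exact_mod_cast hHN
      push_cast
      linarith
    have h8 := Real.log_le_log (by positivity) h7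
    rw [Real.log_mul two_ne_zero hN0.ne'] at h8
    linarith
  -- the family
  set A : ℕ → ℕ → ℂ := fun m h => fourier (m : ℤ) (α (m - 1)) * fourier (h : ℤ) (α (m - 1)) with hA
  have hA1 : ∀ m h, ‖A m h‖ ≤ 1 := fun m h => by
    simp only [hA]
    rw [norm_mul, norm_fourier, norm_fourier, one_mul]
  have hAc : ∀ m j : ℕ, ∀ v : ℕ → ℂ, ‖∑ h ∈ range L, v h * A m (j + h)‖ ≤ ‖∑ h ∈ range L, v h • c h‖ := by
    intro m j v
    have h1 : ∑ h ∈ range L, v h * A m (j + h) =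
        (fourier (m : ℤ) (α (m - 1)) * fourier (j : ℤ) (α (m - 1))) *
          ∑ h ∈ range L, v h * fourier (h : ℤ) (α (m - 1)) := by
      rw [mul_sum]
      refine sum_congr rfl fun h _ => ?_
      simp only [hA]
      push_cast
      rw [fourier_add]
      ring
    rw [h1, norm_mul, norm_mul, norm_fourier, norm_fourier, one_mul, one_mul]
    exact hc2 _ (hα _) v
  set W : ℕ → ℝ := fun m => ‖∑ j ∈ Ioc m (m + H), mm j * fourier (j : ℤ) (α m)‖ with hW
  have hWw : ∀ m, W m = wv mz A 0 H (m + 1) := by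
    intro m
    show ‖∑ j ∈ Ioc m (m + H), mm j * fourier (j : ℤ) (α m)‖ =
      ‖∑ h ∈ range H, (((mz (m + 1 + h) : ℤ) : ℂ) * ex (h * 0)) • A (m + 1) h‖
    congr 1
    have e1 : Ioc m (m + H) = (range H).image (fun h => m + 1 + h) := by
      ext j
      simp only [mem_Ioc, mem_image, mem_range]
      constructor
      · intro hj; exact ⟨j - (m + 1), by omega, by omega⟩
      · rintro ⟨h, hh, rfl⟩; omega
    rw [e1, sum_image fun a _ b _ hab => by omega]
    refine sum_congr rfl fun h _ => ?_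
    have e2 : ex ((h:ℝ) * 0) = 1 := by unfold ex; simp
    rw [e2, mul_one, smul_eq_mul]
    show mm (m + 1 + h) * fourier ((m + 1 + h : ℕ) : ℤ) (α m) =
      mm (m + 1 + h) * (fourier ((m + 1 : ℕ) : ℤ) (α (m + 1 - 1)) * fourier (h : ℤ) (α (m + 1 - 1)))
    rw [Nat.add_sub_cancel, ← fourier_add]
    push_cast
    rfl
  have hW0 : ∀ m, 0 ≤ W m := fun m => norm_nonneg _
  -- split
  have hsplit : ∑ m ∈ Icc 1 N, (1 / (m : ℝ)) * W m ≤
      ∑ m ∈ (Icc 1 N).filter (fun m => m ≤ T * H), (1 / (m : ℝ)) * W m +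
        ∑ m ∈ (Icc 1 N).filter (fun m => ¬ m ≤ T * H), (1 / (m : ℝ)) * W m :=
    (sum_filter_add_sum_filter_not _ _ _).ge
  -- the first part
  have hp1 : ∑ m ∈ (Icc 1 N).filter (fun m => m ≤ T * H), (1 / (m : ℝ)) * W m ≤ ε / 4 * H * Real.log N := by
    have h1 : ∀ m ∈ (Icc 1 N).filter (fun m => m ≤ T * H), (1 / (m : ℝ)) * W m ≤ (1 / (m : ℝ)) * (ε / 8 * H) := by
      intro m hm
      rw [mem_filter] at hm
      exact mul_le_mul_of_nonneg_left (hH₁ H b2 m hm.2 _) (by positivity)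
    refine (sum_le_sum h1).trans ?_
    rw [← sum_mul]
    have h2 : ∑ m ∈ (Icc 1 N).filter (fun m => m ≤ T * H), 1 / (m : ℝ) ≤ 1 + Real.log N :=
      (sum_le_sum_of_subset_of_nonneg (filter_subset _ _) fun _ _ _ => by positivity).trans (H_le N)
    calc (∑ m ∈ (Icc 1 N).filter (fun m => m ≤ T * H), 1 / (m : ℝ)) * (ε / 8 * H) ≤
        (2 * Real.log N) * (ε / 8 * H) := by
          apply mul_le_mul_of_nonneg_right _ (by positivity)
          linarith
      _ = _ := by ring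
  -- the second part
  have hp2 : ∑ m ∈ (Icc 1 N).filter (fun m => ¬ m ≤ T * H), (1 / (m : ℝ)) * W m ≤
      ((Real.sqrt (rho * k) + ε / 2) * H + ε / 4 * H) * Real.log N := by
    set D : ℕ → ℕ → ℕ → ℂ := fun j m h => A (m - j) (j + h) with hD
    set Q : Finset ℕ := (Icc 1 N).filter (fun m => ¬ m ≤ T * H) with hQ
    have hQm : ∀ m ∈ Q, 1 ≤ m ∧ m ≤ N ∧ T * H < m := by
      intro m hm
      rw [hQ, mem_filter, mem_Icc] at hm
      omega
    have h1 : ∀ m ∈ Q, (L:ℝ) * ((1 / (m : ℝ)) * W m) ≤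
        ∑ j ∈ range H, (1 / (m : ℝ)) * wv mz (D j) 0 L (m + 1 + j) + (1 / (m:ℝ)) * (2 * L * L) := by
      intro m _
      rw [hWw m, ← mul_sum, ← mul_add]
      have h2 := comb_var mz_le A hA1 0 L H (m + 1)
      calc (L:ℝ) * ((1 / (m : ℝ)) * wv mz A 0 H (m + 1)) =
            (1 / (m : ℝ)) * ((L:ℝ) * wv mz A 0 H (m + 1)) := by ring
        _ ≤ (1 / (m : ℝ)) * (∑ j ∈ range H, wv mz (D j) 0 L (m + 1 + j) + 2 * 1 * L * L) :=
            mul_le_mul_of_nonneg_left h2 (by positivity)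
        _ = _ := by ring
    have h2 : ∀ j ∈ range H, ∑ m ∈ Q, (1 / (m : ℝ)) * wv mz (D j) 0 L (m + 1 + j) ≤
        (1 + κ) * (θ * L * ((1 + κ) * Real.log N)) := by
      intro j hj
      rw [mem_range] at hj
      have h3 : ∀ m ∈ Q, (1 / (m : ℝ)) * wv mz (D j) 0 L (m + 1 + j) ≤
          (1 + κ) * ((1 / ((m + 1 + j : ℕ) : ℝ)) * wv mz (D j) 0 L (m + 1 + j)) := by
        intro m hm
        obtain ⟨hm1, hm2, hm3⟩ := hQm m hm
        rw [← mul_assoc]
        apply mul_le_mul_of_nonneg_right _ (wv_nonneg _ _ _ _ _)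
        have h5 : (0:ℝ) < m := by exact_mod_cast (by omega : 0 < m)
        have h6 : (0:ℝ) < ((m + 1 + j : ℕ) : ℝ) := by positivity
        have h4 : ((m + 1 + j : ℕ) : ℝ) ≤ (1 + κ) * m := by
          have h7 : ((m + 1 + j : ℕ) : ℝ) ≤ m + H := by exact_mod_cast (by omega : m + 1 + j ≤ m + H)
          have h8 : (T:ℝ) * H ≤ m := by exact_mod_cast hm3.le
          have h9 : (H:ℝ) ≤ κ * m := by
            rw [hκ, div_mul_eq_mul_div, le_div_iff₀ hT0]
            linarith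
          linarith
        rw [mul_one_div, div_le_div_iff₀ h5 h6]
        linarith
      refine (sum_le_sum h3).trans ?_
      rw [← mul_sum]
      apply mul_le_mul_of_nonneg_left _ (by positivity)
      have h4 : ∑ m ∈ Q, (1 / ((m + 1 + j : ℕ) : ℝ)) * wv mz (D j) 0 L (m + 1 + j) ≤
          S (wv mz (D j) 0 L) (N + H) := by
        unfold S
        rw [← sum_image (s := Q) (g := fun m => m + 1 + j)
          (f := fun i : ℕ => (1 / (i : ℝ)) * wv mz (D j) 0 L i) (fun a _ b _ hab => by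
            have : a + 1 + j = b + 1 + j := hab
            omega)]
        apply sum_le_sum_of_subset_of_nonneg
        · intro i hi
          rw [mem_image] at hi
          obtain ⟨m, hm, rfl⟩ := hi
          obtain ⟨hm1, hm2, hm3⟩ := hQm m hm
          rw [mem_Icc]
          omega
        · intro i _ _
          exact mul_nonneg (by positivity) (wv_nonneg _ _ _ _ _)
      have h5 := hN₀ (N + H) (b1.trans (by omega)) M c (k + κ) hc1 (D j) (fun n v => hAc (n - j) j v)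
      refine h4.trans (h5.trans ?_)
      exact mul_le_mul_of_nonneg_left hlog2 (by positivity)
    have h3 : (L:ℝ) * ∑ m ∈ Q, (1 / (m : ℝ)) * W m ≤
        H * ((1 + κ) * (θ * L * ((1 + κ) * Real.log N))) + 2 * Real.log N * (2 * L * L) := by
      rw [mul_sum]
      refine (sum_le_sum h1).trans ?_
      rw [sum_add_distrib, sum_comm, ← sum_mul]
      apply add_le_add
      · refine (sum_le_sum h2).trans ?_
        rw [sum_const, card_range, nsmul_eq_mul]
      · apply mul_le_mul_of_nonneg_right _ (by positivity)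
        have h4 : ∑ m ∈ Q, 1 / (m : ℝ) ≤ ∑ m ∈ Icc 1 N, 1 / (m : ℝ) :=
          sum_le_sum_of_subset_of_nonneg (filter_subset _ _) fun _ _ _ => by positivity
        have h5 : ∑ m ∈ Icc 1 N, 1 / (m : ℝ) ≤ 1 + Real.log N := H_le N
        linarith
    have h4 : (L:ℝ) * ∑ m ∈ Q, (1 / (m : ℝ)) * W m ≤
        L * (((Real.sqrt (rho * k) + ε / 2) * H + ε / 4 * H) * Real.log N) := by
      refine h3.trans ?_
      have h5 : H * ((1 + κ) * (θ * L * ((1 + κ) * Real.log N))) + 2 * Real.log N * (2 * L * L) =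
          L * (((1 + κ) ^ 3 * Real.sqrt ((rho + κ) * (k + κ)) * H + 4 * L) * Real.log N) := by
        rw [hθ]
        ring
      rw [h5]
      apply mul_le_mul_of_nonneg_left _ hL0.le
      apply mul_le_mul_of_nonneg_right _ (by linarith)
      have h6 : (1 + κ) ^ 3 * Real.sqrt ((rho + κ) * (k + κ)) * H ≤ (Real.sqrt (rho * k) + ε / 2) * H :=
        mul_le_mul_of_nonneg_right hT hHr.le
      linarith
    exact le_of_mul_le_mul_left h4 hL0
  show ∑ m ∈ Icc 1 N, (1 / (m : ℝ)) * W m ≤ _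
  refine hsplit.trans ?_
  have h1 : (Real.sqrt (rho * k) + ε) * H * Real.log N =
      ε / 4 * H * Real.log N + ((Real.sqrt (rho * k) + ε / 2) * H + ε / 4 * H) * Real.log N := by ring
  rw [h1]
  exact add_le_add hp1 hp2

end Pool.Agent.R378.NL
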