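import Pool.Agent.R378.Game
import Pool.Agent.R378.Khin
import Pool.Agent.R814.Game.Basic

/-!
# Repairing typical signings and typical sets of turns; blocks of equal unit vectors
-/

set_option autoImplicit false

namespace Pool.Agent.R378.Rep

open Finset Pool.Agent.R814.Game Pool.Agent.R378.Khin

theorem wins_mono {n : ℕ} {F : (Fin n → ℤˣ) → Prop} {J J' : Fin n → Prop}
    (h : ∀ j, J' j → J j) (hJ : Wins F J) : Wins F J' := by
  obtain ⟨σ, hσ, hF⟩ := hJ
  exact ⟨σ, hσ, fun ε hε => hF ε fun j hj => hε j fun h' => hj (h j h')⟩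

/-- A random signing can be repaired online. -/
theorem few_signings {n : ℕ} (F : (Fin n → ℤˣ) → Prop) (a s : ℝ) (hs : 0 ≤ s)
    (hF : 2 ^ n * Real.exp (-a) ≤ (Nat.card {ε : Fin n → ℤˣ // F ε} : ℝ)) :
    ∃ τ : (Fin n → ℤˣ) → Fin n → ℤˣ,
      (∀ ε ε' j, (∀ i, i ≤ j → ε i = ε' i) → τ ε j = τ ε' j) ∧ (∀ ε, F (τ ε)) ∧
      (Nat.card {ε : Fin n → ℤˣ // s < (univ.filter (fun i => ε i ≠ τ ε i)).card} : ℝ) ≤
        2 ^ n * Real.exp (a - s ^ 2 / n) := by
  classical
  have hc : (Fintype.card ℤˣ : ℝ) = 2 := by simp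
  have h := Pool.Agent.R378.Blow.few_far (α := ℤˣ) n F a s hs (by rw [hc]; exact hF)
  rw [hc] at h
  exact h

/-- A random set of turns can be made winnable by giving up few turns, online. -/
theorem few_positions {n : ℕ} (F : (Fin n → ℤˣ) → Prop) (a s : ℝ) (hs : 0 ≤ s)
    (hF : 2 ^ n * Real.exp (-a) ≤ (Nat.card {ε : Fin n → ℤˣ // F ε} : ℝ)) :
    ∃ E : Finset (Fin n) → Finset (Fin n),
      (∀ J J' j, (∀ i, i ≤ j → (i ∈ J ↔ i ∈ J')) → (j ∈ E J ↔ j ∈ E J')) ∧
      (∀ J, E J ⊆ J ∧ Wins F (fun i => i ∈ J \ E J)) ∧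
      (Nat.card {J : Finset (Fin n) // s < (E J).card} : ℝ) ≤ 2 ^ n * Real.exp (a - s ^ 2 / n) := by
  classical
  have hc : (Fintype.card Bool : ℝ) = 2 := by simp
  have hcard : Nat.card {J : Fin n → Bool // Wins F (fun i => J i = true)} =
      Nat.card {ε // F ε} := by
    rw [← card_wins F]
    refine Nat.card_congr (Equiv.subtypeEquiv (toF n) ?_)
    intro J
    have : (fun i => i ∈ toF n J) = (fun i => J i = true) := by
      funext i
      simp [toF]
    rw [this]
  obtain ⟨τ, h1, h2, h3⟩ := Pool.Agent.R378.Blow.few_far (α := Bool) n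
    (fun J => Wins F (fun i => J i = true)) a s hs (by rw [hc, hcard]; exact hF)
  rw [hc] at h3
  have hmem : ∀ (J : Finset (Fin n)) i, (toF n).symm J i = decide (i ∈ J) := fun J i => rfl
  have hE : ∀ (J : Finset (Fin n)) i, i ∈ J \ toF n (τ ((toF n).symm J)) ↔
      i ∈ J ∧ τ ((toF n).symm J) i = false := by
    intro J i
    rw [mem_sdiff]
    apply and_congr_right
    intro _
    simp [toF]
  refine ⟨fun J => J \ toF n (τ ((toF n).symm J)), ?_, ?_, ?_⟩
  · intro J J' j hJ
    have h4 : τ ((toF n).symm J) j = τ ((toF n).symm J') j := by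
      apply h1
      intro i hi
      rw [hmem, hmem]
      exact decide_eq_decide.2 (hJ i hi)
    rw [hE, hE, h4, hJ j le_rfl]
  · intro J
    refine ⟨Finset.sdiff_subset, wins_mono ?_ (h2 ((toF n).symm J))⟩
    intro j hj
    rw [mem_sdiff] at hj
    by_contra hcon
    apply hj.2
    rw [hE]
    exact ⟨hj.1, by simpa using hcon⟩
  · refine le_trans ?_ h3
    have hle : Nat.card {J : Finset (Fin n) // s < (J \ toF n (τ ((toF n).symm J))).card} ≤
        Nat.card {x : Fin n → Bool // s < hammingDist x (τ x)} := by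
      refine Nat.card_le_card_of_injective (fun J => ⟨(toF n).symm J.1, ?_⟩) ?_
      · refine lt_of_lt_of_le J.2 ?_
        have : J.1 \ toF n (τ ((toF n).symm J.1)) ⊆
            univ.filter (fun i => (toF n).symm J.1 i ≠ τ ((toF n).symm J.1) i) := by
          intro i hi
          rw [hE] at hi
          rw [mem_filter]
          refine ⟨mem_univ _, ?_⟩
          rw [hi.2, hmem]
          simp [hi.1]
        have h5 := Finset.card_le_card this
        unfold hammingDist
        exact_mod_cast h5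
      · intro J J' hJ
        apply Subtype.ext
        exact (toF n).symm.injective (congrArg Subtype.val hJ)
    exact_mod_cast hle

/-! ### Blocks -/

/-- the block of an index -/
def blk (N m : ℕ) (i : Fin (N * m)) : Fin N := (finProdFinEquiv.symm i).1

/-- the `k`-th block -/
def B (N m : ℕ) (k : Fin N) : Finset (Fin (N * m)) := univ.filter (fun i => blk N m i = k)

theorem card_B (N m : ℕ) (k : Fin N) : (B N m k).card = m := by
  have h : B N m k = (({k} ×ˢ univ : Finset (Fin N × Fin m))).map finProdFinEquiv.toEmbedding := by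
    ext i
    obtain ⟨p, rfl⟩ := finProdFinEquiv.surjective i
    unfold B blk
    rw [mem_filter, Equiv.symm_apply_apply, Finset.mem_map]
    constructor
    · rintro ⟨_, h⟩
      exact ⟨p, by rw [mem_product, mem_singleton]; exact ⟨h, mem_univ _⟩, rfl⟩
    · rintro ⟨q, hq, hqp⟩
      have : q = p := finProdFinEquiv.injective hqp
      subst this
      rw [mem_product, mem_singleton] at hq
      exact ⟨mem_univ _, hq.1⟩
  rw [h, Finset.card_map, Finset.card_product, Finset.card_singleton, Finset.card_univ,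
    Fintype.card_fin, one_mul]

theorem card_blocks (N m : ℕ) (X : Finset (Fin (N * m))) :
    X.card = ∑ k, (X ∩ B N m k).card := by
  rw [Finset.card_eq_sum_card_fiberwise (f := blk N m) (t := univ) (fun _ _ => mem_univ _)]
  refine Finset.sum_congr rfl fun k _ => ?_
  congr 1
  ext i
  simp [B]

/-- the sum of the values over the blocks is large for a typical signing -/
theorem sum_abs (N m : ℕ) (D : ℝ) (hm : 4 * D ≤ Real.sqrt (m / 3)) :
    2 ^ (N * m) * (N * (4 * D)) ≤ ∑ x : Fin (N * m) → ℤˣ, ∑ k, |S (B N m k) x| := by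
  rw [Finset.sum_comm]
  have h : ∀ k : Fin N, 2 ^ (N * m) * (4 * D) ≤ ∑ x : Fin (N * m) → ℤˣ, |S (B N m k) x| := by
    intro k
    have h1 := khintchine (B N m k)
    rw [card_B] at h1
    refine le_trans ?_ h1
    apply mul_le_mul_of_nonneg_left _ (by positivity)
    exact hm
  calc 2 ^ (N * m) * (N * (4 * D)) = ∑ _k : Fin N, 2 ^ (N * m) * (4 * D) := by
        rw [Finset.sum_const, Finset.card_univ, Fintype.card_fin, nsmul_eq_mul]
        ring
    _ ≤ _ := Finset.sum_le_sum fun k _ => h k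

/-- sharpness for signings -/
theorem sharp_signings (N m : ℕ) (D : ℝ) (hm : 4 * D ≤ Real.sqrt (m / 3))
    (g : (Fin (N * m) → ℤˣ) → (Fin (N * m) → ℤˣ))
    (hg : ∀ ε k, |S (B N m k) (g ε)| ≤ D) :
    2 ^ (N * m) * (N * (3 * D / 2)) ≤
      ∑ ε, ((univ.filter (fun i => ε i ≠ g ε i)).card : ℝ) := by
  classical
  have h1 : ∀ ε : Fin (N * m) → ℤˣ, ∑ k, |S (B N m k) ε| ≤
      N * D + 2 * ((univ.filter (fun i => ε i ≠ g ε i)).card : ℝ) := by
    intro ε
    set X := univ.filter (fun i => ε i ≠ g ε i) with hX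
    have h2 : ∀ k, |S (B N m k) ε| ≤ D + 2 * ((X ∩ B N m k).card : ℝ) := by
      intro k
      have h3 : S (B N m k) ε - S (B N m k) (g ε) =
          ∑ i ∈ B N m k, (((ε i : ℤ) : ℝ) - ((g ε i : ℤ) : ℝ)) := by
        unfold S
        rw [Finset.sum_sub_distrib]
      have h4 : |S (B N m k) ε - S (B N m k) (g ε)| ≤ 2 * ((X ∩ B N m k).card : ℝ) := by
        rw [h3]
        refine (Finset.abs_sum_le_sum_abs _ _).trans ?_
        have h5 : X ∩ B N m k = (B N m k).filter (fun i => ε i ≠ g ε i) := by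
          ext i
          simp [hX, and_comm]
        rw [h5, Finset.card_filter]
        push_cast
        rw [Finset.mul_sum]
        refine Finset.sum_le_sum fun i _ => ?_
        rcases Int.units_eq_one_or (ε i) with h | h <;>
          rcases Int.units_eq_one_or (g ε i) with h' | h' <;> rw [h, h'] <;> norm_num
      have h6 := abs_sub_abs_le_abs_sub (S (B N m k) ε) (S (B N m k) (g ε))
      have h7 := hg ε k
      linarith
    refine (Finset.sum_le_sum fun k _ => h2 k).trans (le_of_eq ?_)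
    rw [Finset.sum_add_distrib, Finset.sum_const, Finset.card_univ, Fintype.card_fin,
      nsmul_eq_mul, ← Finset.mul_sum, card_blocks N m X]
    push_cast
    rfl
  have h8 := (sum_abs N m D hm).trans (Finset.sum_le_sum fun ε _ => h1 ε)
  rw [Finset.sum_add_distrib, Finset.sum_const, Finset.card_univ, nsmul_eq_mul, card_cube,
    ← Finset.mul_sum] at h8
  linarith

/-- sets of indices and signings -/
def toJ (n : ℕ) : (Fin n → ℤˣ) ≃ Finset (Fin n) where
  toFun x := univ.filter (fun i => x i = 1)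
  invFun J i := if i ∈ J then 1 else -1
  left_inv x := by
    funext i
    rcases Int.units_eq_one_or (x i) with h | h <;> simp [h]
  right_inv J := by
    ext i
    by_cases h : i ∈ J <;> simp [h]

theorem S_toJ {n : ℕ} (C : Finset (Fin n)) (x : Fin n → ℤˣ) :
    S C x = 2 * ((toJ n x ∩ C).card : ℝ) - C.card := by
  classical
  have h1 : ((toJ n x ∩ C).card : ℝ) = ∑ i ∈ C, if x i = 1 then (1:ℝ) else 0 := by
    have : toJ n x ∩ C = C.filter (fun i => x i = 1) := by
      ext i
      simp [toJ, and_comm]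
    rw [this, Finset.card_filter]
    push_cast
    rfl
  have h2 : (C.card : ℝ) = ∑ i ∈ C, (1:ℝ) := by simp
  unfold S
  rw [h1, h2, Finset.mul_sum, ← Finset.sum_sub_distrib]
  refine Finset.sum_congr rfl fun i _ => ?_
  rcases Int.units_eq_one_or (x i) with h | h <;> rw [h] <;> norm_num

theorem sum_S {n : ℕ} (C : Finset (Fin n)) : ∑ x : Fin n → ℤˣ, S C x = 0 := by
  unfold S
  rw [Finset.sum_comm]
  refine Finset.sum_eq_zero fun i _ => ?_
  have h := sum_odd (B := ∅) (j := i) (by simp) (fun _ => 1)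
  simpa using h

/-- sharpness for sets of turns -/
theorem sharp_positions (N m : ℕ) (D : ℝ) (hD : 0 ≤ D) (hm : 4 * D ≤ Real.sqrt (m / 3))
    (E : Finset (Fin (N * m)) → Finset (Fin (N * m)))
    (hE : ∀ J k, 2 * (((J \ E J) ∩ B N m k).card : ℝ) ≤ m + D) :
    2 ^ (N * m) * (N * (D / 2)) ≤ ∑ J, ((E J).card : ℝ) := by
  classical
  have h1 : ∀ x : Fin (N * m) → ℤˣ, ∑ k, (|S (B N m k) x| + S (B N m k) x) / 2 ≤
      N * D + 2 * ((E (toJ _ x)).card : ℝ) := by
    intro x
    set J := toJ _ x with hJ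
    have h2 : ∀ k, (|S (B N m k) x| + S (B N m k) x) / 2 ≤
        D + 2 * ((E J ∩ B N m k).card : ℝ) := by
      intro k
      have h3 := hE J k
      have h4 : ((J ∩ B N m k).card : ℝ) ≤
          (((J \ E J) ∩ B N m k).card : ℝ) + ((E J ∩ B N m k).card : ℝ) := by
        have : J ∩ B N m k ⊆ ((J \ E J) ∩ B N m k) ∪ (E J ∩ B N m k) := by
          intro i hi
          rw [mem_inter] at hi
          rw [mem_union, mem_inter, mem_inter, mem_sdiff]
          by_cases h : i ∈ E J
          · exact Or.inr ⟨h, hi.2⟩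
          · exact Or.inl ⟨⟨hi.1, h⟩, hi.2⟩
        have h5 := (Finset.card_le_card this).trans (Finset.card_union_le _ _)
        exact_mod_cast h5
      have h6 : S (B N m k) x = 2 * ((J ∩ B N m k).card : ℝ) - m := by
        rw [S_toJ, card_B]
      have h7 : S (B N m k) x ≤ D + 2 * ((E J ∩ B N m k).card : ℝ) := by
        rw [h6]; linarith
      have h8 : (0:ℝ) ≤ ((E J ∩ B N m k).card : ℝ) := by positivity
      rcases abs_cases (S (B N m k) x) with h | h <;> rw [h.1] <;> linarith
    refine (Finset.sum_le_sum fun k _ => h2 k).trans (le_of_eq ?_)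
    rw [Finset.sum_add_distrib, Finset.sum_const, Finset.card_univ, Fintype.card_fin,
      nsmul_eq_mul, ← Finset.mul_sum, card_blocks N m (E J)]
    push_cast
    rfl
  have h9 : ∑ x : Fin (N * m) → ℤˣ, ∑ k, (|S (B N m k) x| + S (B N m k) x) / 2 =
      (∑ x : Fin (N * m) → ℤˣ, ∑ k, |S (B N m k) x|) / 2 := by
    have h10 : ∑ x : Fin (N * m) → ℤˣ, ∑ k, S (B N m k) x = 0 := by
      rw [Finset.sum_comm]
      exact Finset.sum_eq_zero fun k _ => sum_S _
    have h11 : ∀ x : Fin (N * m) → ℤˣ, ∑ k, (|S (B N m k) x| + S (B N m k) x) / 2 =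
        (∑ k, |S (B N m k) x|) / 2 + (∑ k, S (B N m k) x) / 2 := by
      intro x
      rw [← Finset.sum_div, Finset.sum_add_distrib, add_div]
    simp only [h11]
    rw [Finset.sum_add_distrib, ← Finset.sum_div, ← Finset.sum_div, h10]
    simp
  have h12 := Finset.sum_le_sum (s := univ) fun (x : Fin (N * m) → ℤˣ) _ => h1 x
  rw [h9, Finset.sum_add_distrib, Finset.sum_const, Finset.card_univ, nsmul_eq_mul, card_cube,
    ← Finset.mul_sum, Equiv.sum_comp (toJ (N * m)) (fun J => ((E J).card : ℝ))] at h12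
  have h13 := sum_abs N m D hm
  linarith

/-- there is a play for all signs of the adversary (helper814, `AdversarialSigns`) -/
theorem exists_play {n : ℕ} (J : Finset (Fin n)) (σ : Fin n → (Fin n → ℤˣ) → ℤˣ)
    (hσ : ∀ j ε ε', (∀ i, i < j → ε i = ε' i) → σ j ε = σ j ε') :
    ∃ ε : Fin n → ℤˣ, (∀ j, j ∉ J → ε j = σ j ε) ∧ ∀ j ∈ J, ε j = 1 := by
  classical
  have h : ∀ m : ℕ, m ≤ n → ∃ ε : Fin n → ℤˣ, ∀ j : Fin n, (j : ℕ) < m →
      (j ∉ J → ε j = σ j ε) ∧ (j ∈ J → ε j = 1) := by
    intro m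
    induction m with
    | zero => intro _; exact ⟨fun _ => 1, fun j hj => absurd hj (Nat.not_lt_zero _)⟩
    | succ m ih =>
      intro hm
      obtain ⟨ε, hε⟩ := ih (by omega)
      have hmn : m < n := by omega
      refine ⟨Function.update ε ⟨m, hmn⟩ (if (⟨m, hmn⟩ : Fin n) ∈ J then 1 else σ ⟨m, hmn⟩ ε),
        fun j hj => ?_⟩
      have hloc : ∀ j : Fin n, (j : ℕ) ≤ m → σ j (Function.update ε ⟨m, hmn⟩
          (if (⟨m, hmn⟩ : Fin n) ∈ J then 1 else σ ⟨m, hmn⟩ ε)) = σ j ε := by
        intro j hj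
        apply hσ
        intro i hi
        rw [Function.update_of_ne]
        intro h
        rw [h] at hi
        have : m < (j : ℕ) := hi
        omega
      by_cases hjm : j = ⟨m, hmn⟩
      · subst hjm
        rw [hloc _ le_rfl, Function.update_self]
        constructor
        · intro h; rw [if_neg h]
        · intro h; rw [if_pos h]
      · have hj2 : (j : ℕ) < m := by
          have : (j : ℕ) ≠ m := fun h => hjm (Fin.ext h)
          omega
        rw [hloc j (by omega), Function.update_of_ne hjm]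
        exact hε j hj2
  obtain ⟨ε, hε⟩ := h n le_rfl
  exact ⟨ε, fun j hj => (hε j j.isLt).1 hj, fun j hj => (hε j j.isLt).2 hj⟩

/-- a set of turns which can be given away has at most `(|C| + R) / 2` elements in `C` if winning
implies that the sum over `C` is at most `R` -/
theorem wins_card {n : ℕ} {F : (Fin n → ℤˣ) → Prop} {J : Finset (Fin n)}
    (h : Wins F (fun i => i ∈ J)) (C : Finset (Fin n)) (R : ℝ) (hF : ∀ ε, F ε → S C ε ≤ R) :
    2 * ((J ∩ C).card : ℝ) ≤ C.card + R := by
  classical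
  obtain ⟨σ, hσ, hF2⟩ := h
  obtain ⟨ε, h1, h2⟩ := exists_play J σ hσ
  have h3 := hF ε (hF2 ε h1)
  rw [S_toJ] at h3
  have h4 : ((J ∩ C).card : ℝ) ≤ ((toJ n ε ∩ C).card : ℝ) := by
    have : J ∩ C ⊆ toJ n ε ∩ C := by
      intro i hi
      rw [mem_inter] at hi ⊢
      refine ⟨?_, hi.2⟩
      simp [toJ, h2 i hi.1]
    exact_mod_cast Finset.card_le_card this
  linarith

/-- sharpness for the random-turn game -/
theorem sharp_game (N m : ℕ) (D : ℝ) (hD : 0 ≤ D) (hm : 4 * D ≤ Real.sqrt (m / 3))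
    (S' : Pool.Agent.R378.Game.Strategy (N * m))
    (hS : ∀ P, Pool.Agent.R378.Game.IsPlay S' P → ∀ c k, |S (B N m k) (P c)| ≤ D) :
    ∃ P, Pool.Agent.R378.Game.IsPlay S' P ∧ 2 ^ (N * m) * (N * (D / 2)) ≤
      ∑ c, (Pool.Agent.R378.Game.cost S' P c : ℝ) := by
  classical
  obtain ⟨P, hP1, hP2⟩ := Pool.Agent.R378.Game.exists_play S'
  refine ⟨P, hP1, ?_⟩
  set E : Finset (Fin (N * m)) → Finset (Fin (N * m)) := fun J =>
    univ.filter (fun j => (toF _).symm J j = true ∧
      S'.buy j ((toF _).symm J) (P ((toF _).symm J)) = true) with hE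
  have hmem : ∀ (J : Finset (Fin (N * m))) i, (toF _).symm J i = decide (i ∈ J) :=
    fun J i => rfl
  have h1 := sharp_positions N m D hD hm E (fun J k => by
    have h2 := hS P hP1 ((toF _).symm J) k
    have h3 := (le_abs_self _).trans h2
    rw [S_toJ, card_B] at h3
    have h4 : (((J \ E J) ∩ B N m k).card : ℝ) ≤
        ((toJ _ (P ((toF _).symm J)) ∩ B N m k).card : ℝ) := by
      have : (J \ E J) ∩ B N m k ⊆ toJ _ (P ((toF _).symm J)) ∩ B N m k := by
        intro i hi
        rw [mem_inter, mem_sdiff] at hi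
        rw [mem_inter]
        refine ⟨?_, hi.2⟩
        have h5 : (toF _).symm J i = true := by rw [hmem]; simp [hi.1.1]
        have h6 : S'.buy i ((toF _).symm J) (P ((toF _).symm J)) = false := by
          by_contra hcon
          apply hi.1.2
          rw [hE]
          simp only [mem_filter, mem_univ, true_and]
          exact ⟨h5, by simpa using hcon⟩
        have h7 := hP2 _ i h5 h6
        simp [toJ, h7]
      exact_mod_cast Finset.card_le_card this
    linarith)
  refine h1.trans (le_of_eq ?_)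
  rw [← Equiv.sum_comp (toF (N * m)).symm
    (fun c => (Pool.Agent.R378.Game.cost S' P c : ℝ))]
  rfl

/-- a suitable length of the blocks -/
theorem exists_m (D : ℝ) (hD : 1 ≤ D) : ∃ m : ℕ, 0 < m ∧ 4 * D ≤ Real.sqrt (m / 3) ∧
    (m : ℝ) ≤ 49 * D ^ 2 := by
  refine ⟨⌈48 * D ^ 2⌉₊, ?_, ?_, ?_⟩
  · apply Nat.ceil_pos.2
    positivity
  · apply Real.le_sqrt_of_sq_le
    have := Nat.le_ceil (48 * D ^ 2)
    nlinarith
  · have := Nat.ceil_lt_add_one (show (0:ℝ) ≤ 48 * D ^ 2 by positivity)
    nlinarith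

end Pool.Agent.R378.Rep
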