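import Pool.Agent.R378.Rep

/-!
# Sharpness for blocks, with a bound for the average over the blocks
-/

set_option autoImplicit false

namespace Pool.Agent.R378.RepAvg

open Finset Pool.Agent.R814.Game Pool.Agent.R378.Khin Pool.Agent.R378.Game Pool.Agent.R378.Rep

/-- sharpness for signings, with a bound for the sum over the blocks -/
theorem sharp_signings (N m : ℕ) (D : ℝ) (hm : 4 * D ≤ Real.sqrt (m / 3))
    (g : (Fin (N * m) → ℤˣ) → (Fin (N * m) → ℤˣ))
    (hg : ∀ ε, ∑ k, |S (B N m k) (g ε)| ≤ N * D) :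
    2 ^ (N * m) * (N * (3 * D / 2)) ≤
      ∑ ε, ((univ.filter (fun i => ε i ≠ g ε i)).card : ℝ) := by
  classical
  have h1 : ∀ ε : Fin (N * m) → ℤˣ, ∑ k, |S (B N m k) ε| ≤
      N * D + 2 * ((univ.filter (fun i => ε i ≠ g ε i)).card : ℝ) := by
    intro ε
    set X := univ.filter (fun i => ε i ≠ g ε i) with hX
    have h2 : ∀ k, |S (B N m k) ε| ≤ |S (B N m k) (g ε)| + 2 * ((X ∩ B N m k).card : ℝ) := by
      intro k
      have h3 : S (B N m k) ε - S (B N m k) (g ε) =
          ∑ i ∈ B N m k, (((ε i : ℤ) : ℝ) - ((g ε i : ℤ) : ℝ)) := by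
        unfold S
        rw [Finset.sum_sub_distrib]
      have h4 : |S (B N m k) ε - S (B N m k) (g ε)| ≤ 2 * ((X ∩ B N m k).card : ℝ) := by
        rw [h3]
        refine (Finset.abs_sum_le_sum_abs _ _).trans ?_
        have h5 : X ∩ B N m k = (B N m k).filter (fun i => ε i ≠ g ε i) := by
          ext i
          simp [hX, and_comm]
        rw [h5, Finset.card_filter]
        push_cast
        rw [Finset.mul_sum]
        refine Finset.sum_le_sum fun i _ => ?_
        rcases Int.units_eq_one_or (ε i) with h | h <;>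
          rcases Int.units_eq_one_or (g ε i) with h' | h' <;> rw [h, h'] <;> norm_num
      have h6 := abs_sub_abs_le_abs_sub (S (B N m k) ε) (S (B N m k) (g ε))
      linarith
    refine (Finset.sum_le_sum fun k _ => h2 k).trans ?_
    rw [Finset.sum_add_distrib, ← Finset.mul_sum, card_blocks N m X]
    push_cast
    linarith [hg ε]
  have h8 := (sum_abs N m D hm).trans (Finset.sum_le_sum fun ε _ => h1 ε)
  rw [Finset.sum_add_distrib, Finset.sum_const, Finset.card_univ, nsmul_eq_mul, card_cube,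
    ← Finset.mul_sum] at h8
  linarith

/-- sharpness for sets of turns, with a bound for the sum over the blocks -/
theorem sharp_positions (N m : ℕ) (D : ℝ) (hm : 4 * D ≤ Real.sqrt (m / 3))
    (E : Finset (Fin (N * m)) → Finset (Fin (N * m)))
    (hE : ∀ J, ∑ k, max 0 (2 * (((J \ E J) ∩ B N m k).card : ℝ) - m) ≤ N * D) :
    2 ^ (N * m) * (N * (D / 2)) ≤ ∑ J, ((E J).card : ℝ) := by
  classical
  have h1 : ∀ x : Fin (N * m) → ℤˣ, ∑ k, (|S (B N m k) x| + S (B N m k) x) / 2 ≤
      N * D + 2 * ((E (toJ _ x)).card : ℝ) := by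
    intro x
    set J := toJ _ x with hJ
    have h2 : ∀ k, (|S (B N m k) x| + S (B N m k) x) / 2 ≤
        max 0 (2 * (((J \ E J) ∩ B N m k).card : ℝ) - m) + 2 * ((E J ∩ B N m k).card : ℝ) := by
      intro k
      have h4 : ((J ∩ B N m k).card : ℝ) ≤
          (((J \ E J) ∩ B N m k).card : ℝ) + ((E J ∩ B N m k).card : ℝ) := by
        have : J ∩ B N m k ⊆ ((J \ E J) ∩ B N m k) ∪ (E J ∩ B N m k) := by
          intro i hi
          rw [mem_inter] at hi
          rw [mem_union, mem_inter, mem_inter, mem_sdiff]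
          by_cases h : i ∈ E J
          · exact Or.inr ⟨h, hi.2⟩
          · exact Or.inl ⟨⟨hi.1, h⟩, hi.2⟩
        have h5 := (Finset.card_le_card this).trans (Finset.card_union_le _ _)
        exact_mod_cast h5
      have h6 : S (B N m k) x = 2 * ((J ∩ B N m k).card : ℝ) - m := by
        rw [S_toJ, card_B]
      have h3 := le_max_left (0:ℝ) (2 * (((J \ E J) ∩ B N m k).card : ℝ) - m)
      have h3' := le_max_right (0:ℝ) (2 * (((J \ E J) ∩ B N m k).card : ℝ) - m)
      have h8 : (0:ℝ) ≤ ((E J ∩ B N m k).card : ℝ) := by positivity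
      rcases abs_cases (S (B N m k) x) with h | h <;> rw [h.1] <;> linarith
    refine (Finset.sum_le_sum fun k _ => h2 k).trans ?_
    rw [Finset.sum_add_distrib, ← Finset.mul_sum, card_blocks N m (E J)]
    push_cast
    linarith [hE J]
  have h9 : ∑ x : Fin (N * m) → ℤˣ, ∑ k, (|S (B N m k) x| + S (B N m k) x) / 2 =
      (∑ x : Fin (N * m) → ℤˣ, ∑ k, |S (B N m k) x|) / 2 := by
    have h10 : ∑ x : Fin (N * m) → ℤˣ, ∑ k, S (B N m k) x = 0 := by
      rw [Finset.sum_comm]
      exact Finset.sum_eq_zero fun k _ => sum_S _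
    have h11 : ∀ x : Fin (N * m) → ℤˣ, ∑ k, (|S (B N m k) x| + S (B N m k) x) / 2 =
        (∑ k, |S (B N m k) x|) / 2 + (∑ k, S (B N m k) x) / 2 := by
      intro x
      rw [← Finset.sum_div, Finset.sum_add_distrib, add_div]
    simp only [h11]
    rw [Finset.sum_add_distrib, ← Finset.sum_div, ← Finset.sum_div, h10]
    simp
  have h12 := Finset.sum_le_sum (s := univ) fun (x : Fin (N * m) → ℤˣ) _ => h1 x
  rw [h9, Finset.sum_add_distrib, Finset.sum_const, Finset.card_univ, nsmul_eq_mul, card_cube,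
    ← Finset.mul_sum, Equiv.sum_comp (toJ (N * m)) (fun J => ((E J).card : ℝ))] at h12
  have h13 := sum_abs N m D hm
  linarith

/-- the bound of `sharp_positions` for a signing which is `1` on `J` -/
theorem excess_le {N m : ℕ} {D : ℝ} {J : Finset (Fin (N * m))} {ε : Fin (N * m) → ℤˣ}
    (h1 : ∀ i ∈ J, ε i = 1) (h2 : ∑ k, |S (B N m k) ε| ≤ N * D) :
    ∑ k, max 0 (2 * ((J ∩ B N m k).card : ℝ) - m) ≤ N * D := by
  classical
  refine le_trans (Finset.sum_le_sum fun k _ => ?_) h2
  have h3 : ((J ∩ B N m k).card : ℝ) ≤ ((toJ _ ε ∩ B N m k).card : ℝ) := by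
    have : J ∩ B N m k ⊆ toJ _ ε ∩ B N m k := by
      intro i hi
      rw [mem_inter] at hi ⊢
      refine ⟨?_, hi.2⟩
      simp [toJ, h1 i hi.1]
    exact_mod_cast Finset.card_le_card this
  have h4 : S (B N m k) ε = 2 * ((toJ _ ε ∩ B N m k).card : ℝ) - m := by
    rw [S_toJ, card_B]
  apply max_le (abs_nonneg _)
  refine le_trans ?_ (le_abs_self _)
  rw [h4]
  linarith

/-- the bound of `sharp_positions` for a set of turns which can be given away -/
theorem wins_excess {N m : ℕ} {D : ℝ} {F : (Fin (N * m) → ℤˣ) → Prop} {J : Finset (Fin (N * m))}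
    (h : Wins F (fun i => i ∈ J)) (hF : ∀ ε, F ε → ∑ k, |S (B N m k) ε| ≤ N * D) :
    ∑ k, max 0 (2 * ((J ∩ B N m k).card : ℝ) - m) ≤ N * D := by
  classical
  obtain ⟨σ, hσ, hF2⟩ := h
  obtain ⟨ε, h1, h2⟩ := Rep.exists_play J σ hσ
  exact excess_le h2 (hF ε (hF2 ε h1))

/-- sharpness for the random-turn game, with a bound for the sum over the blocks -/
theorem sharp_game (N m : ℕ) (D : ℝ) (hm : 4 * D ≤ Real.sqrt (m / 3))
    (S' : Strategy (N * m))
    (hS : ∀ P, IsPlay S' P → ∀ c, ∑ k, |S (B N m k) (P c)| ≤ N * D) :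
    ∃ P, IsPlay S' P ∧ 2 ^ (N * m) * (N * (D / 2)) ≤ ∑ c, (cost S' P c : ℝ) := by
  classical
  obtain ⟨P, hP1, hP2⟩ := Pool.Agent.R378.Game.exists_play S'
  refine ⟨P, hP1, ?_⟩
  set E : Finset (Fin (N * m)) → Finset (Fin (N * m)) := fun J =>
    univ.filter (fun j => (toF _).symm J j = true ∧
      S'.buy j ((toF _).symm J) (P ((toF _).symm J)) = true) with hE
  have hmem : ∀ (J : Finset (Fin (N * m))) i, (toF _).symm J i = decide (i ∈ J) :=
    fun J i => rfl
  have h1 := sharp_positions N m D hm E (fun J => by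
    refine excess_le (ε := P ((toF _).symm J)) ?_ (hS P hP1 _)
    intro i hi
    rw [mem_sdiff] at hi
    have h5 : (toF _).symm J i = true := by rw [hmem]; simp [hi.1]
    have h6 : S'.buy i ((toF _).symm J) (P ((toF _).symm J)) = false := by
      by_contra hcon
      apply hi.2
      rw [hE]
      simp only [mem_filter, mem_univ, true_and]
      exact ⟨h5, by simpa using hcon⟩
    exact hP2 _ i h5 h6)
  refine h1.trans (le_of_eq ?_)
  rw [← Equiv.sum_comp (toF (N * m)).symm (fun c => (cost S' P c : ℝ))]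
  rfl

/-! ### The Sylvester-Hadamard system -/

/-- the Sylvester-Hadamard matrix -/
noncomputable def had {k : ℕ} (b j : Finset (Fin k)) : ℝ := (-1) ^ (b ∩ j).card

theorem had_eq {k : ℕ} (b j : Finset (Fin k)) :
    had b j = ∏ i ∈ j, (if i ∈ b then (-1:ℝ) else 1) := by
  unfold had
  rw [Finset.prod_ite, Finset.prod_const_one, mul_one, Finset.prod_const]
  congr 2
  ext i
  simp [and_comm]

/-- the rows of the matrix are orthogonal -/
theorem had_orth {k : ℕ} (b b' : Finset (Fin k)) :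
    ∑ j, had b j * had b' j = if b = b' then 2 ^ k else 0 := by
  classical
  have h1 : ∀ j : Finset (Fin k), had b j * had b' j =
      ∏ i ∈ j, ((if i ∈ b then (-1:ℝ) else 1) * (if i ∈ b' then (-1:ℝ) else 1)) := by
    intro j
    rw [had_eq, had_eq, ← Finset.prod_mul_distrib]
  simp only [h1]
  have h2 := Finset.prod_one_add (s := (univ : Finset (Fin k)))
    (f := fun i => ((if i ∈ b then (-1:ℝ) else 1) * (if i ∈ b' then (-1:ℝ) else 1)))
  rw [Finset.powerset_univ] at h2
  rw [← h2]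
  split_ifs with h
  · subst h
    rw [Finset.prod_congr rfl (g := fun _ => (2:ℝ))]
    · simp
    · intro i _
      by_cases hi : i ∈ b <;> simp [hi] <;> norm_num
  · have : ∃ i, ¬ (i ∈ b ↔ i ∈ b') := by
      by_contra hcon
      push Not at hcon
      exact h (Finset.ext hcon)
    obtain ⟨i, hi⟩ := this
    apply Finset.prod_eq_zero (mem_univ i)
    by_cases h1 : i ∈ b <;> by_cases h2 : i ∈ b' <;> simp_all

/-- Parseval -/
theorem parseval {k : ℕ} (Y : Finset (Fin k) → ℝ) :
    ∑ j, (∑ b, had b j * Y b) ^ 2 = 2 ^ k * ∑ b, Y b ^ 2 := by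
  classical
  have h1 : ∀ j : Finset (Fin k), (∑ b, had b j * Y b) ^ 2 =
      ∑ b, ∑ b', Y b * Y b' * (had b j * had b' j) := by
    intro j
    rw [sq, Finset.sum_mul_sum]
    refine Finset.sum_congr rfl fun b _ => Finset.sum_congr rfl fun b' _ => ?_
    ring
  simp only [h1]
  rw [Finset.sum_comm, Finset.mul_sum]
  refine Finset.sum_congr rfl fun b _ => ?_
  rw [Finset.sum_comm]
  have h2 : ∀ b', ∑ j, Y b * Y b' * (had b j * had b' j) =
      if b = b' then 2 ^ k * Y b ^ 2 else 0 := by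
    intro b'
    rw [← Finset.mul_sum, had_orth]
    split_ifs with h
    · subst h; ring
    · simp
  simp only [h2]
  simp

/-- if the sums of `Y` over the sets of the Hadamard system are at most `R` then `∑ Y² ≤ 9 R²` -/
theorem sum_sq_le {k : ℕ} (Y : Finset (Fin k) → ℝ) (R : ℝ)
    (h : ∀ j, |∑ b, (if had b j = 1 then Y b else 0)| ≤ R) : ∑ b, Y b ^ 2 ≤ 9 * R ^ 2 := by
  classical
  have hR : 0 ≤ R := (abs_nonneg _).trans (h ∅)
  have hpm : ∀ b j : Finset (Fin k), had b j = 1 ∨ had b j = -1 := by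
    intro b j
    exact neg_one_pow_eq_or ℝ _
  have h1 : ∀ j, ∑ b, had b j * Y b =
      2 * (∑ b, (if had b j = 1 then Y b else 0)) - ∑ b, (if had b ∅ = 1 then Y b else 0) := by
    intro j
    rw [Finset.mul_sum, ← Finset.sum_sub_distrib]
    refine Finset.sum_congr rfl fun b _ => ?_
    have h2 : had b ∅ = 1 := by simp [had]
    rw [if_pos h2]
    rcases hpm b j with h3 | h3
    · rw [h3, if_pos rfl]; ring
    · rw [h3, if_neg (by norm_num)]; ring
  have h2 : ∀ j, (∑ b, had b j * Y b) ^ 2 ≤ 9 * R ^ 2 := by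
    intro j
    have h3 : |∑ b, had b j * Y b| ≤ 3 * R := by
      rw [h1 j]
      have h4 := abs_le.1 (h j)
      have h5 := abs_le.1 (h ∅)
      rw [abs_le]
      constructor <;> linarith
    have h6 := sq_le_sq' (abs_le.1 h3).1 (abs_le.1 h3).2
    nlinarith
  have h3 := parseval Y
  have h4 : ∑ j, (∑ b, had b j * Y b) ^ 2 ≤ ∑ _j : Finset (Fin k), 9 * R ^ 2 :=
    Finset.sum_le_sum fun j _ => h2 j
  rw [h3, Finset.sum_const, Finset.card_univ, Fintype.card_finset, Fintype.card_fin,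
    nsmul_eq_mul] at h4
  push_cast at h4
  have h5 : (0:ℝ) < 2 ^ k := by positivity
  exact le_of_mul_le_mul_left h4 h5

/-- if the sums of `Y` over the sets of the Hadamard system are at most `R` then
`∑ |Y| ≤ 3 R 2^{k/2}` -/
theorem sum_abs_le {k : ℕ} (Y : Finset (Fin k) → ℝ) (R : ℝ)
    (h : ∀ j, |∑ b, (if had b j = 1 then Y b else 0)| ≤ R) :
    ∑ b, |Y b| ≤ 3 * R * Real.sqrt (2 ^ k) := by
  classical
  have hR : 0 ≤ R := (abs_nonneg _).trans (h ∅)
  have h1 := sum_sq_le Y R h
  have h2 : (∑ b, |Y b|) ^ 2 ≤ 2 ^ k * ∑ b, Y b ^ 2 := by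
    have h3 := sq_sum_le_card_mul_sum_sq (s := (univ : Finset (Finset (Fin k))))
      (f := fun b => |Y b|)
    simp only [sq_abs, Finset.card_univ, Fintype.card_finset, Fintype.card_fin] at h3
    push_cast at h3
    exact h3
  apply abs_le_of_sq_le_sq' _ (by positivity) |>.2
  rw [mul_pow, Real.sq_sqrt (by positivity)]
  calc (∑ b, |Y b|) ^ 2 ≤ 2 ^ k * ∑ b, Y b ^ 2 := h2
    _ ≤ 2 ^ k * (9 * R ^ 2) := mul_le_mul_of_nonneg_left h1 (by positivity)
    _ = (3 * R) ^ 2 * 2 ^ k := by ring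

end Pool.Agent.R378.RepAvg
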