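import Pool.Agent.R378.NF1

/-!
# Exponentials with frequencies in a closed set are dominated by vectors of a Hilbert space,
with the measure of the set as the constant
-/

set_option autoImplicit false

namespace Pool.Agent.R378.VD

open Finset MeasureTheory Metric
open Pool.Agent.R378.NF (fourier_add_arg norm_fourier exists_real)

/-- the points `j / M` -/
noncomputable def pt (M j : ℕ) : UnitAddCircle := (((j : ℝ) / M : ℝ) : UnitAddCircle)

lemma fourier_pt (M j : ℕ) (k : ℤ) :
    (fourier k (pt M j) : ℂ) = Complex.exp (2 * Real.pi * Complex.I * k / M) ^ j := by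
  unfold pt
  rw [fourier_coe_apply, ← Complex.exp_nat_mul]
  congr 1
  push_cast
  ring

lemma orth (M : ℕ) (hM : 1 ≤ M) (k : ℤ) (hk : k ≠ 0) (hkM : |k| < M) :
    ∑ j ∈ range M, (fourier k (pt M j) : ℂ) = 0 := by
  have hM0 : (M : ℂ) ≠ 0 := by exact_mod_cast (by omega : M ≠ 0)
  set z : ℂ := Complex.exp (2 * Real.pi * Complex.I * k / M) with hz
  have hzM : z ^ M = 1 := by
    rw [hz, ← Complex.exp_nat_mul, Complex.exp_eq_one_iff]
    refine ⟨k, ?_⟩
    field_simp
  have hz1 : z ≠ 1 := by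
    intro h
    rw [hz, Complex.exp_eq_one_iff] at h
    obtain ⟨n, hn⟩ := h
    have h2 : (2 * Real.pi * Complex.I : ℂ) ≠ 0 := Complex.two_pi_I_ne_zero
    have h3 : (k : ℂ) = n * M := by
      have h4 : (2 * Real.pi * Complex.I : ℂ) * (k / M) = (2 * Real.pi * Complex.I) * n := by
        rw [← mul_div_assoc, hn]; ring
      have h5 := mul_left_cancel₀ h2 h4
      rw [div_eq_iff hM0] at h5
      exact h5
    have h4 : k = n * M := by exact_mod_cast h3
    have h5 : n ≠ 0 := by
      rintro rfl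
      rw [zero_mul] at h4
      exact hk h4
    have h6 : 1 ≤ |n| := Int.one_le_abs h5
    rw [h4, abs_mul, Nat.abs_cast] at hkM
    have h7 : (M : ℤ) ≤ |n| * M := le_mul_of_one_le_left (by positivity) h6
    omega
  have h1 : ∑ j ∈ range M, (fourier k (pt M j) : ℂ) = ∑ j ∈ range M, z ^ j :=
    sum_congr rfl fun j _ => fourier_pt M j k
  rw [h1]
  have h2 := mul_geom_sum z M
  rw [hzM, sub_self] at h2
  exact (mul_eq_zero.1 h2).resolve_left (sub_ne_zero.2 hz1)

lemma conj_fourier (k : ℤ) (x : UnitAddCircle) :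
    (starRingEnd ℂ) (fourier k x : ℂ) = fourier (-k) x := fourier_neg.symm

/-- Parseval's identity for the points `j / M` -/
lemma parseval (M T : ℕ) (hM : 1 ≤ M) (hT : T ≤ M) (a : ℕ → ℂ) :
    ∑ j ∈ range M, ‖∑ t ∈ range T, a t * fourier (t : ℤ) (pt M j)‖ ^ 2 =
      M * ∑ t ∈ range T, ‖a t‖ ^ 2 := by
  have h1 : ((∑ j ∈ range M, ‖∑ t ∈ range T, a t * fourier (t : ℤ) (pt M j)‖ ^ 2 : ℝ) : ℂ) =
      ((M * ∑ t ∈ range T, ‖a t‖ ^ 2 : ℝ) : ℂ) := by
    push_cast
    have h2 : ∀ j ∈ range M, ((‖∑ t ∈ range T, a t * fourier (t : ℤ) (pt M j)‖ : ℂ)) ^ 2 =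
        ∑ t ∈ range T, ∑ s ∈ range T, a t * (starRingEnd ℂ) (a s) * fourier ((t : ℤ) - s) (pt M j) := by
      intro j _
      rw [← Complex.mul_conj', map_sum, sum_mul_sum]
      refine sum_congr rfl fun t _ => sum_congr rfl fun s _ => ?_
      rw [map_mul, conj_fourier, sub_eq_add_neg, fourier_add]
      ring
    rw [sum_congr rfl h2, sum_comm]
    simp_rw [sum_comm (s := range M)]
    rw [mul_sum]
    refine sum_congr rfl fun t ht => ?_
    rw [mem_range] at ht
    have h3 : ∀ s ∈ range T, ∑ j ∈ range M, a t * (starRingEnd ℂ) (a s) *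
        fourier ((t : ℤ) - s) (pt M j) = if s = t then M * (‖a t‖ : ℂ) ^ 2 else 0 := by
      intro s hs
      rw [mem_range] at hs
      rw [← mul_sum]
      by_cases h : s = t
      · rw [if_pos h, h, sub_self, Complex.mul_conj']
        simp only [fourier_zero, sum_const, card_range, nsmul_eq_mul, mul_one]
        ring
      · rw [if_neg h, orth M hM _ (by omega) (by rw [abs_lt]; omega), mul_zero]
    rw [sum_congr rfl h3, sum_ite_eq' (range T) t, if_pos (mem_range.2 ht)]
  exact_mod_cast h1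

/-- values of trigonometric polynomials from the values at the points `j / M` -/
lemma value (M T : ℕ) (hM : 1 ≤ M) (hT : T ≤ M) (a : ℕ → ℂ) (x : UnitAddCircle) :
    M * ‖∑ t ∈ range T, a t * fourier (t : ℤ) x‖ ^ 2 ≤
      T * ∑ j ∈ range M, ‖∑ t ∈ range T, a t * fourier (t : ℤ) (pt M j)‖ ^ 2 := by
  rw [parseval M T hM hT a]
  have h1 : ‖∑ t ∈ range T, a t * fourier (t : ℤ) x‖ ≤ ∑ t ∈ range T, ‖a t‖ := by
    refine (norm_sum_le _ _).trans (sum_le_sum fun t _ => ?_)
    rw [norm_mul, norm_fourier, mul_one]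
  have h2 : (∑ t ∈ range T, ‖a t‖) ^ 2 ≤ T * ∑ t ∈ range T, ‖a t‖ ^ 2 := by
    have := sq_sum_le_card_mul_sum_sq (s := range T) (f := fun t => ‖a t‖)
    rwa [card_range] at this
  have h3 : ‖∑ t ∈ range T, a t * fourier (t : ℤ) x‖ ^ 2 ≤ T * ∑ t ∈ range T, ‖a t‖ ^ 2 :=
    le_trans (pow_le_pow_left₀ (norm_nonneg _) h1 2) h2
  calc (M:ℝ) * ‖∑ t ∈ range T, a t * fourier (t : ℤ) x‖ ^ 2 ≤
      M * (T * ∑ t ∈ range T, ‖a t‖ ^ 2) := mul_le_mul_of_nonneg_left h3 (by positivity)
    _ = _ := by ring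

/-- the Dirichlet kernel -/
noncomputable def D (l : ℕ) (x : UnitAddCircle) : ℂ := ∑ i ∈ range l, fourier (i : ℤ) x

lemma D_le (l : ℕ) (x : UnitAddCircle) : ‖D l x‖ ≤ l := by
  unfold D
  refine (norm_sum_le _ _).trans (le_of_eq ?_)
  calc ∑ i ∈ range l, ‖(fourier (i : ℤ) x : ℂ)‖ = ∑ _i ∈ range l, (1 : ℝ) :=
        sum_congr rfl fun i _ => norm_fourier _ _
    _ = l := by simp

lemma four_le (x : UnitAddCircle) : 4 * ‖x‖ ≤ ‖(fourier 1 x : ℂ) - 1‖ := by
  obtain ⟨t, ht, ht2⟩ := exists_real x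
  have ht3 : |t| ≤ 1 / 2 := by
    rw [ht2]
    have := AddCircle.norm_le_half_period (p := 1) (x := x) one_ne_zero
    simpa using this
  rw [← ht2, ← ht, fourier_coe_apply]
  have e : Complex.exp (2 * Real.pi * Complex.I * (1 : ℤ) * t / (1 : ℝ)) =
      Complex.exp (((2 * Real.pi * t : ℝ) : ℂ) * Complex.I) := by
    congr 1
    push_cast
    ring
  rw [e]
  have h1 : ‖Complex.exp (((2 * Real.pi * t : ℝ) : ℂ) * Complex.I) - 1‖ = 2 * |Real.sin (Real.pi * t)| := by
    have h2 : Complex.exp (((2 * Real.pi * t : ℝ) : ℂ) * Complex.I) - 1 =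
        Complex.exp (((Real.pi * t : ℝ) : ℂ) * Complex.I) *
          (2 * Complex.I * ((Real.sin (Real.pi * t) : ℝ) : ℂ)) := by
      rw [Complex.ofReal_sin, Complex.sin]
      have h3 : Complex.exp (((2 * Real.pi * t : ℝ) : ℂ) * Complex.I) =
          Complex.exp (((Real.pi * t : ℝ) : ℂ) * Complex.I) * Complex.exp (((Real.pi * t : ℝ) : ℂ) * Complex.I) := by
        rw [← Complex.exp_add]
        congr 1
        push_cast
        ring
      have h4 : Complex.exp (((Real.pi * t : ℝ) : ℂ) * Complex.I) *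
          Complex.exp (-((Real.pi * t : ℝ) : ℂ) * Complex.I) = 1 := by
        rw [← Complex.exp_add, neg_mul, add_neg_cancel, Complex.exp_zero]
      rw [h3]
      linear_combination (-(Complex.exp (((Real.pi * t : ℝ) : ℂ) * Complex.I) *
        Complex.exp (-((Real.pi * t : ℝ) : ℂ) * Complex.I) -
          Complex.exp (((Real.pi * t : ℝ) : ℂ) * Complex.I) ^ 2)) * Complex.I_sq + h4
    rw [h2, norm_mul, Complex.norm_exp_ofReal_mul_I, one_mul, norm_mul, norm_mul, Complex.norm_I,
      Complex.norm_real, Real.norm_eq_abs]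
    norm_num
  rw [h1]
  have h2 : 2 * |t| ≤ |Real.sin (Real.pi * t)| := by
    have hpi := Real.pi_pos
    have h3 : |Real.sin (Real.pi * t)| = Real.sin (Real.pi * |t|) := by
      rcases le_total 0 t with h | h
      · rw [abs_of_nonneg h, abs_of_nonneg]
        apply Real.sin_nonneg_of_nonneg_of_le_pi (by positivity)
        rw [abs_of_nonneg h] at ht3
        nlinarith
      · rw [abs_of_nonpos h, mul_neg, Real.sin_neg, abs_of_nonpos]
        rw [← neg_nonneg, ← Real.sin_neg, ← mul_neg]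
        apply Real.sin_nonneg_of_nonneg_of_le_pi (by nlinarith)
        rw [abs_of_nonpos h] at ht3
        nlinarith
    rw [h3]
    have h4 := Real.mul_le_sin (x := Real.pi * |t|) (by positivity) (by nlinarith [abs_nonneg t])
    have h5 : 2 / Real.pi * (Real.pi * |t|) = 2 * |t| := by field_simp
    rw [h5] at h4
    exact h4
  linarith

lemma D_far (l : ℕ) (x : UnitAddCircle) (δ : ℝ) (hδ : 0 < δ) (hx : δ ≤ ‖x‖) :
    ‖D l x‖ ≤ 1 / (2 * δ) := by
  have h1 : ((fourier 1 x : ℂ) - 1) * D l x = fourier (l : ℤ) x - 1 := by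
    unfold D
    induction l with
    | zero => simp
    | succ n ih =>
      rw [sum_range_succ, mul_add, ih]
      push_cast
      rw [fourier_add]
      ring
  have h2 : ‖(fourier 1 x : ℂ) - 1‖ * ‖D l x‖ ≤ 2 := by
    rw [← norm_mul, h1]
    refine (norm_sub_le _ _).trans ?_
    rw [norm_fourier, norm_one]
    norm_num
  have h3 := four_le x
  have h4 : 4 * δ * ‖D l x‖ ≤ 2 := by
    refine le_trans (mul_le_mul_of_nonneg_right ?_ (norm_nonneg _)) h2
    linarith
  rw [le_div_iff₀ (by positivity)]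
  nlinarith [norm_nonneg (D l x)]

/-- **van der Corput's inequality in terms of the values at the points `j / M`** -/
lemma vdc (M L l : ℕ) (hL : 1 ≤ L) (hM : L + l ≤ M) (v : ℕ → ℂ) (α : UnitAddCircle) :
    (M * l ^ 2 : ℝ) * ‖∑ h ∈ range L, v h * fourier (h : ℤ) α‖ ^ 2 ≤
      (L + l : ℕ) * ∑ j ∈ range M, ‖∑ h ∈ range L, v h * fourier (h : ℤ) (pt M j)‖ ^ 2 *
        ‖D l (α - pt M j)‖ ^ 2 := by
  classical
  set a : ℕ → ℂ := fun t => ∑ h ∈ range L, ∑ i ∈ range l,
    if h + l - i = t then v h * fourier (i : ℤ) α else 0 with ha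
  have key : ∀ x : UnitAddCircle, ∑ t ∈ range (L + l), a t * fourier (t : ℤ) x =
      fourier (l : ℤ) x * (∑ h ∈ range L, v h * fourier (h : ℤ) x) * D l (α - x) := by
    intro x
    have h1 : ∑ t ∈ range (L + l), a t * fourier (t : ℤ) x =
        ∑ h ∈ range L, ∑ i ∈ range l, v h * fourier (i : ℤ) α * fourier ((h + l - i : ℕ) : ℤ) x := by
      rw [ha]
      simp_rw [sum_mul]
      rw [sum_comm]
      refine sum_congr rfl fun h hh => ?_
      rw [sum_comm]
      refine sum_congr rfl fun i hi => ?_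
      rw [mem_range] at hh hi
      have h2 : ∀ t ∈ range (L + l), (if h + l - i = t then v h * fourier (i : ℤ) α else 0) *
          (fourier (t : ℤ) x : ℂ) = if t = h + l - i then
            v h * fourier (i : ℤ) α * fourier ((h + l - i : ℕ) : ℤ) x else 0 := by
        intro t _
        by_cases h3 : h + l - i = t
        · rw [if_pos h3, if_pos h3.symm, h3]
        · rw [if_neg h3, if_neg fun h4 => h3 h4.symm, zero_mul]
      rw [sum_congr rfl h2, sum_ite_eq' (range (L + l)) (h + l - i), if_pos (mem_range.2 (by omega))]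
    rw [h1]
    unfold D
    rw [mul_assoc, sum_mul_sum, mul_sum]
    refine sum_congr rfl fun h hh => ?_
    rw [mul_sum]
    refine sum_congr rfl fun i hi => ?_
    rw [mem_range] at hi
    have h2 : ((h + l - i : ℕ) : ℤ) = (l : ℤ) + h + (-(i : ℤ)) := by
      rw [Nat.cast_sub (by omega)]
      push_cast
      ring
    have h3 : (fourier (i : ℤ) (α - x) : ℂ) = fourier (i : ℤ) α * fourier (-(i : ℤ)) x := by
      rw [sub_eq_add_neg, fourier_add_arg]
      congr 1
      rw [fourier_apply, fourier_apply, smul_neg, neg_smul]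
    rw [h2, fourier_add, fourier_add, h3]
    ring
  have h1 := value M (L + l) (by omega) hM a α
  rw [key α] at h1
  have h2 : ∀ j ∈ range M, ‖∑ t ∈ range (L + l), a t * fourier (t : ℤ) (pt M j)‖ ^ 2 =
      ‖∑ h ∈ range L, v h * fourier (h : ℤ) (pt M j)‖ ^ 2 * ‖D l (α - pt M j)‖ ^ 2 := by
    intro j _
    rw [key (pt M j), norm_mul, norm_mul, norm_fourier, one_mul, mul_pow]
  rw [sum_congr rfl h2] at h1
  have h3 : D l (α - α) = l := by
    unfold D
    rw [sub_self]
    simp
  rw [h3, norm_mul, norm_mul, norm_fourier, one_mul, Complex.norm_natCast, mul_pow] at h1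
  calc (M * l ^ 2 : ℝ) * ‖∑ h ∈ range L, v h * fourier (h : ℤ) α‖ ^ 2 =
      M * (‖∑ h ∈ range L, v h * fourier (h : ℤ) α‖ ^ 2 * l ^ 2) := by ring
    _ ≤ _ := h1

end Pool.Agent.R378.VD
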